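import Pool.Agent.P.MP_f1a348_lc.LT.Tz

/-!
Lemma T in every characteristic: a form that is invariant modulo traces is a trace.
-/

namespace Pool.Agent.P.MP_f1a348_lc.LT2

open Matrix Module Pool.Agent.P.MP_f1a348_lc.PG Pool.Agent.P.MP_f1a348_lc.UP
  Pool.Agent.P.MP_f1a348_lc.KT Pool.Agent.P.MP_f1a348_lc.UP.LT

set_option linter.unusedSectionVars false

variable {p n : ℕ} [Fact p.Prime] {ℓ : Ix n → ℕ} {B : Sub p n} {a : Fin 3 → Ix n}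
  {Y Z : SG p n} {τ : GG p n} {t k : ℕ} {θ : Frm p n}

theorem pull_pow (e : pull1 τ.1 θ = θ) (i : ℕ) : pull1 (τ ^ i).1 θ = θ := by
  induction i with
  | zero => exact pull1_one θ
  | succ i ih => rw [pow_succ, val_mul, pull1_mul, ih, e]

theorem sum_ev (e : pull1 τ.1 θ = θ) (t : ℕ) (x : Fin 3 → Vec p n) :
    ∑ i ∈ Finset.range t, ev θ (fun j => (τ ^ i).1 *ᵥ x j) = t * ev θ x := by
  simp only [← ev_pull1, pull_pow e, Finset.sum_const, Finset.card_range, nsmul_eq_mul]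

theorem mpp (ht : (t : ZMod p) ≠ 0) (e : pull1 τ.1 θ = θ) {x y z : Vec p n}
    (hx : x ∈ Vm τ t ⊤) (hy : τ.1 *ᵥ y = y) (hz : τ.1 *ᵥ z = z) : ev θ ![x, y, z] = 0 := by
  refine (mul_eq_zero.1 ((sum_ev e t _).symm.trans ?_)).resolve_left ht
  have : ∀ i, ev θ (fun j => (τ ^ i).1 *ᵥ ![x, y, z] j) = cur θ y ((τ ^ i).1 *ᵥ x) z := fun i => by
    rw [cur_apply]
    congr 1
    funext j
    fin_cases j
    exacts [rfl, pow_fix hy i, pow_fix hz i]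
  simp only [this]
  rw [← LinearMap.sum_apply, ← map_sum, ← sm_mulVec, (mem_Vm.1 hx).2, map_zero,
    LinearMap.zero_apply]

variable (h : Str ℓ B) (hY : Env Y ≤ B) (hτ : τ ∈ Y)
include h hY hτ

theorem inv_trace (ht : (t : ZMod p) ≠ 0) (hw : θ ∈ Tr ℓ B) (e : pull1 τ.1 θ = θ)
    {x : Fin 3 → Vec p n} (hx : ∀ j, x j ∈ Vm τ t (Vb ℓ (a j))) : ev θ x = 0 := by
  obtain ⟨κ, a1, a2⟩ := trc_of_tr (a := a) h hw
  have m : ∀ i : ℕ, (τ ^ i).1 ∈ B := fun i => hY (env_mem (Y.pow_mem hτ i))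
  refine (mul_eq_zero.1 ((sum_ev e t _).symm.trans ?_)).resolve_left ht
  rw [Finset.sum_congr rfl fun i _ => a2 _ fun j => (h.alg.dg _ (m i)).mulVec_mem (hx j).1,
    Finset.sum_comm]
  refine Finset.sum_eq_zero fun j _ => ?_
  simp only [fun i => evP_inv (a1 j ((τ ^ i).1 *ᵥ x j)).1 (m i)]
  rw [← LinearMap.sum_apply, ← LinearMap.sum_apply, ← map_sum, ← map_sum, ← sm_mulVec,
    (mem_Vm.1 (hx j)).2, map_zero, map_zero, LinearMap.zero_apply, LinearMap.zero_apply]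

theorem mmm (hT : Tz Z τ t k) (hZ : Z ≤ Y) (hθ : θ ∈ Wt ℓ (key ℓ a)) (e : pull1 τ.1 θ = θ)
    (hi : ∀ z ∈ Z, pull1 z.1 θ - θ ∈ Tr ℓ B) {x : Fin 3 → Vec p n} (hx : ∀ j, x j ∈ Vm τ t ⊤) :
    ev θ x = 0 := by
  refine hT.inv3 θ (fun z hz x hx => ?_) x hx
  have zb := hY (env_mem (hZ hz))
  rw [← ev_pull1, ← sub_eq_zero, ← ev_sub,
    ev_Wt h.lab (sub_mem (pull1_mem_Wt h.lab (h.alg.dg _ zb) hθ) hθ)]
  refine inv_trace (a := a) h hY hτ hT.ne (hi z hz) ?_ fun j => mem_Vm.2 ⟨pr_mulVec_mem _ _, ?_⟩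
  · rw [map_sub, e, ← pull1_mul, ← val_mul, hT.cen z hz, val_mul, pull1_mul, e]
  · rw [← com_mulVec (com_pr h.alg _) (sm_mem hY hτ t), (mem_Vm.1 (hx j)).2, Matrix.mulVec_zero]

theorem kern1 (hT : Tz Z τ t k) (hZ : Z ≤ Y) (hi : ∀ z ∈ Z, pull1 z.1 θ - θ ∈ Tr ℓ B) :
    ∃ K ≤ Ep (mv τ.1) (Vb ℓ (a 1)), 200 * finrank (ZMod p) (Ep (mv τ.1) (Vb ℓ (a 1))) ≤
      200 * finrank (ZMod p) K + finrank (ZMod p) (Vm τ t (Vb ℓ (a 0))) ∧
      ∀ x ∈ Vm τ t (Vb ℓ (a 0)), ∀ w ∈ K, ∀ y ∈ Vm τ t (Vb ℓ (a 2)), ev θ ![x, w, y] = 0 := by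
  have zb : Env Z ≤ B := (env_mono hZ).trans hY
  have iv := inv_form evP (ev θ) (fun j => Vb ℓ (a j))
    ![Vm τ t (Vb ℓ (a 0)), Ep (mv τ.1) (Vb ℓ (a 1)), Vm τ t (Vb ℓ (a 2))] (EE ℓ B a)
    (Z : Set (GG p n)) (fun g x => g.1 *ᵥ x) (fun a b x => (Matrix.mulVec_mulVec _ _ _).symm)
    hT.pp (fun j => by fin_cases j <;> exact inf_le_left) (fun z hz j x hx => by
      fin_cases j
      · exact inv_vm hT.cen (inv_Vb h zb _) _ (env_mem hz) x hx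
      · rw [hT.fix z hz x (ep_fix x hx)]; exact hx
      · exact inv_vm hT.cen (inv_Vb h zb _) _ (env_mem hz) x hx) 1
    (fun z hz x hx => hT.fix z hz x (ep_fix x hx))
    (fun z hz C hC x y => evP_inv hC.1 (zb (env_mem hz)) x y) (fun j hj C hC x hx y hy => by
      fin_cases j
      · exact opp hY hτ hT.ne hC.1 (Or.inl ⟨ep_fix x hx, vm_top hy⟩)
      · exact absurd rfl hj
      · exact opp hY hτ hT.ne hC.1 (Or.inr ⟨vm_top hx, ep_fix y hy⟩)) fun z hz => by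
      simpa only [← ev_pull1, ← ev_sub] using trc_of_tr h (hi z hz)
  obtain ⟨K, a1, a2, a3⟩ := hT.kern (inv_vm hT.cen (inv_Vb h zb (a 0))) (fun _ => vm_top)
    (mp τ t * pr ℓ (a 2)) (fun z hz => by
      rw [mul_assoc, com_pr h.alg _ _ (zb (env_mem hz)), ← mul_assoc, ← mul_assoc,
        mp_comm (hT.cen z hz)])
    (cur θ) (Ep (mv τ.1) (Vb ℓ (a 1))) fun z hz w hw x hx y => by
      rw [cur_apply, cur_apply, ← iv z hz ![x, w, (mp τ t * pr ℓ (a 2)) *ᵥ y] fun j => by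
        fin_cases j
        exacts [hx, hw, Matrix.mulVec_mulVec y (mp τ t) (pr ℓ (a 2)) ▸
          hT.proj h hY hτ (pr_mulVec_mem _ _)]]
      congr 1
      funext j
      fin_cases j
      exacts [rfl, (hT.fix z hz w (ep_fix w hw)).symm, rfl]
  refine ⟨K, a1, a2, fun x hx w hw y hy => ?_⟩
  have := a3 w hw x hx y
  rwa [← Matrix.mulVec_mulVec, mem_Vb_iff.1 hy.1, mp_of_vm hy, cur_apply] at this

omit hY in
theorem lt3 (hY : Env Y = B) (hθ : θ ∈ Wt ℓ (key ℓ a)) (hi : ∀ y ∈ Y, pull1 y.1 θ - θ ∈ Tr ℓ B)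
    (hn : ∀ j, ¬ Triv ℓ B (a j)) (hm : ∀ j, nb ℓ (a 0) ≤ nb ℓ (a j)) (hT : Tz Z τ t k)
    (hZ : Z ≤ Y) (hτθ : pull1 τ.1 θ = θ) {x : Vec p n} (hx : x ∈ Vb ℓ (a 0))
    (x0 : τ.1 *ᵥ x ≠ x) : θ ∈ Tr ℓ B := by
  have zb : Env Z ≤ B := hY ▸ env_mono hZ
  have iv := fun b => inv_vm (t := t) hT.cen (inv_Vb h zb b)
  have tc : ∀ y ∈ Y, Trc evP (EE ℓ B a) (fun j => Vb ℓ (a j))
      fun x => evM θ (fun j => y.1 *ᵥ x j) - evM θ x := fun y hy => by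
    simpa only [evM_apply, ← ev_pull1, ← ev_sub] using trc_of_tr h (hi y hy)
  let Γ : Set (Fin 3 → Vec p n ≃ₗ[ZMod p] Vec p n) := (fun y _ => eqv y) '' Y
  have hΓ : ∀ g ∈ Γ, Pres evP (EE ℓ B a) (fun j => Vb ℓ (a j)) (evM θ) g := by
    rintro _ ⟨y, hy, rfl⟩
    refine ⟨fun j x hx => ?_, fun j => ⟨LinearEquiv.refl _ _, fun C x _ z _ => ?_⟩, ?_⟩
    · rw [eqv_apply]; exact inv_Vb h hY.le _ _ (env_mem hy) x hx
    · rw [eqv_apply, eqv_apply, evP_inv C.2.1 (hY.le (env_mem hy))]; rfl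
    · simpa only [eqv_apply] using tc y hy
  have hirr : ∀ j W, W ≤ Vb ℓ (a j) → (∀ g ∈ Γ, ∀ x ∈ W, g j x ∈ W) →
      W = ⊥ ∨ W = Vb ℓ (a j) := fun j W h1 h2 => or_iff_not_imp_left.2 fun h0 => by
    obtain ⟨u, hu, u0⟩ := Submodule.exists_mem_ne_zero_of_ne_bot h0
    refine le_antisymm h1 fun v hv => ?_
    obtain ⟨b, hb, rfl⟩ := h.sim _ u (h1 hu) u0 v hv
    exact inv_env (fun y hy w hw => eqv_apply y w ▸ h2 _ ⟨y, hy, rfl⟩ w hw) b (hY.ge hb) u hu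
  have A0 := hT.ne_bot h hY.le hτ hx x0
  have rv : ∀ b c, finrank (ZMod p) (Cb ℓ B b.rev c) = finrank (ZMod p) (Cb ℓ B c.rev b) :=
    fun b c => by rw [← finrank_cb_rev h, Fin.rev_rev]
  refine tr_of_trc h hn hθ ?_
  rw [show ev θ = evM θ from funext fun x => (evM_apply θ x).symm]
  by_cases hc : Vm τ t (Vb ℓ (a 1)) = ⊥ ∧ Vm τ t (Vb ℓ (a 2)) = ⊥
  · have ep : ∀ b, Vm τ t (Vb ℓ b) = ⊥ → ∀ u ∈ Vb ℓ b, τ.1 *ᵥ u = u := fun b e u hu => by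
      by_contra u0
      exact hT.ne_bot h hY.le hτ hu u0 e
    obtain ⟨u, hu, u0⟩ := Submodule.exists_mem_ne_zero_of_ne_bot A0
    have cz : ∀ b, Vm τ t (Vb ℓ b) = ⊥ → Cb ℓ B b.rev (a 0) = ⊥ := fun b e =>
      eq_bot_iff.2 fun C hC => cb_inj h hC hu.1 u0 (eq_zero_of_ip h.lab (cb_mulVec_mem hC u)
        fun y hy => (evP_apply C u y).symm.trans
          (opp hY.le hτ hT.ne hC.1 (Or.inr ⟨vm_top hu, ep b e y hy⟩)))
    have d0 := direct evP (evM θ) (fun j => Vb ℓ (a j)) (EE ℓ B a) Γ hΓ (hirr 0)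
      (EE1.trans (Submodule.finrank_eq_zero.1
        ((rv _ _).trans (Submodule.finrank_eq_zero.2 (cz _ hc.2))))) (EE2.trans (cz _ hc.1))
    refine d0 fun e => u0 ?_
    exact e.le ⟨hu.1, 0, zero_mem _, fun y hy z hz => by
      rw [evM_apply, mpp hT.ne hτθ (vm_top hu) (ep _ hc.1 y hy) (ep _ hc.2 z hz)]; simp⟩
  obtain ⟨K1, b1, b2, b3⟩ := kern1 (a := a) h hY.le hτ hT hZ fun z hz => hi z (hZ hz)
  have sw : Function.Bijective (![0, 2, 1] : Fin 3 → Fin 3) := by decide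
  obtain ⟨K2, c1, c2, c3⟩ := kern1 (a := ![a 0, a 2, a 1]) (θ := perm ![0, 2, 1] θ) h hY.le hτ hT hZ
    fun z hz => by
      rw [pull1_perm sw, ← map_sub]
      exact perm_mem_Tr h sw (hi z (hZ hz))
  have a3 := hT.rk h hY.le hτ b1
  have a4 := hT.rk h hY.le hτ c1
  have a5 : Vm τ t (Vb ℓ (a 0)) ≤ Dm evP (evM θ) (EE ℓ B a 0) (K1 ⊔ Vm τ t (Vb ℓ (a 1)))
      (K2 ⊔ Vm τ t (Vb ℓ (a 2))) := fun x hx => ⟨0, zero_mem _, fun y hy z hz => by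
    obtain ⟨y1, hy1, y2, hy2, rfl⟩ := Submodule.mem_sup.1 hy
    obtain ⟨w1, hw1, w2, hw2, rfl⟩ := Submodule.mem_sup.1 hz
    have s1 := mpp hT.ne hτθ (vm_top hx) (ep_fix _ (b1 hy1)) (ep_fix _ (c1 hw1))
    have s2 := b3 x hx y1 hy1 w2 hw2
    have s3 : ev θ ![x, y2, w1] = 0 := by
      rw [← c3 x hx w1 hw1 y2 hy2, ev_perm sw]
      congr 1
      funext j
      fin_cases j <;> rfl
    have s4 : ev θ ![x, y2, w2] = 0 := mmm h hY.le hτ hT hZ hθ hτθ (fun z hz => hi z (hZ hz))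
      fun j => by
        fin_cases j
        exacts [vm_top hx, vm_top hy2, vm_top hw2]
    rw [← cur_apply] at s1 s2 s3 s4
    rw [evM_apply, ← cur_apply]
    simp only [map_add, LinearMap.add_apply, s1, s2, s3, s4, map_zero, LinearMap.zero_apply,
      add_zero]⟩
  have cb := hT.cb h zb (iv (a 0)) (fun _ => vm_top) A0 inf_le_left
  have e1 := cb (a 2).rev
  rw [rv] at e1
  have e2 := cb (a 1).rev
  have al : finrank (ZMod p) (Vm τ t (Vb ℓ (a 0))) ≤ finrank (ZMod p) (Vb ℓ (a 0) : VS p n) :=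
    Submodule.finrank_mono inf_le_left
  have m1 := hm 1
  have m2 := hm 2
  rw [← finrank_Vb (p := p), ← finrank_Vb (p := p)] at m1 m2
  have e0 : 200 * finrank (ZMod p) (Cb ℓ B (a 2).rev (a 1)) ≤
      finrank (ZMod p) (Vm τ t (Vb ℓ (a 0))) := by
    obtain ⟨N0, n1, -, -, n2⟩ := hT.sub (iv (a 0)) (fun _ => vm_top) A0
    have key : ∀ b c, Vm τ t (Vb ℓ b) ≠ ⊥ → 200 * finrank (ZMod p) (Cb ℓ B c b) ≤
        finrank (ZMod p) (Vm τ t (Vb ℓ (a 0))) := fun b c e => by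
      obtain ⟨N, d1, d2, d3, d4⟩ := hT.sub (iv b) (fun _ => vm_top) e
      exact (hT.cb h zb d2 (fun u hu => vm_top (d1 hu)) d3 (d1.trans inf_le_left) c).trans
        ((d4.trans n2.symm).trans_le (Submodule.finrank_mono n1))
    rcases not_and_or.1 hc with e | e
    · exact key _ _ e
    · rw [rv]; exact key _ _ e
  have num : ∀ A e m u k q : ℕ, 200 * q ≤ 200 * k + A → m + k ≤ u + q → 200 * e ≤ A →
      32 * (m + e) ≤ 32 * u + A := fun _ _ _ _ _ _ _ _ _ => by omega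
  have mul : ∀ g ∈ Γ, ∀ g' ∈ Γ, g * g' ∈ Γ := by
    rintro _ ⟨y, hy, rfl⟩ _ ⟨z, hz, rfl⟩
    exact ⟨y * z, Y.mul_mem hy hz, funext fun _ => LinearEquiv.ext fun x => by
      simp [eqv_apply]⟩
  have big : ∀ j, 40 * finrank (ZMod p) (EE ℓ B a j) ≤ finrank (ZMod p) (Vb ℓ (a j) : VS p n) := by
    intro j
    obtain rfl | rfl | rfl : j = 0 ∨ j = 1 ∨ j = 2 := by revert j; decide
    · rw [EE0]; omega
    · rw [EE1]; omega
    · rw [EE2]; omega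
  have f0 := compress2 (evP (p := p) (n := n)) (evM θ) (fun j => Vb ℓ (a j)) (EE ℓ B a) Γ
    ⟨_, 1, Y.one_mem, rfl⟩ mul hΓ hirr big (Vm τ t (Vb ℓ (a 0))) (K1 ⊔ Vm τ t (Vb ℓ (a 1)))
    (K2 ⊔ Vm τ t (Vb ℓ (a 2))) inf_le_left (sup_le (b1.trans inf_le_left) inf_le_left)
    (sup_le (c1.trans inf_le_left) inf_le_left) a5
    (Nat.pos_of_ne_zero fun e => A0 (Submodule.finrank_eq_zero.1 e)) m1 m2
    (num _ _ _ _ _ _ b2 a3 e1) (num _ _ _ _ _ _ c2 a4 e2)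
  exact f0

omit hY in
theorem lt4 (hY : Env Y = B) (hθ : θ ∈ Wt ℓ (key ℓ a)) (hi : ∀ y ∈ Y, pull1 y.1 θ - θ ∈ Tr ℓ B)
    (hn : ∀ j, ¬ Triv ℓ B (a j)) (hm : ∀ j, nb ℓ (a 0) ≤ nb ℓ (a j)) (hT : Tz Z τ t k)
    (hZ : Z ≤ Y) {x : Vec p n} (hx : x ∈ Vb ℓ (a 0)) (x0 : τ.1 *ᵥ x ≠ x) : θ ∈ Tr ℓ B := by
  have m : ∀ y ∈ Y, y.1 ∈ B := fun y hy => hY.le (env_mem hy)
  set η := ∑ i ∈ Finset.range t, pull1 (τ ^ i).1 θ with hη
  have d : η - (t : ZMod p) • θ ∈ Tr ℓ B := by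
    have := Submodule.sum_mem _ fun i (_ : i ∈ Finset.range t) => hi _ (Y.pow_mem hτ i)
    rwa [Finset.sum_sub_distrib, Finset.sum_const, Finset.card_range,
      ← Nat.cast_smul_eq_nsmul (ZMod p)] at this
  have e := lt3 h hτ hY (θ := η) (Submodule.sum_mem _ fun i _ =>
    pull1_mem_Wt h.lab (h.alg.dg _ (m _ (Y.pow_mem hτ i))) hθ) (fun y hy => by
      have := add_mem (sub_mem (pull1_mem_Tr (m y hy) y.2.2.1 d) d)
        (Submodule.smul_mem _ (t : ZMod p) (hi y hy))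
      convert this using 1
      rw [map_sub, map_smul, smul_sub]
      abel) hn hm hT hZ (by
      rw [hη, map_sum, ← sum_shift hT.pow fun g => pull1 g.1 θ]
      exact Finset.sum_congr rfl fun i _ => by rw [pow_succ, val_mul, pull1_mul]) hx x0
  exact (Submodule.smul_mem_iff _ hT.ne).1 (by simpa using sub_mem e d)

omit hY hτ in
/-- Lemma T -/
theorem lt (hY : Env Y = B) (hθ : θ ∈ Wt ℓ (key ℓ a)) (hi : ∀ y ∈ Y, pull1 y.1 θ - θ ∈ Tr ℓ B)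
    (hn : ∀ j, ¬ Triv ℓ B (a j))
    (hz : ∀ j, ∃ Z ≤ Y, ∃ τ ∈ Y, ∃ t k, Tz Z τ t k ∧ ∃ x ∈ Vb ℓ (a j), τ.1 *ᵥ x ≠ x) :
    θ ∈ Tr ℓ B := by
  obtain ⟨m, -, hm⟩ := Finset.exists_min_image Finset.univ (fun j => nb ℓ (a j)) ⟨0, by simp⟩
  obtain ⟨Z, hZ, τ, hτ, t, k, hT, x, hx, x0⟩ := hz m
  have b1 : Function.Bijective fun j : Fin 3 => j - m := (Equiv.subRight m).bijective
  have b2 : Function.Bijective fun j : Fin 3 => j + m := (Equiv.addRight m).bijective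
  have := perm_mem_Tr h b2 (lt4 (a := fun j => a (j + m)) (θ := perm (fun j => j - m) θ) h hτ hY
    (perm_mem_Wt h.lab b1 (by simpa using hθ)) (fun y hy => by
      rw [pull1_perm b1, ← map_sub]
      exact perm_mem_Tr h b1 (hi y hy)) (fun j => hn _)
    (fun j => by simpa using hm (j + m) (by simp)) hT hZ (by simpa using hx) x0)
  rwa [perm_perm, show ((fun j : Fin 3 => j + m) ∘ fun j => j - m) = id from
    funext fun j => sub_add_cancel j m] at this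

omit hY in
/-- blocks on which `τ` acts are large -/
theorem Tz.big (hT : Tz Z τ t k) (hY : Env Y ≤ B) (hZ : Z ≤ Y) {b : Ix n} {x : Vec p n}
    (hx : x ∈ Vb ℓ b) (x0 : τ.1 *ᵥ x ≠ x) : 200 ≤ db ℓ B b := by
  have zb : Env Z ≤ B := (env_mono hZ).trans hY
  have a1 := hT.cb h zb (inv_vm hT.cen (inv_Vb h zb b)) (fun _ => vm_top)
    (hT.ne_bot h hY hτ hx x0) inf_le_left b
  have a2 : finrank (ZMod p) (Vm τ t (Vb ℓ b)) ≤ nb ℓ b :=
    (Submodule.finrank_mono inf_le_left).trans_eq (finrank_Vb b)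
  rw [db, Nat.le_div_iff_mul_le (eb_pos h.alg b), eb]
  omega

end Pool.Agent.P.MP_f1a348_lc.LT2
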