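import Pool.Agent.P.MP_f1a348_lc.LT.Fm
import Pool.Agent.P.MP_f1a348_lc.CE.TGL0

/-!
Lemma T in every characteristic: large singular frames exist.
-/

namespace Pool.Agent.P.MP_f1a348_lc.LT2

open Matrix Module Pool.Agent.P.MP_f1a348_lc.PG Pool.Agent.P.MP_f1a348_lc.UP
  Pool.Agent.P.MP_f1a348_lc.CE

set_option linter.unusedSectionVars false

variable {p n : ℕ} [Fact p.Prime] {ℓ : Ix n → ℕ} {B : Sub p n} {Q : QS p n} {β : Ix n}
  {a b : Mat p n} {y : Vec p n} {W W' : VS p n} {k : ℕ}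

/-- small totally singular subspaces in the class of `β` -/
def Tot (ℓ : Ix n → ℕ) (B : Sub p n) (Q : QS p n) (β : Ix n) (k : ℕ) (W : VS p n) : Prop :=
  Small ℓ B k W ∧ ∀ w ∈ W, Sing Q w ∧ w ∈ perp W ∧ ec ℓ B β *ᵥ w = w

theorem Tot.sup (G : Geo ℓ B Q) (h : Tot ℓ B Q β k W) (hy : y ∈ Vb ℓ β) (hs : Sing Q y)
    (hp : y ∈ perp W) : Tot ℓ B Q β (k + 1) (W ⊔ orb (Com B) y) := by
  classical
  have A := G.str.alg
  refine ⟨h.1.sup A (small_orb G.str hy), fun u hu => ?_⟩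
  obtain ⟨w, hw, v, hv, rfl⟩ := Submodule.mem_sup.1 hu
  have e := orb_le_perp A h.1.1 hp hv
  refine ⟨(h.2 w hw).1.add G.adm (hs.of_orb G.adm hv) (perp_anti (h.1.1.orb_le hw) e),
    mem_perp_sup.2 ⟨add_mem (h.2 w hw).2.1 e,
      add_mem (perp_of_perp A h.1.1 hp hw) (hs.orb_le G hv)⟩, ?_⟩
  rw [mulVec_add, (h.2 w hw).2.2, fx_orb (g := ec ℓ B β) (diagonal_mem G.str fun α γ c =>
    if_congr (not_iff_not.1 ⟨fun t => cb_trans G.str t c,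
      fun t => cb_trans G.str t (cb_symm G.str c)⟩) rfl rfl) (funext fun γ => ?_) v hv]
  rw [ec, mulVec_diagonal]
  split_ifs with c
  · rw [zero_mul, hy γ fun e => cb_refl A β (Cb_congr rfl e ▸ c)]
  · rw [one_mul]

theorem hp1 (hCW : C_CW p n) (hHP : C_HP p n) (G : Geo ℓ B Q) (t : ¬ Triv ℓ B β)
    (h : Tot ℓ B Q β k W) (h' : Tot ℓ B Q β.rev k W') (hd : 4 * k + 3 ≤ db ℓ B β) :
    ∃ y x ρ, y ∈ Vb ℓ β ∧ y ∉ W ∧ orb (Com B) y ≤ perp W' ∧ ρ ∈ B ∧ ρ *ᵥ y = y ∧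
      (∀ v, ρ *ᵥ v ∈ orb (Com B) y ∧ st ρ *ᵥ v ∈ orb (Com B) x) ∧ (∀ w ∈ W, ρ *ᵥ w = 0) ∧
      Tot ℓ B Q β (k + 1) (W ⊔ orb (Com B) y) ∧ Tot ℓ B Q β.rev (k + 1) (W' ⊔ orb (Com B) x) := by
  have s := h.1.sup G.str.alg h'.1
  obtain ⟨y, a1, a2⟩ := hCW ℓ B Q _ ⊥ 0 β G s.1 small_bot t (TGL0.rm_small G.str s (by omega))
  rw [sup_bot_eq] at a2
  obtain ⟨x, ρ, b1, -, b2, -, b3, -, b4, -, -, b5⟩ := hHP ℓ B Q _ β y G s.1 a1 a2
  exact ⟨y, x, ρ, a1.mem, fun e => a2 (Submodule.mem_sup_left e),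
    orb_le_perp G.str.alg h'.1.1 (mem_perp_sup.1 a1.prp).2, b2, b3, b4,
    fun w hw => (b5 w (Submodule.mem_sup_left hw)).1,
    h.sup G a1.mem a1.sing (mem_perp_sup.1 a1.prp).1,
    h'.sup G b1.mem b1.sing (mem_perp_sup.1 b1.prp).2⟩

/-- partial data of a frame -/
structure Pf (ℓ : Ix n → ℕ) (B : Sub p n) (Q : QS p n) (β : Ix n) (r : ℕ) (a b : Mat p n)
    (W W' : VS p n) : Prop where
  ma : a ∈ B
  mb : b ∈ B
  aa : a * a = 0
  bb : b * b = 0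
  aba : a * b * a = a
  bab : b * a * b = b
  ims : ∀ x, x = a ∨ x = b → ∀ v, x *ᵥ v ∈ W ∧ st x *ᵥ v ∈ W'
  tp : Tot ℓ B Q β (2 * r) W
  tm : Tot ℓ B Q β.rev (2 * r) W'
  dim : r * eb ℓ B β ≤ finrank (ZMod p) (im (b * a) ⊓ Vb ℓ β : VS p n)

theorem mul_zero_of {x z : Mat p n} (h : ∀ v, z *ᵥ v ∈ W) (h' : ∀ w ∈ W, x *ᵥ w = 0) : x * z = 0 :=
  mat_ext fun v => by rw [← mulVec_mulVec, h' _ (h v), zero_mulVec]

theorem Pf.step (hCW : C_CW p n) (hHP : C_HP p n) (G : Geo ℓ B Q) (t : ¬ Triv ℓ B β)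
    (h : Pf ℓ B Q β k a b W W') (hd : 8 * k + 7 ≤ db ℓ B β) :
    ∃ a b W W', Pf ℓ B Q β (k + 1) a b W W' := by
  have A := G.str.alg
  obtain ⟨y, x, ρ, a1, a2, a3, a4, a5, a6, a7, a8, a9⟩ := hp1 hCW hHP G t h.tp h.tm (by omega)
  obtain ⟨y', x', ρ', b1, b2, b3, b4, b5, b6, b7, b8, b9⟩ := hp1 hCW hHP G t a8 a9 (by omega)
  obtain ⟨c, hc, ec⟩ := G.str.sim β y a1 (fun e => a2 (e ▸ zero_mem _)) y' b1
  obtain ⟨d, hd, ed⟩ := G.str.sim β y' b1 (fun e => b2 (e ▸ zero_mem _)) y a1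
  have m1 := A.mul _ hc _ a4
  have m2 := A.mul _ hd _ b4
  have c1 : (c * ρ) *ᵥ y = y' := by rw [← mulVec_mulVec, a5, ec]
  have c2 : (d * ρ') *ᵥ y' = y := by rw [← mulVec_mulVec, b5, ed]
  have i1 : ∀ v, (c * ρ) *ᵥ v ∈ orb (Com B) y' := fun v => by
    rw [← mulVec_mulVec, ← ec]; exact orb_map hc (a6 v).1
  have i2 : ∀ v, (d * ρ') *ᵥ v ∈ orb (Com B) y := fun v => by
    rw [← mulVec_mulVec, ← ed]; exact orb_map hd (b6 v).1
  have j1 : ∀ v, st (c * ρ) *ᵥ v ∈ orb (Com B) x := fun v => by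
    rw [st_mul, ← mulVec_mulVec]; exact (a6 _).2
  have j2 : ∀ v, st (d * ρ') *ᵥ v ∈ orb (Com B) x' := fun v => by
    rw [st_mul, ← mulVec_mulVec]; exact (b6 _).2
  have k1 : ∀ w ∈ W, (c * ρ) *ᵥ w = 0 := fun w hw => by rw [← mulVec_mulVec, a7 w hw, mulVec_zero]
  have k2 : ∀ w ∈ W ⊔ orb (Com B) y, (d * ρ') *ᵥ w = 0 := fun w hw => by
    rw [← mulVec_mulVec, b7 w hw, mulVec_zero]
  generalize c * ρ = a' at *
  generalize d * ρ' = b' at *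
  have z : ∀ x, x = a ∨ x = b → x * a' = 0 ∧ x * b' = 0 ∧ a' * x = 0 ∧ b' * x = 0 := fun x hx =>
    ⟨mul_zero_of i1 fun w hw => kill_of_ims (fun v => (h.ims x hx v).2)
      (mem_perp_sup.1 (b3 hw)).1,
    mul_zero_of i2 fun w hw => kill_of_ims (fun v => (h.ims x hx v).2) (a3 hw),
    mul_zero_of (fun v => (h.ims x hx v).1) k1,
    mul_zero_of (fun v => (h.ims x hx v).1) fun w hw => k2 w (Submodule.mem_sup_left hw)⟩
  obtain ⟨z1, z2, z3, z4⟩ := z a (Or.inl rfl)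
  obtain ⟨z5, z6, z7, z8⟩ := z b (Or.inr rfl)
  have e1 : a' * a' = 0 := mul_zero_of i1 fun w hw => kill_of_ims j1 (mem_perp_sup.1 (b3 hw)).2
  have e2 : b' * b' = 0 := mul_zero_of i2 fun w hw => k2 w (Submodule.mem_sup_right hw)
  have e3 : a' * b' * a' = a' := mat_ext fun v => by
    rw [← mulVec_mulVec, fx_orb (A.mul _ m1 _ m2) (by rw [← mulVec_mulVec, c2, c1]) _ (i1 v)]
  have e4 : b' * a' * b' = b' := mat_ext fun v => by
    rw [← mulVec_mulVec, fx_orb (A.mul _ m2 _ m1) (by rw [← mulVec_mulVec, c1, c2]) _ (i2 v)]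
  have e5 : (b + b') * (a + a') = b * a + b' * a' := by simp [mul_add, add_mul, z4, z5]
  have mq := A.mul _ h.mb _ h.ma
  refine ⟨a + a', b + b', _, _, add_mem h.ma m1, add_mem h.mb m2,
    by simp [mul_add, add_mul, h.aa, e1, z1, z3], by simp [mul_add, add_mul, h.bb, e2, z6, z8],
    by simp [mul_add, add_mul, h.aba, e3, z2, z7, mul_assoc a b a', mul_assoc a' b' a, z4, z5],
    by simp [mul_add, add_mul, h.bab, e4, z2, z7, mul_assoc b a b', mul_assoc b' a' b, z4, z5],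
    ?_, b8, b9, ?_⟩
  · rintro _ (rfl | rfl) v <;> rw [st_add, add_mulVec, add_mulVec]
    · exact ⟨Submodule.add_mem_sup (Submodule.mem_sup_left (h.ims _ (Or.inl rfl) v).1) (i1 v),
        Submodule.mem_sup_left (Submodule.add_mem_sup (h.ims _ (Or.inl rfl) v).2 (j1 v))⟩
    · exact ⟨Submodule.mem_sup_left (Submodule.add_mem_sup (h.ims _ (Or.inr rfl) v).1 (i2 v)),
        Submodule.add_mem_sup (Submodule.mem_sup_left (h.ims _ (Or.inr rfl) v).2) (j2 v)⟩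
  · have d1 := finrank_sup_orb G.str (stab_im mq) a1 (by
      rintro ⟨v, e⟩
      rw [mulVecLin_apply, ← mulVec_mulVec] at e
      exact a2 (e ▸ (h.ims b (Or.inr rfl) _).1))
    have d2 : im (b * a) ⊔ orb (Com B) y ≤ im ((b + b') * (a + a')) := sup_le (by
      rintro _ ⟨v, rfl⟩
      exact ⟨(b * a) *ᵥ v, by
        rw [mulVecLin_apply, mulVecLin_apply, mulVec_mulVec, e5, add_mul, ← mul_assoc, h.bab,
          ← mul_assoc, mul_assoc b', z7, mul_zero, zero_mul, add_zero]⟩)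
      ((stab_im (A.mul _ (add_mem h.mb m2) _ (add_mem h.ma m1))).orb_le ⟨y, by
        rw [mulVecLin_apply, e5, add_mulVec, ← mulVec_mulVec, ← mulVec_mulVec, c1, c2,
          kill_of_ims (fun v => (h.ims a (Or.inl rfl) v).2) (a3 (self_mem_orb y)), mulVec_zero,
          zero_add]⟩)
    have d3 := Submodule.finrank_mono (inf_le_inf_right (Vb ℓ β) d2)
    have := h.dim
    rw [add_mul]
    omega

theorem tz0 (hCW : C_CW p n) (hHP : C_HP p n) (G : Geo ℓ B Q) (t : ¬ Triv ℓ B β)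
    (hg : 20000 * (2 * n + 1) * eb ℓ B β < nb ℓ β ^ 2) (hb : 200 ≤ db ℓ B β) :
    ∃ a b, Fm ℓ B β a b ∧ ∀ m ∈ B, In a b m → m * m = 0 → Sieg B Q m := by
  have ind : ∀ k, k ≤ db ℓ B β / 10 + 1 → ∃ a b W W', Pf ℓ B Q β k a b W W' := fun k => by
    induction k with
    | zero =>
      have z : ∀ β, Tot ℓ B Q β 0 ⊥ := fun β => ⟨small_bot, fun w hw => by
        rw [(Submodule.mem_bot _).1 hw]; exact ⟨Sing.zero G.adm, zero_mem _, mulVec_zero _⟩⟩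
      exact fun _ => ⟨0, 0, ⊥, ⊥, zero_mem _, zero_mem _, by simp, by simp, by simp, by simp,
        by rintro _ (rfl | rfl) <;> simp, z _, z _, by simp⟩
    | succ k ih =>
      intro hk
      obtain ⟨a, b, W, W', h⟩ := ih (by omega)
      exact h.step hCW hHP G t (by omega)
  obtain ⟨a, b, W, W', h⟩ := ind _ le_rfl
  have o : ∀ x y : Mat p n, (∀ v, x *ᵥ v ∈ W ∧ st x *ᵥ v ∈ W') →
      (∀ v, y *ᵥ v ∈ W ∧ st y *ᵥ v ∈ W') → x * st y = 0 ∧ st x * y = 0 := fun x y hx hy =>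
    ⟨mul_zero_of (fun v => (hy v).2) fun w hw => kill_of_ims (fun v => (hx v).2) (h.tm.2 w hw).2.1,
      mul_zero_of (fun v => (hy v).1) fun w hw => kill_of_im (fun v => (hx v).1) (h.tp.2 w hw).2.1⟩
  have ia := h.ims a (Or.inl rfl)
  have ib := h.ims b (Or.inr rfl)
  refine ⟨a, b, ⟨G.str, h.ma, h.mb, h.aa, h.bb, h.aba, h.bab,
    fun x y hx hy => o x y (h.ims x hx) (h.ims y hy),
    mat_ext fun v => by rw [← mulVec_mulVec, (h.tp.2 _ (ib v).1).2.2],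
    mat_ext fun v => by rw [← mulVec_mulVec, (h.tm.2 _ (ia v).2).2.2], ?_⟩, fun m hm i q => ?_⟩
  · have h1 := h.dim
    have h2 := db_mul_eb G.str β
    have h3 : nb ℓ β ≤ 10 * finrank (ZMod p) (im (b * a) ⊓ Vb ℓ β : VS p n) := by
      have := Nat.mul_le_mul_right (eb ℓ B β) (show db ℓ B β ≤ 10 * (db ℓ B β / 10 + 1) by omega)
      nlinarith
    have := Nat.pow_le_pow_left h3 2
    nlinarith
  · have k : ∀ v, m *ᵥ v ∈ W ∧ st m *ᵥ v ∈ W' := fun v => ⟨by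
      rw [← i.1, ← mulVec_mulVec, add_mulVec, ← mulVec_mulVec, ← mulVec_mulVec _ b]
      exact add_mem (ia _).1 (ib _).1, by
      rw [← i.2, st_mul, ← mulVec_mulVec, st_add, st_mul, st_mul, add_mulVec, ← mulVec_mulVec,
        ← mulVec_mulVec _ (st a)]
      exact add_mem (ib _).2 (ia _).2⟩
    exact ⟨hm, q, (o m m k k).2, (o m m k k).1, fun v => (h.tp.2 _ (k v).1).1,
      fun v => (h.tm.2 _ (k v).2).1⟩

end Pool.Agent.P.MP_f1a348_lc.LT2
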