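import Pool.Agent.P.MP_f1a348_lc.LT.Fm
import Pool.Agent.P.MP_f1a348_lc.PG.TEBAS

/-!
Lemma T in every characteristic: simple sections of lifts of the corner; lifting in finite groups.
-/

namespace Pool.Agent.P.MP_f1a348_lc.LT2

open Matrix Module Pool.Agent.P.MP_f1a348_lc.PG Pool.Agent.P.MP_f1a348_lc.UP
  Pool.Agent.P.MP_f1a348_lc.UP.LT
open Pool.Agent.P.MP_f1a348_lc.CE (sgl orb_map)

set_option linter.unusedSectionVars false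

section grp
variable {Γ M : Type} [Group Γ] [Finite Γ] [Monoid M] {X : Subgroup Γ} {φ : Γ → M} {p t : ℕ}
  (h1 : φ 1 = 1) (hm : ∀ x ∈ X, ∀ y ∈ X, φ (x * y) = φ x * φ y)
include h1 hm

theorem hom_pow {x : Γ} (hx : x ∈ X) (k : ℕ) : φ (x ^ k) = φ x ^ k := by
  induction k with
  | zero => rw [pow_zero, pow_zero, h1]
  | succ k ih => rw [pow_succ, pow_succ, hm _ (X.pow_mem hx k) _ hx, ih]

theorem lift_perf (p : ℕ) (S : Set M) (h : ∀ z ∈ S, ∃ x ∈ X, φ x = z)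
    (hc : ∀ z ∈ S, ∃ y ∈ S, ∃ y' ∈ S, y * y' = z * y' * y) :
    ∃ Z ≤ X, PP p Z ∧ ∀ z ∈ S, ∃ x ∈ Z, φ x = z := by
  obtain ⟨Z, ⟨a1, a2⟩, hZ⟩ := (wellFounded_lt (α := Subgroup Γ)).has_min
    {Z | Z ≤ X ∧ ∀ z ∈ S, ∃ x ∈ Z, φ x = z} ⟨X, le_rfl, h⟩
  refine ⟨Z, a1, fun ψ hψ => ?_, a2⟩
  have e1 : ψ 1 = 0 := by simpa using hψ 1 Z.one_mem 1 Z.one_mem
  let K : Subgroup Γ := sg (fun x => x ∈ Z ∧ ψ x = 0) ⟨Z.one_mem, e1⟩ fun a b ha hb =>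
    ⟨Z.mul_mem ha.1 hb.1, by rw [hψ a ha.1 b hb.1, ha.2, hb.2, add_zero]⟩
  have le : K ≤ Z := fun x hx => hx.1
  refine fun x hx => ((le.eq_of_not_lt (hZ K ⟨le.trans a1, fun z hz => ?_⟩)).ge hx).2
  obtain ⟨_, b1, _, b2, e⟩ := hc z hz
  obtain ⟨x, hx, rfl⟩ := a2 _ b1
  obtain ⟨y, hy, rfl⟩ := a2 _ b2
  have ix := Z.inv_mem hx
  have iy := Z.inv_mem hy
  have m := Z.mul_mem hx hy
  refine ⟨x * y * x⁻¹ * y⁻¹, ⟨Z.mul_mem (Z.mul_mem m ix) iy, ?_⟩, ?_⟩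
  · have c1 := hψ _ hx _ ix
    have c2 := hψ _ hy _ iy
    rw [mul_inv_cancel, e1] at c1 c2
    rw [hψ _ (Z.mul_mem m ix) _ iy, hψ _ m _ ix, hψ _ hx _ hy]
    linear_combination -c1 - c2
  · rw [hm _ (a1 (Z.mul_mem m ix)) _ (a1 iy), hm _ (a1 m) _ (a1 ix), hm _ (a1 hx) _ (a1 hy), e,
      mul_assoc _ (φ x), ← hm _ (a1 hx) _ (a1 ix), mul_inv_cancel, h1, mul_one, mul_assoc,
      ← hm _ (a1 hy) _ (a1 iy), mul_inv_cancel, h1, mul_one]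

variable (hk : ∀ x ∈ X, φ x = 1 → ∃ k : ℕ, x ^ p ^ k = 1) (ht : t.Prime) (hp : p.Prime)
  (hn : t ≠ p)
include hk ht hp hn

theorem lift_ord {x : Γ} (hx : x ∈ X) (e : φ x ^ t = 1) : ∃ τ ∈ X, τ ^ t = 1 ∧ φ τ = φ x := by
  obtain ⟨k, e'⟩ := hk _ (X.pow_mem hx t) (by rw [hom_pow h1 hm hx, e])
  have h2 := ht.two_le
  refine ⟨x ^ p ^ (k * (t - 1)), X.pow_mem hx _, ?_, ?_⟩
  · obtain ⟨j, hj⟩ := pow_dvd_pow p (Nat.le_mul_of_pos_right k (by omega : 0 < t - 1))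
    rw [← pow_mul, mul_comm, pow_mul, hj, pow_mul, e', one_pow]
  · have := (Nat.ModEq.pow_totient ((Nat.coprime_primes hp ht).2 hn.symm)).pow k
    rw [Nat.totient_prime ht, one_pow, ← pow_mul, mul_comm] at this
    rw [hom_pow h1 hm hx, pow_eq_pow_mod _ e, this, Nat.mod_eq_of_lt ht.one_lt, pow_one]

theorem lift_cen {τ x : Γ} (hτ : τ ∈ X) (e : τ ^ t = 1) (hx : x ∈ X)
    (c : φ x * φ τ = φ τ * φ x) : ∃ y ∈ X, φ y = φ x ∧ y * τ = τ * y := by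
  classical
  let K : Subgroup Γ := sg (fun y => y ∈ X ∧ φ y = 1) ⟨X.one_mem, h1⟩ fun a b ha hb =>
    ⟨X.mul_mem ha.1 hb.1, by rw [hm a ha.1 b hb.1, ha.2, hb.2, one_mul]⟩
  have := Fact.mk ht
  have := Fact.mk hp
  obtain ⟨k, hK⟩ := IsPGroup.iff_card.1 (show IsPGroup p K from fun y =>
    let ⟨k, e⟩ := hk y.1 y.2.1 y.2.2
    ⟨k, Subtype.ext e⟩)
  have iv : ∀ y ∈ X, φ y⁻¹ * φ y = 1 := fun y hy => by
    rw [← hm _ (X.inv_mem hy) _ hy, inv_mul_cancel, h1]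
  let E : {y // y ∈ X ∧ φ y = φ x} ≃ K :=
    { toFun := fun y => ⟨x⁻¹ * y, X.mul_mem (X.inv_mem hx) y.2.1, by
        rw [hm _ (X.inv_mem hx) _ y.2.1, y.2.2, iv x hx]⟩
      invFun := fun y => ⟨x * y, X.mul_mem hx y.2.1, by rw [hm _ hx _ y.2.1, y.2.2, mul_one]⟩
      left_inv := fun y => Subtype.ext (mul_inv_cancel_left _ _)
      right_inv := fun y => Subtype.ext (inv_mul_cancel_left _ _) }
  let σ : Equiv.Perm {y // y ∈ X ∧ φ y = φ x} := Equiv.ofBijective (fun y => ⟨τ⁻¹ * (y * τ),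
    X.mul_mem (X.inv_mem hτ) (X.mul_mem y.2.1 hτ), by
      rw [hm _ (X.inv_mem hτ) _ (X.mul_mem y.2.1 hτ), hm _ y.2.1 _ hτ, y.2.2, c, ← mul_assoc,
        iv τ hτ, one_mul]⟩) (Finite.injective_iff_bijective.1 fun y z e =>
    Subtype.ext (by simpa using e))
  have pw : ∀ (k : ℕ) y, ((σ ^ k) y).1 = (τ ^ k)⁻¹ * (y * τ ^ k) := fun k y => by
    induction k with
    | zero => simp
    | succ k ih =>
      rw [pow_succ', Equiv.Perm.mul_apply, pow_succ, _root_.mul_inv_rev]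
      change τ⁻¹ * (((σ ^ k) y).1 * τ) = _
      simp only [ih, mul_assoc]
  have := Fintype.ofFinite {y // y ∈ X ∧ φ y = φ x}
  obtain ⟨y, hy⟩ := Equiv.Perm.exists_fixed_point_of_prime (p := t) (n := 1) (σ := σ) (by
    rw [← Nat.card_eq_fintype_card, Nat.card_congr E, hK]
    exact fun h => hn ((Nat.prime_dvd_prime_iff_eq ht hp).1 (ht.dvd_of_dvd_pow h))) (by
    ext y
    simp [pw, e])
  exact ⟨y.1, y.2.1, y.2.2, inv_mul_eq_iff_eq_mul.1 (congrArg Subtype.val hy)⟩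

end grp

variable {p n : ℕ} [Fact p.Prime] {ℓ : Ix n → ℕ} {B S J : Sub p n} {β : Ix n}
  {a b s : Mat p n} {u : Vec p n} {L U : VS p n} {φ : Mat p n →ₗ[ZMod p] Mat p n}

theorem ss_gen (h : SS S L U) (h1 : J ≤ S) (h2 : ∀ y ∈ S, ∀ j ∈ J, y * j ∈ J) (hu : u ∈ U)
    (hs : s ∈ J) (hn : s *ᵥ u ∉ L) : L ⊔ orb J u = U :=
  (h.max _ (fun y hy w hw => by
    obtain ⟨l, hl, _, ⟨j, hj, rfl⟩, rfl⟩ := Submodule.mem_sup.1 hw
    rw [mulVec_add, evx_apply, mulVec_mulVec]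
    exact Submodule.add_mem_sup (h.invL y hy l hl) ⟨_, h2 y hy j hj, rfl⟩) le_sup_left
    (sup_le h.lt.le (by rintro _ ⟨j, hj, rfl⟩; exact h.invU j (h1 hj) u hu))).resolve_left
    fun e => hn (e ▸ Submodule.mem_sup_right ⟨s, hs, rfl⟩)

/-- nil left ideals kill simple sections -/
theorem nil (h : SS S L U) (h1 : (1 : Mat p n) ∈ S) (h2 : ∀ x ∈ S, ∀ y ∈ S, x * y ∈ S) (hs : s ∈ S)
    (hn : ∀ y ∈ S, ∃ k, ∀ u ∈ U, (y * s) ^ k *ᵥ u = 0) : ∀ u ∈ U, s *ᵥ u ∈ L := fun u hu => by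
  by_contra e
  obtain ⟨l, hl, _, ⟨y, hy, rfl⟩, e1⟩ := Submodule.mem_sup.1 ((ss_gen h le_rfl h2
    (h.invU s hs u hu) h1 (by rwa [one_mulVec])).ge hu)
  obtain ⟨k, hk⟩ := hn y hy
  have : ∀ k, u - (y * s) ^ k *ᵥ u ∈ L := fun k => by
    induction k with
    | zero => simp
    | succ k ih =>
      have := add_mem (h.invL _ (h2 y hy s hs) _ ih) hl
      rw [mulVec_sub, mulVec_mulVec, ← pow_succ', sub_add_eq_add_sub, add_comm, ← mulVec_mulVec]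
        at this
      rwa [← evx_apply, e1] at this
  exact e (h.invL s hs u (by simpa [hk u hu] using this k))

theorem ebas (h : Str ℓ B) (hB : s ∈ B) (hs : s * s = s) (β : Ix n) :
    finrank (ZMod p) (B.map (crn ℓ s β)) * eb ℓ B β =
      finrank (ZMod p) (im s ⊓ Vb ℓ β : VS p n) ^ 2 := by
  have h1 := EBASx.main h hB hs β _ ⊥ stab_bot bot_le (Nat.le_add_left _ _)
  have h2 : EBASx.Kl (B.map (crn ℓ s β)) ⊥ = B.map (crn ℓ s β) :=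
    le_antisymm (fun _ hy => hy.1) fun y hy => ⟨hy, fun w hw => by
      rw [(Submodule.mem_bot _).1 hw, mulVec_zero]⟩
  rwa [h2, bot_inf_eq, finrank_bot, zero_mul, add_zero] at h1

/-- `φ` maps the algebra `S` to the centraliser of the frame and onto the corner -/
structure On (S : Sub p n) (φ : Mat p n →ₗ[ZMod p] Mat p n) (B : Sub p n) (a b : Mat p n) :
    Prop where
  mul : ∀ x ∈ S, ∀ y ∈ S, x * y ∈ S
  hom : ∀ x ∈ S, ∀ y ∈ S, φ (x * y) = φ x * φ y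
  mem : ∀ x ∈ S, φ x ∈ B
  ca : ∀ x ∈ S, φ x * a = a * φ x
  cb : ∀ x ∈ S, φ x * b = b * φ x
  on : ∀ m, Cr B a b m → ∃ s ∈ S, φ s = Dl a b m

theorem Fm.iso (F : Fm ℓ B β a b) (H : On S φ B a b) (h : SS S L U)
    (hk : ∀ s ∈ S, φ s = 0 → ∀ u ∈ U, s *ᵥ u ∈ L) (hs : s ∈ S) (e : φ s = a * b + b * a)
    (hn : s ∉ ann S L U) :
    finrank (ZMod p) U = finrank (ZMod p) L + finrank (ZMod p) (im (b * a) ⊓ Vb ℓ β : VS p n) ∧
      200 * (2 * n + 1) + finrank (ZMod p) (ann S L U) ≤ finrank (ZMod p) S := by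
  have A := F.str.alg
  obtain ⟨y, hy, y0⟩ := F.ex
  obtain ⟨ρ, a1, a2, -, a3⟩ := F.rk hy hy stab_bot y0
  have kz : ∀ x ∈ B, x *ᵥ y = 0 → x * ρ = 0 := fun x hx e => mat_ext fun z => by
    have := orb_map hx (a3 z)
    rwa [e, CE.orb_zero, Submodule.mem_bot, mulVec_mulVec, ← zero_mulVec z] at this
  have rr : ρ * ρ = ρ := by
    have := kz _ (sub_mem a1.mem A.one) (by rw [sub_mulVec, a2, one_mulVec, sub_self])
    rwa [sub_mul, one_mul, sub_eq_zero] at this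
  obtain ⟨r, hr, er⟩ := H.on ρ a1
  obtain ⟨u, hu, ru⟩ : ∃ u ∈ U, r *ᵥ u ∉ L := by
    by_contra! hc
    obtain ⟨s', b1, b2⟩ := F.reg ((ann S L U).map φ) a1 hy.1 (a2.symm ▸ y0) (fun x x' hx hx' => by
      obtain ⟨c, c1, c2⟩ := H.on x hx
      obtain ⟨d, d1, d2⟩ := H.on x' hx'
      refine ⟨c * r * d, ⟨H.mul _ (H.mul _ c1 _ hr) _ d1, fun u hu => ?_⟩, ?_⟩
      · rw [← mulVec_mulVec, ← mulVec_mulVec]
        exact h.invL c c1 _ (hc _ (h.invU d d1 u hu))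
      · rw [H.hom _ (H.mul _ c1 _ hr) _ d1, H.hom _ c1 _ hr, c2, d2, er, F.Dl_mul hx a1,
          F.Dl_mul (F.cr_mul hx a1) hx']) F.cr_q
    refine hn ⟨hs, fun u hu => ?_⟩
    simpa [sub_mulVec] using add_mem (hk _ (sub_mem hs b1.1)
      (by rw [map_sub, e, b2, F.Dl_q, sub_self]) u hu) (b1.2 u hu)
  let J : Sub p n := S ⊓ LinearMap.ker (LinearMap.mulRight (ZMod p) (Dl a b ρ) ∘ₗ φ - φ)
  have mJ : ∀ j, j ∈ J ↔ j ∈ S ∧ φ j * Dl a b ρ = φ j := fun j =>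
    and_congr_right fun _ => sub_eq_zero
  have lJ : ∀ x ∈ S, ∀ j ∈ J, x * j ∈ J := fun x hx j hj => (mJ _).2 ⟨H.mul _ hx _ hj.1, by
    rw [H.hom _ hx _ hj.1, mul_assoc, ((mJ j).1 hj).2]⟩
  have rJ : r ∈ J := (mJ r).2 ⟨hr, by rw [er, F.Dl_mul a1 a1, rr]⟩
  have pv : ∀ j ∈ S, Pv ℓ a b β (φ j *ᵥ y) := fun j hj =>
    ⟨(A.dg _ (H.mem j hj)).mulVec_mem hy.1, by
      rw [mulVec_mulVec, mul_assoc, ← H.ca j hj, ← mul_assoc, ← H.cb j hj, mul_assoc,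
        ← mulVec_mulVec, hy.2]⟩
  have k1 : ∀ j ∈ J, φ j *ᵥ y = 0 → j *ᵥ u ∈ L := fun j hj e => hk j hj.1 (by
    have := kz _ (H.mem j hj.1) e
    rw [← ((mJ j).1 hj).2, Dl_apply, mul_add, this, ← mul_assoc, ← mul_assoc, H.ca j hj.1,
      mul_assoc a, this, mul_zero, zero_mul, add_zero]) u hu
  have k2 : ∀ j ∈ J, j *ᵥ u ∈ L → φ j *ᵥ y = 0 := fun j hj e => by
    by_contra h0
    obtain ⟨c, c1, c2, -⟩ := F.rk (pv j hj.1) hy stab_bot h0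
    obtain ⟨d, d1, d2⟩ := H.on c c1
    have := k1 _ (sub_mem (lJ d d1 j hj) rJ) (by
      rw [map_sub, sub_mulVec, H.hom _ d1 _ hj.1, d2, er, ← mulVec_mulVec, F.Dl_vec (pv j hj.1).2,
        F.Dl_vec hy.2, c2, a2, sub_self])
    rw [sub_mulVec, ← mulVec_mulVec] at this
    exact ru (by simpa using sub_mem (h.invL d d1 _ e) this)
  have sj : ∀ v, Pv ℓ a b β v → ∃ j ∈ J, φ j *ᵥ y = v := fun v hv => by
    obtain ⟨c, c1, c2, -⟩ := F.rk hy hv stab_bot y0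
    obtain ⟨d, d1, d2⟩ := H.on c c1
    exact ⟨d * r, lJ d d1 r rJ, by
      rw [H.hom _ d1 _ hr, d2, er, ← mulVec_mulVec, F.Dl_vec hy.2, a2, F.Dl_vec hy.2, c2]⟩
  constructor
  · have e1 := KT.rk (evx y ∘ₗ φ) J
    have e2 := KT.rk (L.mkQ ∘ₗ evx u) J
    have e3 := KT.rk L.mkQ U
    have e4 : J ⊓ LinearMap.ker (evx y ∘ₗ φ) = J ⊓ LinearMap.ker (L.mkQ ∘ₗ evx u) :=
      Submodule.ext fun j => and_congr_right fun hj =>
        ⟨fun e => (Submodule.Quotient.mk_eq_zero L).2 (k1 j hj e),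
          fun e => k2 j hj ((Submodule.Quotient.mk_eq_zero L).1 e)⟩
    have e5 : J.map (evx y ∘ₗ φ) = im (b * a) ⊓ Vb ℓ β := le_antisymm (by
      rintro _ ⟨j, hj, rfl⟩
      exact ⟨⟨_, (pv j hj.1).2⟩, (pv j hj.1).1⟩) (by
      rintro _ ⟨⟨z, rfl⟩, hz⟩
      exact sj _ ⟨hz, by rw [mulVecLin_apply, mulVec_mulVec, F.qq]⟩)
    have e6 : U.map L.mkQ = J.map (L.mkQ ∘ₗ evx u) := by
      rw [← ss_gen h inf_le_left lJ hu rJ ru, Submodule.map_sup, Submodule.mkQ_map_self,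
        bot_sup_eq, Submodule.map_comp, orb]
    rw [Submodule.ker_mkQ, inf_eq_right.2 h.lt.le, e6] at e3
    rw [e4, e5] at e1
    omega
  · have e1 := KT.rk (crn ℓ (b * a) β ∘ₗ φ) S
    have e2 : B.map (crn ℓ (b * a) β) ≤ S.map (crn ℓ (b * a) β ∘ₗ φ) := by
      rintro _ ⟨c, hc, rfl⟩
      obtain ⟨d, d1, d2⟩ := H.on _ (F.cr_of hc)
      refine ⟨d, d1, ?_⟩
      rw [LinearMap.comp_apply, d2, crn_apply, crn_apply, Dl_apply, mul_add, (F.cr_of hc).l,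
        ← mul_assoc (b * a), ← mul_assoc (b * a), F.ma' F.cr_q, zero_mul, zero_mul, add_zero,
        (F.cr_of hc).r]
    have e3 : ann S L U ≤ S ⊓ LinearMap.ker (crn ℓ (b * a) β ∘ₗ φ) := fun x hx =>
      ⟨hx.1, mat_ext fun z => by
        obtain ⟨j, hj, e⟩ := sj ((b * a) *ᵥ (pr ℓ β *ᵥ z))
          ⟨(A.dg _ F.mq).mulVec_mem (pr_mulVec_mem _ _), by rw [mulVec_mulVec, F.qq]⟩
        have := k2 _ (lJ x hx.1 j hj) (by
          rw [← mulVec_mulVec]; exact hx.2 _ (h.invU j hj.1 u hu))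
        rw [H.hom _ hx.1 _ hj.1, ← mulVec_mulVec, e] at this
        rw [LinearMap.comp_apply, EBASx.crn_mulVec, this, mulVec_zero, zero_mulVec]⟩
    have e4 := Submodule.finrank_mono e2
    have e5 := Submodule.finrank_mono e3
    have e6 := Nat.le_of_mul_le_mul_right (F.dim.trans_eq (ebas F.str F.mq F.qq β).symm)
      (eb_pos A β)
    omega

end Pool.Agent.P.MP_f1a348_lc.LT2
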