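import Pool.Agent.P.MP_f1a348_lc.LT.G3
import Pool.Agent.P.MP_f1a348_lc.LT.Iso
import Pool.Agent.P.MP_f1a348_lc.UP.Iface

/-!
Lemma T in every characteristic: construction of the pair `(Z, τ)` from a frame.
-/

namespace Pool.Agent.P.MP_f1a348_lc.LT2

open Matrix Module Pool.Agent.P.MP_f1a348_lc.PG Pool.Agent.P.MP_f1a348_lc.UP
  Pool.Agent.P.MP_f1a348_lc.KT Pool.Agent.P.MP_f1a348_lc.UP.LT
open Pool.Agent.P.MP_f1a348_lc.CE (sgl orb_map)

set_option linter.unusedSectionVars false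

theorem six {R : Type} [Ring R] {g o : R} (h2 : g * g = g - 1 + o) (h3 : g * o = o)
    (h4 : o * o = o) : g ^ 6 = 1 ∧ 1 + g ^ 3 = 2 • o ∧ 1 + g ^ 2 + g ^ 4 = 3 • o := by
  have e : g ^ 3 = o + o - 1 := by
    rw [pow_succ', pow_two, h2, mul_add, mul_sub, h2, h3, mul_one]; abel
  refine ⟨?_, by rw [e]; abel, ?_⟩
  · rw [show 6 = 3 + 3 from rfl, pow_add, e]
    simp only [mul_add, add_mul, mul_sub, sub_mul, h4, mul_one, one_mul]
    abel
  · rw [pow_succ' g 3, e, pow_two, h2, mul_sub, mul_add, h3, mul_one]; abel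

variable {p n : ℕ} [Fact p.Prime] {ℓ : Ix n → ℕ} {B R S : Sub p n} {β : Ix n}
  {a b c m s x : Mat p n} {L U : VS p n} {φ : Mat p n →ₗ[ZMod p] Mat p n} {X Z : SG p n}
  {f : GG p n}

theorem low0 (low : S_LOW p n) (hl : Lab ℓ) {θ : Frm p n} (h0 : θ ≠ 0) :
    ∃ η : Frm p n, η ≠ 0 ∧ ∀ u, Tri ℓ u → pull1 u θ = θ → pull1 (gr ℓ u) η = η := by
  obtain ⟨i, hi, hm⟩ := (wellFounded_lt.onFun (f := key ℓ)).has_min {i | θ i ≠ 0}
    (Function.ne_iff.1 h0)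
  have lw : θ ∈ Lowr ℓ i := fun k a1 ⟨j, a2⟩ => not_not.1 fun e =>
    hm k e (lt_of_le_of_ne (key_le a1) fun e2 => a2.ne ((key_eq_iff hl).1 e2 j))
  refine ⟨cmp ℓ (key ℓ i) θ, fun e => hi ?_, fun u hu e => by
    rw [← ((low ℓ i u θ hl hu).1 lw).2, e]⟩
  simpa using congrFun e i

theorem env_comm (h : ∀ z ∈ Z, φ z.1 * c = c * φ z.1) : ∀ s ∈ Env Z, φ s * c = c * φ s :=
  fun _ hs => sub_eq_zero.1 (env_le (S := LinearMap.ker (LinearMap.mulRight (ZMod p) c ∘ₗ φ -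
    LinearMap.mulLeft (ZMod p) c ∘ₗ φ)) (fun z hz => sub_eq_zero.2 (h z hz)) hs)

/-- `φ` is a homomorphism on the envelope of `X` with nil kernel -/
structure Hm (X : SG p n) (φ : Mat p n →ₗ[ZMod p] Mat p n) (B : Sub p n) : Prop where
  one : φ 1 = 1
  hom : ∀ x ∈ Env X, ∀ y ∈ Env X, φ (x * y) = φ x * φ y
  mem : ∀ x ∈ Env X, φ x ∈ B
  nil : ∀ x ∈ Env X, φ x = 0 → IsNilpotent x
  uni : ∀ x ∈ X, φ x.1 = 1 → ∃ k : ℕ, x ^ p ^ k = 1
  low : ∀ θ : Frm p n, (∀ η : Frm p n, (∀ s ∈ Env X, pull1 s θ = θ → pull1 (φ s) η = η) → η = 0) →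
    θ = 0

theorem Hm.kill (H : Hm X φ B) (hZ : Z ≤ X) (h : SS (Env Z) L U) (hc : c ∈ Env X)
    (e : ∀ u ∈ U, c *ᵥ u = u) (hs : s ∈ Env Z) (h0 : φ s * φ c = 0) : ∀ u ∈ U, s *ᵥ u ∈ L :=
  LT2.nil h (env_mem Z.one_mem) env_mul hs fun y hy => by
    have m := env_mul y hy s hs
    obtain ⟨k, hk⟩ := H.nil _ (env_mul _ (env_mono hZ m) c hc) (by
      rw [H.hom _ (env_mono hZ m) _ hc, H.hom _ (env_mono hZ hy) _ (env_mono hZ hs), mul_assoc, h0,
        mul_zero])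
    have : ∀ k, ∀ u ∈ U, (y * s * c) ^ k *ᵥ u = (y * s) ^ k *ᵥ u := fun k => by
      induction k with
      | zero => simp
      | succ k ih =>
        intro u hu
        rw [pow_succ, pow_succ, ← mulVec_mulVec, ← mulVec_mulVec u _ c, e u hu,
          ih _ (h.invU _ m u hu), mulVec_mulVec]
    exact ⟨k, fun u hu => by rw [← this k u hu, hk, zero_mulVec]⟩

/-- commutes with the frame -/
def Cz (a b z : Mat p n) : Prop :=
  Commute z a ∧ Commute z b ∧ Commute z (st a) ∧ Commute z (st b)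

namespace Fm
variable (F : Fm ℓ B β a b)
include F

theorem in_pi : In a b (a * b + b * a) := F.Dl_q ▸ F.in_Dl F.cr_q

theorem mul_o (hx : In a b x) : x * (1 - (a * b + b * a + st (a * b + b * a))) = 0 ∧
    st x * (1 - (a * b + b * a + st (a * b + b * a))) = 0 := by
  rw [mul_sub, mul_sub, mul_add x (_ + _), mul_add (st x) (_ + _), hx.2, (F.cross hx F.in_pi).1,
    (F.cross hx F.in_pi).2, ← st_mul, hx.1]
  simp

theorem sgl_o (hx : In a b x) : sgl x * (1 - (a * b + b * a + st (a * b + b * a))) =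
    1 - (a * b + b * a + st (a * b + b * a)) := by
  rw [sgl, sub_mul, add_mul, (F.mul_o hx).1, (F.mul_o hx).2, one_mul, add_zero, sub_zero]

theorem oo : (1 - (a * b + b * a + st (a * b + b * a))) * (1 - (a * b + b * a + st (a * b + b * a))) =
    1 - (a * b + b * a + st (a * b + b * a)) := by
  rw [sub_mul, add_mul, (F.mul_o F.in_pi).1, (F.mul_o F.in_pi).2, one_mul, add_zero, sub_zero]

theorem cz (h : Cr B a b m) : Cz a b (sgl (Dl a b m)) := by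
  have i := F.in_Dl h
  have c := fun x hx => F.cross (x := x) hx i
  have d := fun x hx => F.cross (y := x) i hx
  refine ⟨?_, ?_, ?_, ?_⟩ <;> refine ((Commute.one_left _).add_left ?_).sub_left ?_
  exacts [F.Dl_a h, (d a F.in_a).2.trans (c a F.in_a).1.symm, F.Dl_b h,
    (d b F.in_b).2.trans (c b F.in_b).1.symm, (d a F.in_a).1.trans (c a F.in_a).2.symm,
    by rw [Commute, SemiconjBy, ← st_mul, ← st_mul, F.Dl_a h],
    (d b F.in_b).1.trans (c b F.in_b).2.symm,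
    by rw [Commute, SemiconjBy, ← st_mul, ← st_mul, F.Dl_b h]]

theorem tau : ∃ t j : ℕ, t.Prime ∧ t ≠ p ∧ ((sgl a * sgl (-b)) ^ j) ^ t = 1 ∧
    ∑ i ∈ Finset.range t, ((sgl a * sgl (-b)) ^ j) ^ i =
      (t : ZMod p) • (1 - (a * b + b * a + st (a * b + b * a))) := by
  have ia := F.in_a
  have ib := F.in_b
  have i1 : In a b (a + -b + a * -b) :=
    ⟨by rw [mul_add _ (_ + _), mul_add _ a, ← mul_assoc _ a, ia.1, ib.neg.1],
      by rw [add_mul (_ + _), add_mul a, mul_assoc a (-b), ia.2, ib.neg.2]⟩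
  have i2 : In a b (a + -b - -b * a) :=
    ⟨by rw [mul_sub, mul_add _ a, ← mul_assoc _ (-b), ia.1, ib.neg.1],
      by rw [sub_mul, add_mul a, mul_assoc (-b), ia.2, ib.neg.2]⟩
  obtain ⟨e1, e2, e3⟩ := six (g := sgl a * sgl (-b)) (by
    have e : ∀ x y : Mat p n, x * y = 0 → ∀ z, x * (y * z) = 0 := fun x y e z => by
      rw [← mul_assoc, e, zero_mul]
    rw [F.sgl_mul ia ib.neg, E_mul (F.cross i1 i2).1 (F.cross i2 i1).2]
    simp only [mul_add, add_mul, mul_sub, sub_mul, mul_neg, neg_mul, mul_assoc, F.aa, F.bb,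
      e _ _ F.aa, e _ _ F.bb, ← mul_assoc a b a, ← mul_assoc b a b, F.aba, F.bab, mul_zero, st_add,
      st_sub, st_neg, neg_zero, st_zero]
    abel) (by rw [mul_assoc, F.sgl_o ib.neg, F.sgl_o ia]) F.oo
  by_cases h : p = 2
  · refine ⟨3, 2, Nat.prime_three, by omega, by rw [← pow_mul, e1], ?_⟩
    rw [Nat.cast_smul_eq_nsmul, ← e3]
    simp [Finset.sum_range_succ, ← pow_mul]
  · refine ⟨2, 3, Nat.prime_two, Ne.symm h, by rw [← pow_mul, e1], ?_⟩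
    rw [Nat.cast_smul_eq_nsmul, ← e2]
    simp [Finset.sum_range_succ]

theorem on (H : Hm X φ B) (hZ : Z ≤ X) (h1 : ∀ z ∈ Z, φ z.1 * a = a * φ z.1)
    (h2 : ∀ z ∈ Z, φ z.1 * b = b * φ z.1)
    (h : ∀ m, G1 ℓ B a b m → ∃ z ∈ Z, φ z.1 = sgl (Dl a b m)) : On (Env Z) φ B a b :=
  ⟨env_mul, fun x hx y hy => H.hom x (env_mono hZ hx) y (env_mono hZ hy),
    fun x hx => H.mem x (env_mono hZ hx), env_comm h1, env_comm h2, fun _ hm =>
    F.span ((Env Z).map φ) ⟨1, env_mem Z.one_mem, H.one⟩ (by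
      rintro _ ⟨x, hx, rfl⟩ _ ⟨y, hy, rfl⟩
      exact ⟨x * y, env_mul x hx y hy, H.hom x (env_mono hZ hx) y (env_mono hZ hy)⟩)
      (fun m hm => let ⟨z, hz, e⟩ := h m hm; ⟨z.1, env_mem hz, e⟩) hm⟩

theorem cms (h : G1 ℓ B a b m) : ∃ m1 m2, G1 ℓ B a b m1 ∧ G1 ℓ B a b m2 ∧
    sgl (Dl a b m1) * sgl (Dl a b m2) = sgl (Dl a b m) * sgl (Dl a b m2) * sgl (Dl a b m1) := by
  obtain ⟨_, v, a1, a2, a3⟩ := h.ex
  obtain ⟨m1, m2, b1, b2, rfl, b3⟩ := F.fac h.toCr a1 a3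
  exact ⟨m1, m2, b1, b2, F.comm b1 b2 (b3 a2)⟩

theorem tz1 (H : Hm X φ B) (hs : ∀ m ∈ B, In a b m → m * m = 0 → ∃ x ∈ X, φ x.1 = sgl m) :
    ∃ Z ≤ X, ∃ τ ∈ X, ∃ t k, Tz Z τ t k ∧ ∃ y ∈ Vb ℓ β, φ τ.1 *ᵥ y ≠ y := by
  have D := F.dual
  have hm : ∀ x ∈ X, ∀ y ∈ X, φ (x * y).1 = φ x.1 * φ y.1 := fun x hx y hy =>
    H.hom _ (env_mem hx) _ (env_mem hy)
  have h1 : φ (1 : GG p n).1 = 1 := H.one
  obtain ⟨t, j, t1, t2, t3, t4⟩ := F.tau
  obtain ⟨xa, ha, ea⟩ := hs a F.ma F.in_a F.aa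
  obtain ⟨xb, hb, eb⟩ := hs (-b) (neg_mem F.mb) F.in_b.neg (by rw [neg_mul_neg, F.bb])
  have e0 := hom_pow (φ := fun x => φ x.1) h1 hm (X.mul_mem ha hb) j
  simp only [hm _ ha _ hb, ea, eb] at e0
  obtain ⟨τ, hτ, t5, t6⟩ := lift_ord (φ := fun x => φ x.1) h1 hm H.uni t1 Fact.out t2
    (X.pow_mem (X.mul_mem ha hb) j) (e0.symm ▸ t3)
  simp only [e0] at t6
  have oo := F.oo
  have mo := fun x hx => F.mul_o (x := x) hx
  have so := fun x hx => F.sgl_o (x := x) hx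
  have g3 := fun S g T h h' => F.g3 (S := S) (g := g) T h h'
  have ne : (t : ZMod p) ≠ 0 := fun e =>
    t2 ((Nat.prime_dvd_prime_iff_eq Fact.out t1).1 ((ZMod.natCast_eq_zero_iff _ _).1 e)).symm
  generalize he : a * b + b * a + st (a * b + b * a) = e at t4 oo mo so g3
  have sx := sm_mem le_rfl hτ t
  have es : φ (sm τ t) = (t : ZMod p) • (1 - e) := by
    rw [← t4, sm, map_sum, ← t6]
    exact Finset.sum_congr rfl fun i _ => hom_pow (φ := fun x => φ x.1) h1 hm hτ i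
  have mx : mp τ t ∈ Env X := sub_mem (env_mem X.one_mem) (Submodule.smul_mem _ _ sx)
  have em : φ (mp τ t) = e := by
    rw [mp, map_sub, map_smul, es, H.one, smul_smul, inv_mul_cancel₀ ne, one_smul, sub_sub_cancel]
  let G : SG p n := sg (fun x => x ∈ X ∧ x * τ = τ * x ∧ Cz a b (φ x.1) ∧ φ x.1 * (1 - e) = 1 - e)
    ⟨X.one_mem, by simp, by simp [Cz, H.one], by rw [h1, one_mul]⟩ fun x y hx hy =>
    ⟨X.mul_mem hx.1 hy.1, Commute.mul_left hx.2.1 hy.2.1, hm _ hx.1 _ hy.1 ▸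
      ⟨hx.2.2.1.1.mul_left hy.2.2.1.1, hx.2.2.1.2.1.mul_left hy.2.2.1.2.1,
        hx.2.2.1.2.2.1.mul_left hy.2.2.1.2.2.1, hx.2.2.1.2.2.2.mul_left hy.2.2.1.2.2.2⟩,
      by rw [hm _ hx.1 _ hy.1, mul_assoc, hy.2.2.2, hx.2.2.2]⟩
  have lf : ∀ m, Cr B a b m → m * m = 0 → ∃ x ∈ G, φ x.1 = sgl (Dl a b m) := fun m c q => by
    obtain ⟨x, hx, ex⟩ := hs _ (F.Dl_mem c) (F.in_Dl c) (by rw [F.Dl_mul c c, q, map_zero])
    have z := F.cz c
    obtain ⟨y, hy, y1, y2⟩ := lift_cen (φ := fun x => φ x.1) h1 hm H.uni t1 Fact.out t2 hτ t5 hx (by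
      simp only [ex, t6, sgl, st_neg]
      exact (((((Commute.one_right _).add_right z.1).sub_right z.2.2.1).mul_right
        (((Commute.one_right _).add_right z.2.1.neg_right).sub_right
          z.2.2.2.neg_right)).pow_right j).eq)
    simp only [ex] at y1
    exact ⟨y, ⟨hy, y2, y1 ▸ z, y1 ▸ so _ (F.in_Dl c)⟩, y1⟩
  obtain ⟨Z, z1, z2, z3⟩ := lift_perf (X := G) (φ := fun x => φ x.1) h1
    (fun x hx y hy => hm x hx.1 y hy.1) p {z | (∃ m, G1 ℓ B a b m ∧ z = sgl (Dl a b m)) ∨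
      ∃ m, G1 ℓ B (st b) (st a) m ∧ z = sgl (Dl (st b) (st a) m)} (by
      rintro _ (⟨m, h, rfl⟩ | ⟨m, h, rfl⟩)
      · exact lf m h.toCr h.sq
      · have := lf (-st m) (by simpa using (h.toCr.dual F.str.alg).neg)
          (by rw [neg_mul_neg, ← st_mul, h.sq, st_zero])
        rwa [← sgl_dual, st_neg, st_st, neg_neg] at this) (by
      rintro _ (⟨m, h, rfl⟩ | ⟨m, h, rfl⟩)
      · obtain ⟨m1, m2, b1, b2, e⟩ := F.cms h
        exact ⟨_, Or.inl ⟨m1, b1, rfl⟩, _, Or.inl ⟨m2, b2, rfl⟩, e⟩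
      · obtain ⟨m1, m2, b1, b2, e⟩ := D.cms h
        exact ⟨_, Or.inr ⟨m1, b1, rfl⟩, _, Or.inr ⟨m2, b2, rfl⟩, e⟩)
  have hZ : Z ≤ X := fun z hz => (z1 hz).1
  have cen : ∀ z ∈ Z, z * τ = τ * z := fun z hz => (z1 hz).2.1
  have o1 := F.on H hZ (fun z hz => (z1 hz).2.2.1.1) (fun z hz => (z1 hz).2.2.1.2.1)
    fun m h => z3 _ (Or.inl ⟨m, h, rfl⟩)
  have o2 := D.on H hZ (fun z hz => (z1 hz).2.2.1.2.2.2) (fun z hz => (z1 hz).2.2.1.2.2.1)
    fun m h => z3 _ (Or.inr ⟨m, h, rfl⟩)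
  have one : (1 : Mat p n) ∈ Env Z := env_mem Z.one_mem
  refine ⟨Z, hZ, τ, hτ, t, finrank (ZMod p) (im (b * a) ⊓ Vb ℓ β : VS p n), ⟨ne, t5, cen, z2,
    fun z hz u hu => ?_, fun L U h hU => ?_, fun w hw x hx => ?_⟩, ?_⟩
  · refine sub_eq_zero.1 ((uni z2 (L := ⊥) (P := Ep (mv τ.1) ⊤) inv_bot (inv_env fun z hz u hu =>
      mem_Ep.2 ⟨trivial, by
        rw [mv_apply, mulVec_mulVec, ← val_mul, ← cen z hz, val_mul, ← mulVec_mulVec,
          ep_fix u hu]⟩) bot_le (fun L U h _ c z hz => ⟨h.invL _ (env_mem hz), fun u hu => ?_⟩)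
      hz).2 u (mem_Ep.2 ⟨trivial, by rwa [mv_apply]⟩))
    simpa [sub_mulVec] using H.kill hZ h (sub_mem (env_mem X.one_mem) mx) (fun u hu => by
      rw [val_one, mp, sub_sub_cancel, smul_mulVec, sm_fix (ep_fix u (c hu)), smul_smul,
        inv_mul_cancel₀ ne, one_smul]) (sub_mem (env_mem hz) one) (by
      rw [map_sub, map_sub, em, h1, H.one, sub_mul, (z1 hz).2.2.2, one_mul, sub_self]) u hu
  · have hk : ∀ s ∈ Env Z, φ s = 0 → ∀ u ∈ U, s *ᵥ u ∈ L := fun s hs e =>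
      H.kill hZ h (env_mem X.one_mem) (fun u _ => one_mulVec u) hs (by rw [e, zero_mul])
    obtain ⟨s1, a1, a2⟩ := o1.on _ F.cr_q
    obtain ⟨s2, b1, b2⟩ := o2.on _ D.cr_q
    rw [F.Dl_q] at a2
    rw [D.Dl_q] at b2
    by_cases c1 : s1 ∈ ann (Env Z) L U
    · refine F.rank ▸ D.iso o2 h hk b1 b2 fun c2 => h.lt.not_ge fun u hu => ?_
      have := H.kill hZ h mx (fun u hu => mp_of_vm (hU hu)) (sub_mem one (add_mem a1 b1)) (by
        rwa [map_sub, map_add, a2, b2, H.one, em, ← st_mul, ← st_mul, ← st_add, he, ← sub_eq_self,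
          ← mul_one_sub]) u hu
      simpa [sub_mulVec, add_mulVec] using add_mem this (add_mem (c1.2 u hu) (c2.2 u hu))
    · exact F.iso o1 h hk a1 a2 c1
  · have vm : ∀ u, mp τ t *ᵥ u ∈ Vm τ t ⊤ := fun u => mem_Vm.2 ⟨trivial, sm_mp ne t5 u⟩
    have := H.low (pull1 (mp τ t) w) fun η hη => frm_ext fun x => by
      have i1 := hη _ mx (frm_ext fun x => by simp only [ev_pull1, mp_of_vm (vm _)])
      have i2 : ∀ z ∈ Z, pull1 (φ z.1) η = η := fun z hz => hη _ (env_mem (hZ hz))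
        (frm_ext fun x => by
          simp only [ev_pull1, mulVec_mulVec, ← mp_comm (cen z hz)]
          simpa only [mulVec_mulVec] using hw z hz _ fun j => vm (x j))
      have := g3 {z | pull1 z η = η} (fun x y z => cur η x y z)
        ⟨fun _ _ _ _ => by simp only [map_add, LinearMap.add_apply],
          fun _ _ _ _ => by simp only [map_add, LinearMap.add_apply],
          fun _ _ _ _ => map_add _ _ _, fun s hs x y z => by
          rw [cur_apply, cur_apply]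
          conv_rhs => rw [← show pull1 s η = η from hs, ev_pull1]
          congr 1
          funext j
          fin_cases j <;> rfl⟩
        (fun m h => let ⟨z, hz, e⟩ := z3 _ (Or.inl ⟨m, h, rfl⟩); e ▸ i2 z hz)
        (fun m h => let ⟨z, hz, e⟩ := z3 _ (Or.inr ⟨m, h, rfl⟩); e ▸ i2 z hz) (x 1) (x 0) (x 2)
      rw [← i1, em, ev_pull1, ev_zero, ← this, cur_apply]
      congr 1
      funext j
      fin_cases j <;> rfl
    rw [← funext fun j => mp_of_vm (hx j), ← ev_pull1, this, ev_zero]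
  · obtain ⟨y, hy, y0⟩ := F.ex
    refine ⟨y, hy.1, fun e1 => y0 ((smul_eq_zero.1 ?_).resolve_left ne)⟩
    have e2 : ∀ i : ℕ, φ (τ ^ i).1 *ᵥ y = y := fun i => by
      induction i with
      | zero => rw [pow_zero, h1, one_mulVec]
      | succ i ih => rw [pow_succ, hm _ (X.pow_mem hτ i) _ hτ, ← mulVec_mulVec, e1, ih]
    have e3 := congrArg (· *ᵥ y) es
    simp only [sm, map_sum, sum_mulVec, e2, Finset.sum_const, Finset.card_range, smul_mulVec] at e3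
    rw [Nat.cast_smul_eq_nsmul, e3, ← hy.2, mulVec_mulVec, ← he, sub_mul, add_mul, ← mul_assoc,
      ← mul_assoc, ← mul_assoc, F.in_b.1, (F.cross F.in_pi F.in_b).2]
    simp

end Fm

end Pool.Agent.P.MP_f1a348_lc.LT2
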