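import Pool.Agent.P.MP_f1a348_lc.LT.Tz
import Pool.Agent.P.MP_f1a348_lc.CE.Base
import Pool.Agent.P.MP_f1a348_lc.UP.TREG

/-!
Lemma T in every characteristic: frames of two isomorphic isotropic idempotents.
-/

namespace Pool.Agent.P.MP_f1a348_lc.LT2

open Matrix Module Pool.Agent.P.MP_f1a348_lc.PG Pool.Agent.P.MP_f1a348_lc.UP
  Pool.Agent.P.MP_f1a348_lc.UP.LT
open Pool.Agent.P.MP_f1a348_lc.CE (sgl orb_map)

set_option linter.unusedSectionVars false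

variable {p n : ℕ} [Fact p.Prime] {ℓ : Ix n → ℕ} {B : Sub p n} {α β : Ix n}
  {a b m m' x y : Mat p n} {u v w : Vec p n} {W : VS p n}

/-- `a` and `b` are matrix units of size two with isotropic images -/
structure Fm (ℓ : Ix n → ℕ) (B : Sub p n) (β : Ix n) (a b : Mat p n) : Prop where
  str : Str ℓ B
  ma : a ∈ B
  mb : b ∈ B
  aa : a * a = 0
  bb : b * b = 0
  aba : a * b * a = a
  bab : b * a * b = b
  ort : ∀ x y, x = a ∨ x = b → y = a ∨ y = b → x * st y = 0 ∧ st x * y = 0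
  cl : ec ℓ B β * b = b
  cl' : ec ℓ B β.rev * st a = st a
  dim : 200 * (2 * n + 1) * eb ℓ B β ≤ finrank (ZMod p) (im (b * a) ⊓ Vb ℓ β : VS p n) ^ 2

/-- the corner -/
structure Cr (B : Sub p n) (a b m : Mat p n) : Prop where
  mem : m ∈ B
  l : b * a * m = m
  r : m * (b * a) = m

/-- the diagonal embedding of the corner -/
noncomputable def Dl (a b : Mat p n) : Mat p n →ₗ[ZMod p] Mat p n := LinearMap.id + lr a b

theorem Dl_apply (a b m : Mat p n) : Dl a b m = m + a * m * b := rfl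

/-- supported on the frame -/
def In (a b x : Mat p n) : Prop := (a * b + b * a) * x = x ∧ x * (a * b + b * a) = x

/-- vectors of the first piece -/
def Pv (ℓ : Ix n → ℕ) (a b : Mat p n) (α : Ix n) (v : Vec p n) : Prop :=
  v ∈ Vb ℓ α ∧ (b * a) *ᵥ v = v

/-- elements of rank one and square zero -/
structure G1 (ℓ : Ix n → ℕ) (B : Sub p n) (a b m : Mat p n) : Prop extends Cr B a b m where
  ex : ∃ α v, Pv ℓ a b α v ∧ m *ᵥ v = 0 ∧ ∀ z, m *ᵥ z ∈ orb (Com B) v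

theorem finrank_im_st (g : Mat p n) : finrank (ZMod p) (im (st g)) = finrank (ZMod p) (im g) := by
  have e : perp (im (st g)) = LinearMap.ker g.mulVecLin := by
    ext v
    exact ⟨fun h => CE.kill_of_ims (W := im (st g)) (fun z => ⟨z, rfl⟩) h, fun h => by
      rintro _ ⟨z, rfl⟩
      rw [mulVecLin_apply, ip_mulVec, st_st, show g *ᵥ v = 0 from h, ip_zero_right]⟩
  have h1 := finrank_perp (im (st g))
  have h2 := LinearMap.finrank_range_add_finrank_ker g.mulVecLin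
  simp only [Module.finrank_fintype_fun_eq_card, Fintype.card_fin] at h2
  rw [e] at h1
  exact add_left_cancel (h1.trans (h2.symm.trans (add_comm _ _)))

theorem im_pr (h : Dg ℓ x) (α : Ix n) : im (x * pr ℓ α) = im x ⊓ Vb ℓ α := by
  refine le_antisymm ?_ ?_
  · rintro _ ⟨z, rfl⟩
    rw [mulVecLin_apply, ← mulVec_mulVec]
    exact ⟨⟨_, rfl⟩, h.mulVec_mem (pr_mulVec_mem _ _)⟩
  · rintro _ ⟨⟨z, rfl⟩, e⟩
    exact ⟨z, by rw [mulVecLin_apply, ← h.comm_pr, ← mulVec_mulVec]; exact mem_Vb_iff.1 e⟩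

theorem st_Dl (a b m : Mat p n) : Dl (st b) (st a) (st m) = st (Dl a b m) := by
  simp only [Dl_apply, st_add, st_mul, mul_assoc]

theorem Cr.dual (hB : Alg ℓ B) (h : Cr B a b m) : Cr B (st b) (st a) (st m) :=
  ⟨hB.star _ h.mem, by rw [← st_mul, ← st_mul, h.r], by rw [← st_mul, ← st_mul, h.l]⟩

theorem Cr.neg (h : Cr B a b m) : Cr B a b (-m) :=
  ⟨neg_mem h.mem, by rw [mul_neg, h.l], by rw [neg_mul, h.r]⟩

theorem In.dual (h : In a b x) : In (st b) (st a) (st x) :=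
  ⟨by rw [← st_mul, ← st_mul, ← st_add, ← st_mul, h.2],
    by rw [← st_mul, ← st_mul, ← st_add, ← st_mul, h.1]⟩

theorem In.neg (h : In a b x) : In a b (-x) := ⟨by rw [mul_neg, h.1], by rw [neg_mul, h.2]⟩

theorem E_mul {z t : Mat p n} (h1 : x * st t = 0) (h2 : st y * z = 0) :
    (1 + x - st y) * (1 + z - st t) = 1 + (x + z + x * z) - st (y + t - t * y) := by
  simp only [mul_sub, sub_mul, mul_add, add_mul, mul_one, one_mul, h1, h2, st_sub, st_add, st_mul]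
  abel

theorem G1.sq (h : G1 ℓ B a b m) : m * m = 0 := by
  obtain ⟨_, v, -, h1, h2⟩ := h.ex
  refine mat_ext fun z => ?_
  have := orb_map h.mem (h2 z)
  rwa [h1, CE.orb_zero, Submodule.mem_bot, mulVec_mulVec, ← zero_mulVec z] at this

namespace Fm
variable (F : Fm ℓ B β a b)
include F

theorem mq : b * a ∈ B := F.str.alg.mul _ F.mb _ F.ma

theorem qq : b * a * (b * a) = b * a := by rw [← mul_assoc, F.bab]

theorem rank : finrank (ZMod p) (im (st a * st b) ⊓ Vb ℓ β.rev : VS p n) =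
    finrank (ZMod p) (im (b * a) ⊓ Vb ℓ β : VS p n) := by
  have d := F.str.alg.dg _ F.mq
  rw [← st_mul, ← im_pr (d.st F.str.lab), ← im_pr d, ← st_pr F.str.lab, ← st_mul, d.comm_pr,
    finrank_im_st]

theorem dual : Fm ℓ B β.rev (st b) (st a) where
  str := F.str
  ma := F.str.alg.star _ F.mb
  mb := F.str.alg.star _ F.ma
  aa := by rw [← st_mul, F.bb, st_zero]
  bb := by rw [← st_mul, F.aa, st_zero]
  aba := by rw [← st_mul, ← st_mul, ← mul_assoc, F.bab]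
  bab := by rw [← st_mul, ← st_mul, ← mul_assoc, F.aba]
  ort := by
    rintro _ _ (rfl | rfl) (rfl | rfl) <;> simp only [st_st] <;>
      exact (F.ort _ _ (by simp) (by simp)).symm
  cl := F.cl'
  cl' := by rw [Fin.rev_rev, st_st, F.cl]
  dim := by rw [F.rank, eb_rev F.str]; exact F.dim

theorem in_a : In a b a :=
  ⟨by rw [add_mul, F.aba, mul_assoc, F.aa, mul_zero, add_zero],
    by rw [mul_add, ← mul_assoc, ← mul_assoc, F.aba, F.aa, zero_mul, zero_add]⟩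

theorem in_b : In a b b :=
  ⟨by rw [add_mul, F.bab, mul_assoc, F.bb, mul_zero, zero_add],
    by rw [mul_add, ← mul_assoc, ← mul_assoc, F.bab, F.bb, zero_mul, add_zero]⟩

theorem cross (hx : In a b x) (hy : In a b y) : x * st y = 0 ∧ st x * y = 0 := by
  have e : ∀ x y z, x = a ∨ x = b → y = a ∨ y = b → x * (st y * z) = 0 := fun x y z hx hy => by
    rw [← mul_assoc, (F.ort x y hx hy).1, zero_mul]
  have e' : ∀ x y z, x = a ∨ x = b → y = a ∨ y = b → st x * (y * z) = 0 := fun x y z hx hy => by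
    rw [← mul_assoc, (F.ort x y hx hy).2, zero_mul]
  constructor
  · rw [← hx.2, ← hy.2]
    simp only [st_mul, st_add, mul_add, add_mul, mul_assoc, e a a, e a b, e b a, e b b, true_or,
      or_true, mul_zero, add_zero]
  · rw [← hx.1, ← hy.1]
    simp only [st_mul, st_add, mul_add, add_mul, mul_assoc, e' a a, e' a b, e' b a, e' b b, true_or,
      or_true, mul_zero, add_zero]

theorem bm (h : Cr B a b m) : b * m = 0 := by
  rw [← h.l, ← mul_assoc, ← mul_assoc, F.bb, zero_mul, zero_mul]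

theorem ma' (h : Cr B a b m) : m * a = 0 := by
  rw [← h.r, mul_assoc, mul_assoc, F.aa, mul_zero, mul_zero]

theorem cr_q : Cr B a b (b * a) := ⟨F.mq, F.qq, F.qq⟩

theorem cr_of (hx : x ∈ B) : Cr B a b (b * a * x * (b * a)) :=
  ⟨F.str.alg.mul _ (F.str.alg.mul _ F.mq _ hx) _ F.mq, by
    rw [← mul_assoc (b * a), ← mul_assoc (b * a), F.qq], by rw [mul_assoc, F.qq]⟩

theorem cr_mul (h : Cr B a b m) (h' : Cr B a b m') : Cr B a b (m * m') :=
  ⟨F.str.alg.mul _ h.mem _ h'.mem, by rw [← mul_assoc, h.l], by rw [mul_assoc, h'.r]⟩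

theorem Dl_q : Dl a b (b * a) = a * b + b * a := by rw [Dl_apply, ← mul_assoc, F.aba, add_comm]

theorem Dl_mem (h : Cr B a b m) : Dl a b m ∈ B :=
  add_mem h.mem (F.str.alg.mul _ (F.str.alg.mul _ F.ma _ h.mem) _ F.mb)

theorem Dl_mul (h : Cr B a b m) (h' : Cr B a b m') : Dl a b m * Dl a b m' = Dl a b (m * m') := by
  have e : a * m * b * (a * m' * b) = a * (m * m') * b := by
    conv_rhs => rw [← h'.l]
    simp only [mul_assoc]
  simp only [Dl_apply, mul_add, add_mul, e]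
  rw [← mul_assoc, ← mul_assoc, F.ma' h, mul_assoc _ b, F.bm h']
  simp

theorem in_Dl (h : Cr B a b m) : In a b (Dl a b m) := by
  rw [In, ← F.Dl_q, F.Dl_mul F.cr_q h, F.Dl_mul h F.cr_q, h.l, h.r]
  exact ⟨rfl, rfl⟩

theorem Dl_a (h : Cr B a b m) : Dl a b m * a = a * Dl a b m := by
  rw [Dl_apply, add_mul, mul_add, F.ma' h, mul_assoc, mul_assoc, h.r, ← mul_assoc, ← mul_assoc,
    F.aa]
  simp

theorem Dl_b (h : Cr B a b m) : Dl a b m * b = b * Dl a b m := by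
  rw [Dl_apply, add_mul, mul_add, F.bm h, mul_assoc _ b, F.bb, ← mul_assoc, ← mul_assoc, h.l]
  simp

theorem Dl_vec (h : (b * a) *ᵥ v = v) (m : Mat p n) : Dl a b m *ᵥ v = m *ᵥ v := by
  rw [Dl_apply, add_mulVec, ← h, mulVec_mulVec _ (a * m * b), mul_assoc, ← mul_assoc b, F.bb]
  simp

theorem sgl_mul (hx : In a b x) (hy : In a b y) :
    sgl x * sgl y = 1 + (x + y + x * y) - st (x + y - y * x) :=
  E_mul (F.cross hx hy).1 (F.cross hx hy).2

/-- the commutator formula -/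
theorem comm (h : G1 ℓ B a b m) (h' : G1 ℓ B a b m') (e : m' * m = 0) :
    sgl (Dl a b m) * sgl (Dl a b m') =
      sgl (Dl a b (m * m')) * sgl (Dl a b m') * sgl (Dl a b m) := by
  have c := h.toCr
  have c' := h'.toCr
  have i := F.in_Dl c
  have i' := F.in_Dl c'
  have k := F.cr_mul c c'
  have j := F.in_Dl k
  have s : In a b (Dl a b m' + Dl a b m) :=
    ⟨by rw [mul_add, i.1, i'.1], by rw [add_mul, i.2, i'.2]⟩
  have s' : In a b (Dl a b m' + Dl a b m - Dl a b (m * m')) :=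
    ⟨by rw [mul_sub, s.1, j.1], by rw [sub_mul, s.2, j.2]⟩
  rw [mul_assoc, F.sgl_mul i i', F.sgl_mul i' i, F.Dl_mul c c', F.Dl_mul c' c, e, map_zero,
    add_zero, sgl, E_mul (F.cross j s').1 (F.cross j s).2]
  simp only [mul_add, add_mul, sub_mul, F.Dl_mul k c, F.Dl_mul k c', F.Dl_mul c k, F.Dl_mul c' k,
    F.Dl_mul k k, mul_assoc, h'.sq, e, ← mul_assoc m m, ← mul_assoc m' m, h.sq, zero_mul, mul_zero,
    map_zero]
  congr 2 <;> abel

/-- there is room in the first piece -/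
theorem room (hv : Pv ℓ a b α v) (h0 : v ≠ 0) (hW : Small ℓ B 3 W) :
    ∃ u, Pv ℓ a b α u ∧ u ∉ W := by
  classical
  obtain ⟨γ, hγ⟩ := Function.ne_iff.1 h0
  have e : ec ℓ B β *ᵥ v = v := by rw [← hv.2, mulVec_mulVec, ← mul_assoc, F.cl]
  have c : Cb ℓ B β α ≠ ⊥ := fun c => hγ (by
    rw [← e, ec, mulVec_diagonal, Cb_congr rfl (not_not.1 (mt (hv.1 γ) hγ)), if_pos c, zero_mul,
      Pi.zero_apply])
  by_contra hc
  have h1 : im (b * a) ⊓ Vb ℓ α ≤ W ⊓ Vb ℓ α := fun u hu =>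
    ⟨not_not.1 fun e => hc ⟨u, ⟨hu.2, by
      obtain ⟨z, rfl⟩ := hu.1
      rw [mulVecLin_apply, mulVec_mulVec, F.qq]⟩, e⟩, hu.2⟩
  have h2 := (Submodule.finrank_mono h1).trans (hW.2 α)
  rw [← finrank_im_inf F.str (stab_im F.mq) c, ← eb_eq F.str c] at h2
  have h3 : finrank (ZMod p) (im (b * a) ⊓ Vb ℓ β : VS p n) ≤ 2 * n + 1 :=
    ((Submodule.finrank_mono inf_le_right).trans_eq (finrank_Vb β)).trans (nb_le ℓ β)
  have h4 := eb_pos F.str.alg β
  have h5 := F.dim.trans ((pow_two _).trans_le (Nat.mul_le_mul h3 h2))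
  nlinarith

theorem ex : ∃ y, Pv ℓ a b β y ∧ y ≠ 0 := by
  have h4 := eb_pos F.str.alg β
  have : im (b * a) ⊓ Vb ℓ β ≠ ⊥ := fun e => by
    have := F.dim
    rw [e, finrank_bot] at this
    nlinarith
  obtain ⟨_, ⟨⟨z, rfl⟩, h⟩, h0⟩ := Submodule.exists_mem_ne_zero_of_ne_bot this
  exact ⟨_, ⟨h, by rw [mulVecLin_apply, mulVec_mulVec, F.qq]⟩, h0⟩

/-- operators of rank one -/
theorem rk (hu : Pv ℓ a b α u) (hv : Pv ℓ a b α v) (hW : Stab B W) (hn : u ∉ W) :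
    ∃ m, Cr B a b m ∧ m *ᵥ u = v ∧ (∀ w ∈ W, (b * a) *ᵥ w = w → m *ᵥ w = 0) ∧
      ∀ z, m *ᵥ z ∈ orb (Com B) v := by
  obtain ⟨ρ, hρ, -, a2, a3, a4⟩ := proj F.str hW hu.1 hn
  obtain ⟨c, hc, e⟩ := F.str.sim α u hu.1 (fun e => hn (e ▸ zero_mem _)) v hv.1
  refine ⟨_, F.cr_of (F.str.alg.mul _ hc _ hρ), ?_, fun w hw e => ?_, fun z => ?_⟩
  · simp only [← mulVec_mulVec _ _ (b * a), ← mulVec_mulVec _ (b * a), ← mulVec_mulVec _ c, hu.2,
      a2, e, hv.2]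
  · simp only [← mulVec_mulVec _ _ (b * a), ← mulVec_mulVec _ (b * a), ← mulVec_mulVec _ c, e,
      a3 w hw, mulVec_zero]
  · have := orb_map F.mq (orb_map hc (a4 ⟨(b * a) *ᵥ z, rfl⟩))
    rw [e, hv.2] at this
    simpa only [mulVecLin_apply, mulVec_mulVec, mul_assoc] using this

theorem kill {α1 α2 : Ix n} (hv : Pv ℓ a b α v) (hu : Pv ℓ a b α1 u) (hw : Pv ℓ a b α2 w) :
    ∃ m z, G1 ℓ B a b m ∧ (b * a) *ᵥ z = z ∧ m *ᵥ z = v ∧ m *ᵥ u = 0 ∧ m *ᵥ w = 0 ∧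
      ∀ z, m *ᵥ z ∈ orb (Com B) v := by
  by_cases h0 : v = 0
  · exact ⟨0, 0, ⟨⟨zero_mem _, by simp, by simp⟩, α, v, hv, by simp, by simp⟩, by simp, by simp [h0],
      by simp, by simp, by simp⟩
  have s := ((small_orb F.str hv.1).sup F.str.alg (small_orb F.str hu.1)).sup F.str.alg
    (small_orb F.str hw.1)
  obtain ⟨z, hz, hn⟩ := F.room hv h0 s
  obtain ⟨m, a1, a2, a3, a4⟩ := F.rk hz hv s.1 hn
  exact ⟨m, z, ⟨a1, α, v, hv, a3 _ (Submodule.mem_sup_left (Submodule.mem_sup_left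
    (self_mem_orb v))) hv.2, a4⟩, hz.2, a2, a3 _ (Submodule.mem_sup_left (Submodule.mem_sup_right
    (self_mem_orb u))) hu.2, a3 _ (Submodule.mem_sup_right (self_mem_orb w)) hw.2, a4⟩

/-- factorisation of operators of rank one -/
theorem fac (hx : Cr B a b x) (hv : Pv ℓ a b α v) (h : ∀ z, x *ᵥ z ∈ orb (Com B) v) :
    ∃ m m', G1 ℓ B a b m ∧ G1 ℓ B a b m' ∧ x = m * m' ∧ (x *ᵥ v = 0 → m' * m = 0) := by
  have S := F.str
  by_cases h0 : v = 0
  · have z : G1 ℓ B a b 0 := ⟨⟨zero_mem _, by simp, by simp⟩, α, v, hv, by simp, by simp⟩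
    refine ⟨0, 0, z, z, mat_ext fun z => ?_, fun _ => by simp⟩
    simpa [h0, CE.orb_zero] using h z
  obtain ⟨w, hw, w0, w1⟩ : ∃ w, Pv ℓ a b α w ∧ x *ᵥ w = 0 ∧ w ∉ orb (Com B) v := by
    obtain ⟨u1, a1, a2⟩ := F.room hv h0 ((small_orb S hv.1).mono (by omega))
    obtain ⟨u2, a3, a4⟩ := F.room hv h0
      (((small_orb S hv.1).sup S.alg (small_orb S a1.1)).mono (by omega))
    by_cases e : x *ᵥ u1 = 0
    · exact ⟨u1, a1, e, a2⟩
    obtain ⟨C, hC, e1⟩ := mem_orb.1 ((stab_orb _).orb_le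
      (mem_of_orb S (stab_orb _) hv.1 (h u1) e (self_mem_orb _)) (h u2))
    have hD := com_mul (com_pr S.alg α) hC
    refine ⟨u2 - (pr ℓ α * C) *ᵥ u1, ⟨sub_mem a3.1 ?_, ?_⟩, ?_, fun e => a4 ?_⟩
    · rw [← mulVec_mulVec]; exact pr_mulVec_mem _ _
    · rw [mulVec_sub, ← com_mulVec hD F.mq, a1.2, a3.2]
    · rw [mulVec_sub, ← com_mulVec hD hx.mem, ← mulVec_mulVec, e1,
        mem_Vb_iff.1 ((S.alg.dg _ hx.mem).mulVec_mem a3.1), sub_self]
    · simpa using Submodule.add_mem_sup e (CE.mem_orb_com hD u1)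
  obtain ⟨c, c1, c2, -⟩ := F.rk hv hw stab_bot h0
  obtain ⟨m, m1, m2, m3, m4⟩ := F.rk hw hv (stab_orb v) w1
  refine ⟨m, c * x, ⟨m1, α, v, hv, m3 v (self_mem_orb v) hv.2, m4⟩, ⟨F.cr_mul c1 hx, α, w, hw,
    by rw [← mulVec_mulVec, w0, mulVec_zero], fun z => ?_⟩, mat_ext fun z => ?_,
    fun e => mat_ext fun z => ?_⟩
  · rw [← mulVec_mulVec, ← c2]; exact orb_map c1.mem (h z)
  · obtain ⟨C, hC, e⟩ := mem_orb.1 (h z)
    rw [← mulVec_mulVec, ← mulVec_mulVec, ← e, ← com_mulVec hC c1.mem, ← com_mulVec hC m1.mem, c2,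
      m2]
  · obtain ⟨C, hC, e'⟩ := mem_orb.1 (m4 z)
    rw [← mulVec_mulVec, ← mulVec_mulVec, ← e', ← com_mulVec hC hx.mem, e, mulVec_zero,
      mulVec_zero, zero_mulVec]

/-- the corner is simple -/
theorem reg (T : Sub p n) (hm : Cr B a b m) (hv : v ∈ Vb ℓ β) (h0 : m *ᵥ v ≠ 0)
    (h : ∀ x y, Cr B a b x → Cr B a b y → Dl a b (x * m * y) ∈ T) (hx : Cr B a b x) :
    Dl a b x ∈ T := by
  have := (Submodule.span_le (p := T.comap (Dl a b ∘ₗ lr (b * a) x))).2 ?_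
    ((s_REG p n ℓ B F.str).2 m hm.mem β fun e => h0 (by
      rw [← mem_Vb_iff.1 hv, mulVec_mulVec, e, zero_mulVec]))
  · rwa [Submodule.mem_comap, LinearMap.comp_apply, lr_apply, ← hx.l, ← mul_assoc, ← mul_assoc,
      mul_assoc _ _ b, F.cl, mul_assoc _ b, F.qq, hx.l] at this
  · rintro _ ⟨c, hc, c', hc', rfl⟩
    have := h _ _ (F.cr_of hc) (F.cr_mul (F.cr_of hc') hx)
    rw [mul_assoc _ _ m, hm.l, mul_assoc _ _ x, hx.l, ← mul_assoc, ← mul_assoc, mul_assoc _ m,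
      hm.r] at this
    simpa only [SetLike.mem_coe, Submodule.mem_comap, LinearMap.comp_apply, lr_apply,
      mul_assoc] using this

theorem span (T : Sub p n) (h1 : (1 : Mat p n) ∈ T) (h2 : ∀ x ∈ T, ∀ y ∈ T, x * y ∈ T)
    (h : ∀ m, G1 ℓ B a b m → sgl (Dl a b m) ∈ T) (hx : Cr B a b x) : Dl a b x ∈ T := by
  have k : ∀ m, G1 ℓ B a b m → Dl a b m ∈ T := fun m hm => by
    obtain ⟨_, v, a1, a2, a3⟩ := hm.ex
    obtain ⟨m1, m2, b1, b2, rfl, b3⟩ := F.fac hm.toCr a1 a3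
    have c := F.cross (F.in_Dl b1.toCr) (F.in_Dl b2.toCr)
    have := h2 _ (sub_mem (h _ b1) h1) _ (sub_mem (h _ b2) h1)
    simp only [sgl, add_sub_assoc (1 : Mat p n) (Dl a b _), add_sub_cancel_left] at this
    rwa [sub_mul, mul_sub, mul_sub, c.1, c.2, ← st_mul, F.Dl_mul b1.toCr b2.toCr,
      F.Dl_mul b2.toCr b1.toCr, b3 a2, map_zero, st_zero, sub_zero, sub_zero, sub_zero] at this
  obtain ⟨v, hv, v0⟩ := F.ex
  obtain ⟨ρ, a1, a2, -, a3⟩ := F.rk hv hv stab_bot v0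
  refine F.reg T a1 hv.1 (a2.symm ▸ v0) (fun x y hx hy => ?_) hx
  obtain ⟨m1, m2, b1, b2, e, -⟩ := F.fac (F.cr_mul (F.cr_mul hx a1) hy) (v := x *ᵥ v)
    ⟨(F.str.alg.dg _ hx.mem).mulVec_mem hv.1, by rw [mulVec_mulVec, hx.l]⟩ fun z => by
      rw [← mulVec_mulVec, ← mulVec_mulVec]; exact orb_map hx.mem (a3 _)
  rw [e, ← F.Dl_mul b1.toCr b2.toCr]
  exact h2 _ (k _ b1) _ (k _ b2)

end Fm

end Pool.Agent.P.MP_f1a348_lc.LT2
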