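import Pool.Agent.P.MP_f1a348_lc.CE.Base2

/-!
Matrix units with totally singular ends.
-/

namespace Pool.Agent.P.MP_f1a348_lc.LT2

open Matrix Module Pool.Agent.P.MP_f1a348_lc.PG Pool.Agent.P.MP_f1a348_lc.UP
  Pool.Agent.P.MP_f1a348_lc.CE Function

set_option linter.unusedSectionVars false

variable {p n : ℕ} [Fact p.Prime] {ℓ : Ix n → ℕ} {B : Sub p n} {Q : QS p n} {β : Ix n} {N : ℕ}
  {x y : Tup p n} {E : ℕ → ℕ → Mat p n}

/-- orthogonal hyperbolic pairs -/
structure Hy (ℓ : Ix n → ℕ) (B : Sub p n) (Q : QS p n) (β : Ix n) (N : ℕ) (y x : Tup p n) :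
    Prop where
  my : ∀ i < N, y i ∈ Vb ℓ β
  mx : ∀ i < N, x i ∈ Vb ℓ β.rev
  sy : ∀ i < N, Sing Q (y i)
  sx : ∀ i < N, Sing Q (x i)
  yy : ∀ i < N, ∀ j < N, y j ∈ perp (orb (Com B) (y i))
  xx : ∀ i < N, ∀ j < N, x j ∈ perp (orb (Com B) (x i))
  xy : ∀ i < N, ∀ j < N, j ≠ i → y j ∈ perp (orb (Com B) (x i))
  ne : ∀ i < N, y i ∉ perp (orb (Com B) (x i))

theorem hy_ex (hCW : C_CW p n) (hHP : C_HP p n) (G : Geo ℓ B Q) (t : ¬ Triv ℓ B β)
    (hN : 4 * N ≤ db ℓ B β) : ∃ y x, Hy ℓ B Q β N y x := by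
  induction N with
  | zero => exact ⟨0, 0, by constructor <;> exact fun i hi => absurd hi i.not_lt_zero⟩
  | succ N ih =>
    obtain ⟨y, x, h⟩ := ih (by omega)
    have hS := (small_spn G.str fun i hi => ⟨_, h.my i hi⟩).sup G.str.alg
      (small_spn G.str fun i hi => ⟨_, h.mx i hi⟩)
    obtain ⟨u, hu, hn⟩ := hCW ℓ B Q _ ⊥ 0 β G hS.1 small_bot t (rm_of_small G.str hS (by omega))
    rw [sup_bot_eq] at hn
    obtain ⟨v, -, hv, hn', -⟩ := hHP ℓ B Q _ β u G hS.1 hu hn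
    have sy := fun x y => perp_orb_symm (x := x) (y := y) G.str.alg
    have u1 := mem_perp_spn.1 (mem_perp_sup.1 hu.prp).1
    have u2 := mem_perp_spn.1 (mem_perp_sup.1 hu.prp).2
    have v1 := mem_perp_spn.1 (mem_perp_sup.1 hv.prp).1
    have v2 := mem_perp_spn.1 (mem_perp_sup.1 hv.prp).2
    have c : ∀ i < N + 1, (i = N ∧ update y N u i = u ∧ update x N v i = v) ∨
        (i < N ∧ update y N u i = y i ∧ update x N v i = x i) := fun i hi => by
      rcases Nat.lt_succ_iff_lt_or_eq.1 hi with e | rfl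
      · exact Or.inr ⟨e, update_of_ne e.ne _ _, update_of_ne e.ne _ _⟩
      · exact Or.inl ⟨rfl, update_self _ _ _, update_self _ _ _⟩
    refine ⟨update y N u, update x N v, fun i hi => ?_, fun i hi => ?_, fun i hi => ?_,
      fun i hi => ?_, fun i hi j hj => ?_, fun i hi j hj => ?_, fun i hi j hj e => ?_,
      fun i hi => ?_⟩ <;> rcases c i hi with ⟨a, a1, a2⟩ | ⟨a, a1, a2⟩ <;>
      simp only [a1, a2]
    exacts [hu.mem, h.my i a, hv.mem, h.mx i a, hu.sing, h.sy i a, hv.sing, h.sx i a,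
      (c j hj).elim (fun b => b.2.1.symm ▸ hu.sing.isot G.adm)
        fun b => b.2.1.symm ▸ sy _ _ (u1 j b.1),
      (c j hj).elim (fun b => b.2.1.symm ▸ u1 i a) fun b => b.2.1.symm ▸ h.yy i a j b.1,
      (c j hj).elim (fun b => b.2.2.symm ▸ hv.sing.isot G.adm)
        fun b => b.2.2.symm ▸ sy _ _ (v2 j b.1),
      (c j hj).elim (fun b => b.2.2.symm ▸ v2 i a) fun b => b.2.2.symm ▸ h.xx i a j b.1,
      (c j hj).elim (fun b => absurd (b.1.trans a.symm) e) fun b => b.2.1.symm ▸ sy _ _ (v1 j b.1),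
      (c j hj).elim (fun b => b.2.1.symm ▸ u2 i a) fun b => b.2.1.symm ▸ h.xy i a j b.1 e,
      fun e => hn' (sy _ _ e), h.ne i a]

theorem top_of (H : Str ℓ B) {c : Ix n} {x u : Vec p n} (hx : x ∈ Vb ℓ c)
    (hn : u ∉ perp (orb (Com B) x)) : perp (orb (Com B) x) ⊔ orb (Com B) u = ⊤ := by
  have h1 : perp (perp (orb (Com B) x) ⊔ orb (Com B) u) = ⊥ := by
    refine (Submodule.eq_bot_iff _).2 fun w hw => ?_
    obtain ⟨h2, h3⟩ := mem_perp_sup.1 hw
    rw [perp_perp] at h2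
    by_contra h0
    exact hn (perp_orb_symm H.alg (mem_of_orb H ((stab_orb u).perp H.alg) hx h2 h0 h3))
  rw [← perp_perp (_ ⊔ _), h1, perp_bot]

/-- an operator that kills the complement of `x` and the partner of `x` is zero -/
theorem eq_zero_of (H : Str ℓ B) {c : Ix n} {x u : Vec p n} (hx : x ∈ Vb ℓ c)
    (hn : u ∉ perp (orb (Com B) x)) {m : Mat p n} (hm : m ∈ B)
    (h1 : ∀ v ∈ perp (orb (Com B) x), m *ᵥ v = 0) (h2 : m *ᵥ u = 0) : m = 0 :=
  mat_ext fun v => by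
    obtain ⟨k, hk, w, hw, rfl⟩ := Submodule.mem_sup.1 (top_of H hx hn ▸ Submodule.mem_top : v ∈ _)
    obtain ⟨C, hC, rfl⟩ := mem_orb.1 hw
    rw [Matrix.mulVec_add, h1 k hk, ← com_mulVec hC hm, h2, Matrix.mulVec_zero, add_zero,
      Matrix.zero_mulVec]

/-- matrix units -/
structure Mu (ℓ : Ix n → ℕ) (B : Sub p n) (Q : QS p n) (β : Ix n) (N : ℕ) (y x : Tup p n)
    (E : ℕ → ℕ → Mat p n) : Prop extends Hy ℓ B Q β N y x where
  mem : ∀ i j, E i j ∈ B
  val : ∀ i < N, ∀ j < N, E i j *ᵥ y j = y i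
  im : ∀ i < N, ∀ j < N, ∀ v, E i j *ᵥ v ∈ orb (Com B) (y i)
  ims : ∀ i < N, ∀ j < N, ∀ v, st (E i j) *ᵥ v ∈ orb (Com B) (x j)

theorem mu_ex (hCW : C_CW p n) (hHP : C_HP p n) (G : Geo ℓ B Q) (t : ¬ Triv ℓ B β)
    (hN : 4 * N ≤ db ℓ B β) : ∃ y x E, Mu ℓ B Q β N y x E := by
  obtain ⟨y, x, h⟩ := hy_ex hCW hHP G t hN
  have ex : ∀ i j, ∃ m ∈ B, i < N → j < N → m *ᵥ y j = y i ∧ (∀ v, m *ᵥ v ∈ orb (Com B) (y i)) ∧
      ∀ v, st m *ᵥ v ∈ orb (Com B) (x j) := fun i j => by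
    by_cases e : i < N ∧ j < N
    · obtain ⟨m, h1, h2, h3, h4, -⟩ := r1x G.str (h.mx j e.2) (h.my j e.2) (h.ne j e.2) (h.my i e.1)
      exact ⟨m, h1, fun _ _ => ⟨h2, h3, h4⟩⟩
    · exact ⟨0, zero_mem _, fun a b => absurd ⟨a, b⟩ e⟩
  choose E h1 h2 using ex
  exact ⟨y, x, E, h, h1, fun i a j b => (h2 i j a b).1, fun i a j b => (h2 i j a b).2.1,
    fun i a j b => (h2 i j a b).2.2⟩

namespace Mu

variable (h : Mu ℓ B Q β N y x E) {i j k l : ℕ}
include h

theorem ne0 (hi : i < N) : y i ≠ 0 := fun e => h.ne i hi (e ▸ zero_mem _)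

theorem kill (hi : i < N) (hj : j < N) {v : Vec p n} (hv : v ∈ perp (orb (Com B) (x j))) :
    E i j *ᵥ v = 0 := kill_of_ims (h.ims i hi j hj) hv

theorem val0 (hi : i < N) (hj : j < N) (hk : k < N) (e : k ≠ j) : E i j *ᵥ y k = 0 :=
  h.kill hi hj (h.xy j hj k hk e)

theorem mul (S : Str ℓ B) (hi : i < N) (hj : j < N) (hl : l < N) : E i j * E j l = E i l :=
  sub_eq_zero.1 (eq_zero_of S (h.mx l hl) (h.ne l hl)
    (sub_mem (S.alg.mul _ (h.mem _ _) _ (h.mem _ _)) (h.mem _ _)) (fun v hv => by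
      rw [Matrix.sub_mulVec, ← Matrix.mulVec_mulVec, h.kill hj hl hv, h.kill hi hl hv,
        Matrix.mulVec_zero, sub_self]) (by
      rw [Matrix.sub_mulVec, ← Matrix.mulVec_mulVec, h.val j hj l hl, h.val i hi j hj,
        h.val i hi l hl, sub_self]))

theorem mul0 (S : Str ℓ B) (hi : i < N) (hj : j < N) (hk : k < N) (hl : l < N) (e : k ≠ j) :
    E i j * E k l = 0 := mat_ext fun v => by
  rw [← Matrix.mulVec_mulVec, Matrix.zero_mulVec]
  exact h.kill hi hj (orb_le_perp S.alg (stab_orb _) (h.xy j hj k hk e) (h.im k hk l hl v))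

theorem sm0 (S : Str ℓ B) (hi : i < N) (hj : j < N) (hk : k < N) (hl : l < N) :
    st (E i j) * E k l = 0 := mat_ext fun v => by
  rw [← Matrix.mulVec_mulVec, Matrix.zero_mulVec]
  exact kill_of_im (h.im i hi j hj)
    (orb_le_perp S.alg (stab_orb _) (h.yy i hi k hk) (h.im k hk l hl v))

theorem ms0 (S : Str ℓ B) (hi : i < N) (hj : j < N) (hk : k < N) (hl : l < N) :
    E i j * st (E k l) = 0 := mat_ext fun v => by
  rw [← Matrix.mulVec_mulVec, Matrix.zero_mulVec]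
  exact h.kill hi hj (orb_le_perp S.alg (stab_orb _) (h.xx j hj l hl) (h.ims k hk l hl v))

theorem sing_y (G : Geo ℓ B Q) {v : Vec p n} (hv : v ∈ spn B N y) : Sing Q v := by
  have key : ∀ j ≤ N, ∀ v ∈ spn B j y, Sing Q v := fun j hj => by
    induction j with
    | zero => intro v hv; rw [spn_zero] at hv; exact (Submodule.mem_bot _).1 hv ▸ Sing.zero G.adm
    | succ j ih =>
      intro v hv
      rw [spn_succ] at hv
      obtain ⟨a, ha, b, hb, rfl⟩ := Submodule.mem_sup.1 hv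
      exact (ih (by omega) a ha).add G.adm ((h.sy j hj).of_orb G.adm hb)
        (perp_of_perp G.str.alg (stab_orb _) (spn_le ((stab_orb _).perp G.str.alg)
          (fun i hi => h.yy j hj i (by omega)) ha) hb)
  exact key N le_rfl v hv

theorem sing_x (G : Geo ℓ B Q) {v : Vec p n} (hv : v ∈ spn B N x) : Sing Q v := by
  have key : ∀ j ≤ N, ∀ v ∈ spn B j x, Sing Q v := fun j hj => by
    induction j with
    | zero => intro v hv; rw [spn_zero] at hv; exact (Submodule.mem_bot _).1 hv ▸ Sing.zero G.adm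
    | succ j ih =>
      intro v hv
      rw [spn_succ] at hv
      obtain ⟨a, ha, b, hb, rfl⟩ := Submodule.mem_sup.1 hv
      exact (ih (by omega) a ha).add G.adm ((h.sx j hj).of_orb G.adm hb)
        (perp_of_perp G.str.alg (stab_orb _) (spn_le ((stab_orb _).perp G.str.alg)
          (fun i hi => h.xx j hj i (by omega)) ha) hb)
  exact key N le_rfl v hv

end Mu

/-- a sum of matrix units along a diagonal -/
noncomputable def dg (E : ℕ → ℕ → Mat p n) (r s t : ℕ) : Mat p n :=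
  ∑ i ∈ Finset.range r, E (s + i) (t + i)

namespace Mu

variable (h : Mu ℓ B Q β N y x E) {r r' s t s' t' : ℕ}
include h

theorem dg_mem : dg E r s t ∈ B := Submodule.sum_mem _ fun _ _ => h.mem _ _

theorem dg_mul (S : Str ℓ B) (h1 : s + r ≤ N) (h2 : t + r ≤ N) (h3 : t' + r ≤ N) :
    dg E r s t * dg E r t t' = dg E r s t' := by
  rw [dg, dg, dg, Finset.sum_mul]
  refine Finset.sum_congr rfl fun i hi => ?_
  have hi' := Finset.mem_range.1 hi
  rw [Finset.mul_sum, Finset.sum_eq_single i, h.mul S (by omega) (by omega) (by omega)]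
  · exact fun j hj e => h.mul0 S (by omega) (by omega) (by have := Finset.mem_range.1 hj; omega)
      (by have := Finset.mem_range.1 hj; omega) (by omega)
  · exact fun e => absurd hi e

theorem dg_mul0 (S : Str ℓ B) (h1 : s + r ≤ N) (h2 : t + r ≤ N) (h3 : s' + r' ≤ N)
    (h4 : t' + r' ≤ N) (e : t + r ≤ s' ∨ s' + r' ≤ t) : dg E r s t * dg E r' s' t' = 0 := by
  rw [dg, dg, Finset.sum_mul_sum]
  refine Finset.sum_eq_zero fun i hi => Finset.sum_eq_zero fun j hj => ?_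
  have := Finset.mem_range.1 hi
  have := Finset.mem_range.1 hj
  exact h.mul0 S (by omega) (by omega) (by omega) (by omega) (by omega)

theorem st_dg : st (dg E r s t) = ∑ i ∈ Finset.range r, st (E (s + i) (t + i)) :=
  map_sum stL _ _

theorem dg_sm0 (S : Str ℓ B) (h1 : s + r ≤ N) (h2 : t + r ≤ N) (h3 : s' + r' ≤ N)
    (h4 : t' + r' ≤ N) : st (dg E r s t) * dg E r' s' t' = 0 := by
  rw [h.st_dg, dg, Finset.sum_mul_sum]
  refine Finset.sum_eq_zero fun i hi => Finset.sum_eq_zero fun j hj => ?_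
  have := Finset.mem_range.1 hi
  have := Finset.mem_range.1 hj
  exact h.sm0 S (by omega) (by omega) (by omega) (by omega)

theorem dg_ms0 (S : Str ℓ B) (h1 : s + r ≤ N) (h2 : t + r ≤ N) (h3 : s' + r' ≤ N)
    (h4 : t' + r' ≤ N) : dg E r s t * st (dg E r' s' t') = 0 := by
  rw [h.st_dg, dg, Finset.sum_mul_sum]
  refine Finset.sum_eq_zero fun i hi => Finset.sum_eq_zero fun j hj => ?_
  have := Finset.mem_range.1 hi
  have := Finset.mem_range.1 hj
  exact h.ms0 S (by omega) (by omega) (by omega) (by omega)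

theorem dg_im (h1 : s + r ≤ N) (h2 : t + r ≤ N) (v : Vec p n) : dg E r s t *ᵥ v ∈ spn B N y := by
  rw [dg, Matrix.sum_mulVec]
  refine Submodule.sum_mem _ fun i hi => ?_
  have := Finset.mem_range.1 hi
  exact orb_le_spn (by omega) (h.im _ (by omega) _ (by omega) v)

theorem dg_ims (h1 : s + r ≤ N) (h2 : t + r ≤ N) (v : Vec p n) :
    st (dg E r s t) *ᵥ v ∈ spn B N x := by
  rw [h.st_dg, Matrix.sum_mulVec]
  refine Submodule.sum_mem _ fun i hi => ?_
  have := Finset.mem_range.1 hi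
  exact orb_le_spn (by omega) (h.ims _ (by omega) _ (by omega) v)

theorem dg_val (h1 : s + r ≤ N) (h2 : t + r ≤ N) {i : ℕ} (hi : i < r) :
    dg E r s t *ᵥ y (t + i) = y (s + i) := by
  rw [dg, Matrix.sum_mulVec, Finset.sum_eq_single i, h.val _ (by omega) _ (by omega)]
  · exact fun j hj e => h.val0 (by have := Finset.mem_range.1 hj; omega)
      (by have := Finset.mem_range.1 hj; omega) (by omega) (by omega)
  · exact fun e => absurd (Finset.mem_range.2 hi) e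

theorem iso (S : Str ℓ B) : Iso (dg E N 0 0) :=
  ⟨h.dg_mul S (by omega) (by omega) (by omega), h.dg_ms0 S (by omega) (by omega) (by omega) (by omega),
    h.dg_sm0 S (by omega) (by omega) (by omega) (by omega)⟩

/-- square zero elements of the corner are Siegel elements -/
theorem sieg (G : Geo ℓ B Q) {m : Mat p n} (hm : m ∈ B) (h1 : dg E N 0 0 * m = m)
    (h2 : m * dg E N 0 0 = m) (h3 : m * m = 0) : Sieg B Q m := by
  have e : st m = st (dg E N 0 0) * st m := by rw [← st_mul, h2]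
  have e' : st m = st m * st (dg E N 0 0) := by rw [← st_mul, h1]
  refine ⟨hm, h3, ?_, ?_, fun v => ?_, fun v => ?_⟩
  · rw [e', ← h1, mul_assoc, ← mul_assoc (st (dg E N 0 0)), (h.iso G.str).2.2, zero_mul, mul_zero]
  · rw [e, ← h2, mul_assoc, ← mul_assoc (dg E N 0 0), (h.iso G.str).2.1, zero_mul, mul_zero]
  · rw [← h1, ← Matrix.mulVec_mulVec]; exact h.sing_y G (h.dg_im (by omega) (by omega) _)
  · rw [e, ← Matrix.mulVec_mulVec]; exact h.sing_x G (h.dg_ims (by omega) (by omega) _)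

end Mu

theorem dg_two (E : ℕ → ℕ → Mat p n) (r : ℕ) : dg E (r + r) 0 0 = dg E r 0 0 + dg E r r r := by
  simp only [dg, Finset.sum_range_add, zero_add]

/-- the frame `a = dg E r 0 r`, `b = dg E r r 0` -/
theorem Mu.frame {r : ℕ} (h : Mu ℓ B Q β (r + r) y x E) (S : Str ℓ B) :
    dg E r 0 r * dg E r 0 r = 0 ∧ dg E r r 0 * dg E r r 0 = 0 ∧
    dg E r 0 r * dg E r r 0 = dg E r 0 0 ∧ dg E r r 0 * dg E r 0 r = dg E r r r ∧
    dg E r 0 0 * dg E r 0 r = dg E r 0 r ∧ dg E r r r * dg E r r 0 = dg E r r 0 ∧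
    dg E (r + r) 0 0 = dg E r 0 r * dg E r r 0 + dg E r r 0 * dg E r 0 r := by
  have m : ∀ s t u, s ≤ r → t ≤ r → u ≤ r → dg E r s t * dg E r t u = dg E r s u :=
    fun s t u a b c => h.dg_mul S (by omega) (by omega) (by omega)
  refine ⟨h.dg_mul0 S (by omega) (by omega) (by omega) (by omega) (by omega),
    h.dg_mul0 S (by omega) (by omega) (by omega) (by omega) (by omega), m _ _ _ ?_ ?_ ?_,
    m _ _ _ ?_ ?_ ?_, m _ _ _ ?_ ?_ ?_, m _ _ _ ?_ ?_ ?_, by
      rw [dg_two, m 0 r 0 r.zero_le le_rfl r.zero_le, m r 0 r le_rfl r.zero_le le_rfl]⟩ <;> omega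

end Pool.Agent.P.MP_f1a348_lc.LT2
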