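import Pool.Agent.P.MP_f1a348_lc.LT.Fm

/-!
Lemma T in every characteristic: there is no invariant trilinear form on the frame.
-/

namespace Pool.Agent.P.MP_f1a348_lc.LT2

open Matrix Module Pool.Agent.P.MP_f1a348_lc.PG Pool.Agent.P.MP_f1a348_lc.UP
  Pool.Agent.P.MP_f1a348_lc.UP.LT
open Pool.Agent.P.MP_f1a348_lc.CE (sgl orb_map)

set_option linter.unusedSectionVars false

variable {p n : ℕ} [Fact p.Prime] {ℓ : Ix n → ℕ} {B : Sub p n} {α α' β : Ix n}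
  {a b c d e m : Mat p n} {u v w x y z : Vec p n} {S : Set (Mat p n)}
  {g : Vec p n → Vec p n → Vec p n → ZMod p}

/-- additive in every place and invariant -/
structure Tl (S : Set (Mat p n)) (g : Vec p n → Vec p n → Vec p n → ZMod p) : Prop where
  a0 : ∀ x x' y z, g (x + x') y z = g x y z + g x' y z
  a1 : ∀ x y y' z, g x (y + y') z = g x y z + g x y' z
  a2 : ∀ x y z z', g x y (z + z') = g x y z + g x y z'
  inv : ∀ s ∈ S, ∀ x y z, g (s *ᵥ x) (s *ᵥ y) (s *ᵥ z) = g x y z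

theorem Tl.s01 (h : Tl S g) : Tl S fun x y z => g y x z :=
  ⟨fun _ _ _ _ => h.a1 _ _ _ _, fun _ _ _ _ => h.a0 _ _ _ _, fun _ _ _ _ => h.a2 _ _ _ _,
    fun s hs _ _ _ => h.inv s hs _ _ _⟩

theorem Tl.s12 (h : Tl S g) : Tl S fun x y z => g x z y :=
  ⟨fun _ _ _ _ => h.a0 _ _ _ _, fun _ _ _ _ => h.a2 _ _ _ _, fun _ _ _ _ => h.a1 _ _ _ _,
    fun s hs _ _ _ => h.inv s hs _ _ _⟩

/-- the vectors of the two pieces -/
def Pc (ℓ : Ix n → ℕ) (a b : Mat p n) (x : Vec p n) : Prop :=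
  ∃ α v e, Pv ℓ a b α v ∧ (e = 1 ∨ e = a) ∧ x = e *ᵥ v

theorem add0 {G : Set (Vec p n)} (f : Vec p n → ZMod p) (hf : ∀ x y, f (x + y) = f x + f y)
    (h : ∀ x ∈ G, f x = 0) : ∀ x ∈ AddSubmonoid.closure G, f x = 0 := fun x hx => by
  induction hx using AddSubmonoid.closure_induction with
  | mem x hx => exact h x hx
  | zero => simpa using hf 0 0
  | add x y _ _ h1 h2 => rw [hf, h1, h2, add_zero]

theorem sgl_dual (a b m : Mat p n) : sgl (Dl (st b) (st a) (-st m)) = sgl (Dl a b m) := by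
  rw [map_neg, st_Dl, ← CE.sgl_st, st_st]

namespace Fm
variable (F : Fm ℓ B β a b)
include F

theorem act (hm : Cr B a b m) (hv : (b * a) *ᵥ v = v) (he : e = 1 ∨ e = a) :
    sgl (Dl a b m) *ᵥ (e *ᵥ v) = e *ᵥ v + e *ᵥ (m *ᵥ v) := by
  rw [CE.sgl_mulVec, ← F.Dl_vec hv m]
  rcases he with rfl | rfl
  · rw [one_mulVec, one_mulVec, sub_eq_self, ← hv, mulVec_mulVec, ← mul_assoc,
      (F.cross (F.in_Dl hm) F.in_b).2, zero_mul, zero_mulVec]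
  · simp only [mulVec_mulVec, (F.cross (F.in_Dl hm) F.in_a).2, F.Dl_a hm, zero_mulVec, sub_zero]

theorem dec (x : Vec p n) : (a * b + b * a) *ᵥ x ∈ AddSubmonoid.closure {x | Pc ℓ a b x} := by
  rw [eq_sum_pr F.str.lab x, mulVec_sum]
  refine sum_mem fun α _ => ?_
  have hx := pr_mulVec_mem (ℓ := ℓ) α x
  rw [add_mulVec]
  exact add_mem (AddSubmonoid.subset_closure ⟨α, b *ᵥ _, a, ⟨(F.str.alg.dg _ F.mb).mulVec_mem hx,
    by rw [mulVec_mulVec, F.bab]⟩, Or.inr rfl, (mulVec_mulVec _ _ _).symm⟩)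
    (AddSubmonoid.subset_closure ⟨α, _, 1, ⟨(F.str.alg.dg _ F.mq).mulVec_mem hx,
      by rw [mulVec_mulVec, F.qq]⟩, Or.inl rfl, (one_mulVec _).symm⟩)

variable (T : Tl S g) (hS : ∀ m, G1 ℓ B a b m → sgl (Dl a b m) ∈ S)
include T hS

theorem k0 {α1 α2 : Ix n} (hv : Pv ℓ a b α v) (hu : Pv ℓ a b α1 u) (hw : Pv ℓ a b α2 w)
    (he : e = 1 ∨ e = a) (h : ∀ m, Cr B a b m → m *ᵥ u = 0 → m *ᵥ w = 0 →
      (∀ z, m *ᵥ z ∈ orb (Com B) v) → sgl (Dl a b m) *ᵥ y = y ∧ sgl (Dl a b m) *ᵥ z = z) :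
    g (e *ᵥ v) y z = 0 := by
  obtain ⟨m, t, a1, a2, a3, a4, a5, a6⟩ := F.kill hv hu hw
  have := T.inv _ (hS m a1) (e *ᵥ t) y z
  rwa [(h m a1.toCr a4 a5 a6).1, (h m a1.toCr a4 a5 a6).2, F.act a1.toCr a2 he, a3, T.a0,
    add_eq_left] at this

theorem ppp (hx : Pc ℓ a b x) (hy : Pc ℓ a b y) (hz : Pc ℓ a b z) : g x y z = 0 := by
  obtain ⟨_, v, c, hv, hc, rfl⟩ := hx
  obtain ⟨_, u, d, hu, hd, rfl⟩ := hy
  obtain ⟨_, w, e, hw, he, rfl⟩ := hz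
  exact F.k0 T hS hv hu hw hc fun m h h1 h2 _ =>
    ⟨by rw [F.act h hu.2 hd, h1, mulVec_zero, add_zero],
      by rw [F.act h hw.2 he, h2, mulVec_zero, add_zero]⟩

theorem pm0 (hv : Pv ℓ a b α v) (hu : Pv ℓ a b α' u) (hw : (st a * st b) *ᵥ w = w)
    (hc : c = 1 ∨ c = a) (hd : d = 1 ∨ d = a) (he : e = 1 ∨ e = st b)
    (h : w ∈ perp (orb (Com B) v)) : g (c *ᵥ v) (d *ᵥ u) (e *ᵥ w) = 0 :=
  F.k0 T hS hv hu hu hc fun m h0 h1 _ h2 =>
    ⟨by rw [F.act h0 hu.2 hd, h1, mulVec_zero, add_zero], by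
      rw [← sgl_dual, F.dual.act (h0.dual F.str.alg).neg hw he, neg_mulVec, CE.kill_of_im h2 h,
        neg_zero, mulVec_zero, add_zero]⟩

theorem pm1 (hv : Pv ℓ a b α v) (hu : Pv ℓ a b α' u) (hw : (st a * st b) *ᵥ w = w)
    (hc : c = 1 ∨ c = a) (hd : d = 1 ∨ d = a) (he : e = 1 ∨ e = st b)
    (h : u ∉ orb (Com B) v) : g (c *ᵥ v) (d *ᵥ u) (e *ᵥ w) = 0 := by
  obtain ⟨r, a1, a2, a3, -⟩ := F.rk hu hu (stab_orb v) h
  have a4 : (st a * st b) *ᵥ (st r *ᵥ w) = st r *ᵥ w := by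
    rw [mulVec_mulVec, (a1.dual F.str.alg).l]
  rw [← add_sub_cancel (st r *ᵥ w) w, mulVec_add, T.a2, F.pm0 T hS hv hu a4 hc hd he
    (mem_perp_orb.2 fun C hC => by
      rw [← ip_mulVec, ← com_mulVec hC a1.mem, a3 v (self_mem_orb v) hv.2, mulVec_zero,
        ip_zero_left]), zero_add]
  exact (F.pm0 (w := w - st r *ᵥ w) T.s01 hS hu hv (by rw [mulVec_sub, hw, a4]) hd hc he
    (mem_perp_orb.2 fun C hC => by
      rw [ip_sub_right, ← ip_mulVec, ← com_mulVec hC a1.mem, a2, sub_self]) :)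

theorem ppm (hx : Pc ℓ a b x) (hy : Pc ℓ a b y) (hz : Pc ℓ (st b) (st a) z) : g x y z = 0 := by
  obtain ⟨_, v, c, hv, hc, rfl⟩ := hx
  obtain ⟨_, u, d, hu, hd, rfl⟩ := hy
  obtain ⟨_, w, e, hw, he, rfl⟩ := hz
  by_cases h : u ∈ orb (Com B) v
  · by_cases h0 : u = 0
    · simpa [h0] using T.a1 (c *ᵥ v) 0 0 (e *ᵥ w)
    obtain ⟨t, ht, hn⟩ := F.room hu h0 ((small_orb F.str hv.1).mono (by omega))
    rw [← sub_add_cancel u t, mulVec_add, T.a1, F.pm1 T hS hv ht hw.2 hc hd he hn, add_zero]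
    exact F.pm1 T hS hv ⟨sub_mem hu.1 ht.1, by rw [mulVec_sub, hu.2, ht.2]⟩ hw.2 hc hd he
      fun e => hn (by simpa using sub_mem h e)
  · exact F.pm1 T hS hv hu hw.2 hc hd he h

/-- invariant forms vanish -/
theorem g3 (hS' : ∀ m, G1 ℓ B (st b) (st a) m → sgl (Dl (st b) (st a) m) ∈ S) (x y z : Vec p n) :
    g ((a * b + b * a + st (a * b + b * a)) *ᵥ x) ((a * b + b * a + st (a * b + b * a)) *ᵥ y)
      ((a * b + b * a + st (a * b + b * a)) *ᵥ z) = 0 := by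
  have m : ∀ x, (a * b + b * a + st (a * b + b * a)) *ᵥ x ∈
      AddSubmonoid.closure {x | Pc ℓ a b x ∨ Pc ℓ (st b) (st a) x} := fun x => by
    rw [add_mulVec, st_add, st_mul, st_mul]
    exact add_mem (AddSubmonoid.closure_mono (fun _ => Or.inl) (F.dec x))
      (AddSubmonoid.closure_mono (fun _ => Or.inr) (F.dual.dec x))
  have D := F.dual
  have s : ∀ {x}, Pc ℓ a b x → Pc ℓ (st (st a)) (st (st b)) x := fun h => by rwa [st_st, st_st]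
  refine add0 (fun x => g x _ _) (fun _ _ => T.a0 _ _ _ _) (fun x hx => ?_) _ (m x)
  refine add0 (fun y => g x y _) (fun _ _ => T.a1 _ _ _ _) (fun y hy => ?_) _ (m y)
  refine add0 (fun z => g x y z) (fun _ _ => T.a2 _ _ _ _) (fun z hz => ?_) _ (m z)
  rcases hx with hx | hx <;> rcases hy with hy | hy <;> rcases hz with hz | hz
  exacts [F.ppp T hS hx hy hz, F.ppm T hS hx hy hz, (F.ppm T.s12 hS hx hz hy :),
    (D.ppm T.s01.s12 hS' hy hz (s hx) :), (F.ppm T.s01.s12 hS hy hz hx :),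
    (D.ppm T.s12 hS' hx hz (s hy) :), D.ppm T hS' hx hy (s hz), D.ppp T hS' hx hy hz]

end Fm

end Pool.Agent.P.MP_f1a348_lc.LT2
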