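import Pool.Agent.P.MP_f1a348_lc.UP.LT2

/-!
Lemma T in every characteristic: perfect groups that commute with an element of order prime to `p`.
-/

namespace Pool.Agent.P.MP_f1a348_lc.LT2

open Matrix Module Pool.Agent.P.MP_f1a348_lc.PG Pool.Agent.P.MP_f1a348_lc.UP
  Pool.Agent.P.MP_f1a348_lc.KT Pool.Agent.P.MP_f1a348_lc.UP.LT

set_option linter.unusedSectionVars false

variable {p n : ℕ}

/-- the sum of the first `t` powers of `τ` -/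
noncomputable def sm (τ : GG p n) (t : ℕ) : Mat p n := ∑ i ∈ Finset.range t, (τ ^ i).1

/-- the vectors of `W` that are killed by the sum of the powers of `τ` -/
noncomputable def Vm (τ : GG p n) (t : ℕ) (W : VS p n) : VS p n := W ⊓ LinearMap.ker (mv (sm τ t))

theorem mem_Vm {τ : GG p n} {t : ℕ} {W : VS p n} {u : Vec p n} :
    u ∈ Vm τ t W ↔ u ∈ W ∧ sm τ t *ᵥ u = 0 := by simp [Vm]

theorem sum_shift {M : Type} [AddCommGroup M] {τ : GG p n} {t : ℕ} (h : τ ^ t = 1)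
    (g : GG p n → M) :
    ∑ i ∈ Finset.range t, g (τ ^ (i + 1)) = ∑ i ∈ Finset.range t, g (τ ^ i) := by
  have := (Finset.sum_range_succ (fun i => g (τ ^ i)) t).symm.trans
    (Finset.sum_range_succ' (fun i => g (τ ^ i)) t)
  rw [h, pow_zero] at this
  exact (add_right_cancel this).symm

theorem mul_sm {τ : GG p n} {t : ℕ} (h : τ ^ t = 1) : τ.1 * sm τ t = sm τ t := by
  rw [sm, Finset.mul_sum, ← sum_shift h fun g => g.1]
  exact Finset.sum_congr rfl fun i _ => by rw [pow_succ', val_mul]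

theorem sm_comm {τ z : GG p n} (h : z * τ = τ * z) (t : ℕ) : z.1 * sm τ t = sm τ t * z.1 := by
  rw [sm, Finset.mul_sum, Finset.sum_mul]
  exact Finset.sum_congr rfl fun i _ => by
    rw [← val_mul, ← val_mul, (Commute.pow_right h i).eq]

theorem pow_fix {τ : GG p n} {u : Vec p n} (h : τ.1 *ᵥ u = u) (i : ℕ) : (τ ^ i).1 *ᵥ u = u := by
  induction i with
  | zero => exact Matrix.one_mulVec u
  | succ i ih => rw [pow_succ, val_mul, ← Matrix.mulVec_mulVec, h, ih]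

theorem sm_mulVec (τ : GG p n) (t : ℕ) (u : Vec p n) :
    sm τ t *ᵥ u = ∑ i ∈ Finset.range t, (τ ^ i).1 *ᵥ u := Matrix.sum_mulVec _ _ _

theorem sm_fix {τ : GG p n} {u : Vec p n} (h : τ.1 *ᵥ u = u) (t : ℕ) :
    sm τ t *ᵥ u = (t : ZMod p) • u := by
  simp only [sm_mulVec, pow_fix h, Finset.sum_const, Finset.card_range, Nat.cast_smul_eq_nsmul]

theorem sm_mem {B : Sub p n} {Y : SG p n} (h : Env Y ≤ B) {τ : GG p n} (hτ : τ ∈ Y) (t : ℕ) :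
    sm τ t ∈ B := B.sum_mem fun i _ => h (env_mem (Y.pow_mem hτ i))

variable [Fact p.Prime]

/-- the projection that kills the fixed vectors of `τ` -/
noncomputable def mp (τ : GG p n) (t : ℕ) : Mat p n := 1 - (t : ZMod p)⁻¹ • sm τ t

theorem mp_mulVec (τ : GG p n) (t : ℕ) (u : Vec p n) :
    mp τ t *ᵥ u = u - (t : ZMod p)⁻¹ • sm τ t *ᵥ u := by
  rw [mp, Matrix.sub_mulVec, Matrix.one_mulVec, Matrix.smul_mulVec]

theorem mp_comm {τ z : GG p n} (h : z * τ = τ * z) (t : ℕ) : z.1 * mp τ t = mp τ t * z.1 := by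
  rw [mp, mul_sub, sub_mul, mul_smul_comm, smul_mul_assoc, sm_comm h, mul_one, one_mul]

/-- `τ` has order prime to `p` and commutes with the perfect group `Z`, which fixes the fixed
vectors of `τ`; on the complement the simple sections are large, have dimension `k`, and there is
no invariant trilinear form -/
structure Tz (Z : SG p n) (τ : GG p n) (t k : ℕ) : Prop where
  ne : (t : ZMod p) ≠ 0
  pow : τ ^ t = 1
  cen : ∀ z ∈ Z, z * τ = τ * z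
  pp : PP p Z
  fix : ∀ z ∈ Z, ∀ u, τ.1 *ᵥ u = u → z.1 *ᵥ u = u
  sec : ∀ L U, SS (Env Z) L U → U ≤ Vm τ t ⊤ → finrank (ZMod p) U = finrank (ZMod p) L + k ∧
    200 * (2 * n + 1) + finrank (ZMod p) (ann (Env Z) L U) ≤ finrank (ZMod p) (Env Z)
  inv3 : ∀ w : Frm p n, (∀ z ∈ Z, ∀ x : Fin 3 → Vec p n, (∀ j, x j ∈ Vm τ t ⊤) →
    ev w (fun j => z.1 *ᵥ x j) = ev w x) → ∀ x : Fin 3 → Vec p n, (∀ j, x j ∈ Vm τ t ⊤) →
    ev w x = 0

variable {Z : SG p n} {τ : GG p n} {t k : ℕ} {ℓ : Ix n → ℕ} {B : Sub p n} {W : VS p n}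
  {u : Vec p n}

theorem sm_sm (h : τ ^ t = 1) (u : Vec p n) :
    sm τ t *ᵥ (sm τ t *ᵥ u) = (t : ZMod p) • sm τ t *ᵥ u :=
  sm_fix (by rw [Matrix.mulVec_mulVec, mul_sm h]) t

theorem sm_mp (ht : (t : ZMod p) ≠ 0) (h : τ ^ t = 1) (u : Vec p n) :
    sm τ t *ᵥ (mp τ t *ᵥ u) = 0 := by
  rw [mp_mulVec, Matrix.mulVec_sub, Matrix.mulVec_smul, sm_sm h, smul_smul,
    inv_mul_cancel₀ ht, one_smul, sub_self]

theorem mp_of_vm (hu : u ∈ Vm τ t W) : mp τ t *ᵥ u = u := by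
  rw [mp_mulVec, (mem_Vm.1 hu).2, smul_zero, sub_zero]

theorem fix_of_mp (h : τ ^ t = 1) (hu : mp τ t *ᵥ u = 0) : τ.1 *ᵥ u = u := by
  rw [mp_mulVec, sub_eq_zero] at hu
  conv_lhs => rw [hu]
  rw [Matrix.mulVec_smul, Matrix.mulVec_mulVec, mul_sm h, ← hu]

theorem fix_vm (ht : (t : ZMod p) ≠ 0) (h : τ.1 *ᵥ u = u) (hu : u ∈ Vm τ t W) : u = 0 :=
  (smul_eq_zero.1 ((sm_fix h t).symm.trans (mem_Vm.1 hu).2)).resolve_left ht

theorem vm_top (hu : u ∈ Vm τ t W) : u ∈ Vm τ t ⊤ := ⟨trivial, hu.2⟩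

theorem inv_vm (h : ∀ z ∈ Z, z * τ = τ * z) (hW : Inv (Env Z) W) : Inv (Env Z) (Vm τ t W) :=
  inv_env fun z hz u hu => mem_Vm.2 ⟨hW _ (env_mem hz) u hu.1, by
    rw [Matrix.mulVec_mulVec, ← sm_comm (h z hz), ← Matrix.mulVec_mulVec, (mem_Vm.1 hu).2,
      Matrix.mulVec_zero]⟩

theorem Tz.hom (h : Tz Z τ t k) {P : VS p n} (hP : Inv (Env Z) P) (c : P ≤ Vm τ t ⊤)
    {W : Type} [AddCommGroup W] [Module (ZMod p) W] [Module.Finite (ZMod p) W]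
    (φ : W →ₗ[ZMod p] Vec p n →ₗ[ZMod p] Vec p n) (H : Submodule (ZMod p) W)
    (hH : ∀ w ∈ H, ∀ z ∈ Z, ∀ u ∈ P, φ w (z.1 *ᵥ u) = z.1 *ᵥ φ w u) :
    200 * finrank (ZMod p) H ≤ 200 * finrank (ZMod p) (Kl φ H P) + finrank (ZMod p) P := by
  have := homb (Env Z) env_mul P hP (200 * (2 * n + 1)) (fun L U a b => (h.sec L U a (b.trans c)).2)
    φ H fun w hw a ha u hu => sub_eq_zero.1
      (env_le (S := LinearMap.ker (φ w ∘ₗ evx u - evx (φ w u)))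
        (fun z hz => sub_eq_zero.2 (hH w hw z hz u hu)) ha)
  refine Nat.le_of_mul_le_mul_right ?_ (Nat.succ_pos (2 * n))
  change _ * (2 * n + 1) ≤ _ * (2 * n + 1)
  linarith

theorem inv_bot {R : Sub p n} : Inv R ⊥ := fun x _ u hu => by
  rw [(Submodule.mem_bot _).1 hu, Matrix.mulVec_zero]; exact zero_mem _

theorem Tz.sub (h : Tz Z τ t k) {P : VS p n} (hP : Inv (Env Z) P) (c : P ≤ Vm τ t ⊤)
    (h0 : P ≠ ⊥) : ∃ N ≤ P, Inv (Env Z) N ∧ N ≠ ⊥ ∧ finrank (ZMod p) N = k := by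
  obtain ⟨N, a, b⟩ := exists_ss inv_bot hP (bot_lt_iff_ne_bot.2 h0)
  exact ⟨N, b, a.invU, a.lt.ne', by simpa using (h.sec _ _ a (b.trans c)).1⟩

theorem Tz.kern (h : Tz Z τ t k) {A : VS p n} (hA : Inv (Env Z) A) (c : A ≤ Vm τ t ⊤)
    (S : Mat p n) (hS : ∀ z ∈ Z, z.1 * S = S * z.1)
    (g : Vec p n →ₗ[ZMod p] Vec p n →ₗ[ZMod p] Vec p n →ₗ[ZMod p] ZMod p) (H : VS p n)
    (hg : ∀ z ∈ Z, ∀ w ∈ H, ∀ x ∈ A, ∀ y,
      g w (z.1 *ᵥ x) (z.1 *ᵥ (S *ᵥ y)) = g w x (S *ᵥ y)) :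
    ∃ K ≤ H, 200 * finrank (ZMod p) H ≤ 200 * finrank (ZMod p) K + finrank (ZMod p) A ∧
      ∀ w ∈ K, ∀ x ∈ A, ∀ y, g w x (S *ᵥ y) = 0 := by
  let φ := g.compr₂ (dv ∘ₗ LinearMap.lcomp (ZMod p) (ZMod p) (mv S))
  have e : ∀ w x y, ip (φ w x) y = g w x (S *ᵥ y) := fun w x y => by
    simp [φ, ip_dv]
  refine ⟨Kl φ H A, inf_le_left, h.hom hA c φ H fun w hw z hz x hx => ip_ext fun y => ?_,
    fun w hw x hx y => by rw [← e, (mem_Kl.1 hw).2 x hx, ip_zero_left]⟩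
  rw [ip_mulVec, e, e, ← hg z hz w hw x hx (st z.1 *ᵥ y), Matrix.mulVec_mulVec _ z.1, hS z hz,
    ← Matrix.mulVec_mulVec, z.2.2.1.mulVec_st]

theorem Tz.cb (h : Tz Z τ t k) (hB : Str ℓ B) (hZ : Env Z ≤ B) {N : VS p n}
    (hN : Inv (Env Z) N) (c : N ≤ Vm τ t ⊤) (h0 : N ≠ ⊥) {b : Ix n} (hb : N ≤ Vb ℓ b) (a : Ix n) :
    200 * finrank (ZMod p) (Cb ℓ B a b) ≤ finrank (ZMod p) N := by
  have := h.hom hN c mv (Cb ℓ B a b) fun C hC z hz u _ => by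
    simpa using com_mulVec hC.1 (hZ (env_mem hz)) u
  obtain ⟨x, hx, x0⟩ := Submodule.exists_mem_ne_zero_of_ne_bot h0
  have e : Kl mv (Cb ℓ B a b) N = ⊥ := eq_bot_iff.2 fun C hC =>
    cb_inj hB (mem_Kl.1 hC).1 (hb hx) x0 (by simpa using (mem_Kl.1 hC).2 x hx)
  rw [e, finrank_bot] at this
  omega

section
variable {Y : SG p n} (hB : Str ℓ B) (hY : Env Y ≤ B) (hτ : τ ∈ Y)
include hB hY hτ

theorem Tz.proj (h : Tz Z τ t k) {b : Ix n} (hu : u ∈ Vb ℓ b) : mp τ t *ᵥ u ∈ Vm τ t (Vb ℓ b) :=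
  mem_Vm.2 ⟨by
    rw [mp_mulVec]
    exact sub_mem hu (Submodule.smul_mem _ _ ((hB.alg.dg _ (sm_mem hY hτ t)).mulVec_mem hu)),
    sm_mp h.ne h.pow u⟩

theorem Tz.ne_bot (h : Tz Z τ t k) {b : Ix n} (hu : u ∈ Vb ℓ b) (h0 : τ.1 *ᵥ u ≠ u) :
    Vm τ t (Vb ℓ b) ≠ ⊥ := fun e =>
  h0 (fix_of_mp h.pow ((Submodule.mem_bot _).1 (e ▸ h.proj hB hY hτ hu)))

theorem Tz.rk (h : Tz Z τ t k) {b : Ix n} {K : VS p n} (hK : K ≤ Ep (mv τ.1) (Vb ℓ b)) :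
    finrank (ZMod p) (Vb ℓ b : VS p n) + finrank (ZMod p) K ≤
      finrank (ZMod p) (K ⊔ Vm τ t (Vb ℓ b) : VS p n) +
        finrank (ZMod p) (Ep (mv τ.1) (Vb ℓ b)) := by
  have a1 := KT.rk (mv (mp τ t)) (Vb ℓ b)
  have a2 : finrank (ZMod p) ((Vb ℓ b).map (mv (mp τ t))) ≤ finrank (ZMod p) (Vm τ t (Vb ℓ b)) :=
    Submodule.finrank_mono (by
      rintro _ ⟨x, hx, rfl⟩
      rw [mv_apply]
      exact h.proj hB hY hτ hx)
  have a3 : finrank (ZMod p) (Vb ℓ b ⊓ LinearMap.ker (mv (mp τ t)) : VS p n) ≤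
      finrank (ZMod p) (Ep (mv τ.1) (Vb ℓ b)) := Submodule.finrank_mono fun x hx =>
    mem_Ep.2 ⟨hx.1, (mv_apply _ _).trans (fix_of_mp h.pow ((mv_apply _ _).symm.trans hx.2))⟩
  have a4 := Submodule.finrank_sup_add_finrank_inf_eq K (Vm τ t (Vb ℓ b))
  have a5 : K ⊓ Vm τ t (Vb ℓ b) = ⊥ := eq_bot_iff.2 fun x hx =>
    fix_vm h.ne (ep_fix x (hK hx.1)) hx.2
  rw [a5, finrank_bot] at a4
  omega

omit hB in
theorem opp (ht : (t : ZMod p) ≠ 0) {C : Mat p n} (hC : C ∈ Com B) {x y : Vec p n}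
    (e : (τ.1 *ᵥ x = x ∧ y ∈ Vm τ t ⊤) ∨ (x ∈ Vm τ t ⊤ ∧ τ.1 *ᵥ y = y)) : evP C x y = 0 := by
  have s : ∑ i ∈ Finset.range t, evP C ((τ ^ i).1 *ᵥ x) ((τ ^ i).1 *ᵥ y) = t * evP C x y := by
    simp only [fun i => evP_inv hC (hY (env_mem (Y.pow_mem hτ i))) x y, Finset.sum_const,
      Finset.card_range, nsmul_eq_mul]
  refine (mul_eq_zero.1 (s.symm.trans ?_)).resolve_left ht
  rcases e with e | e
  · simp only [pow_fix e.1]
    rw [← map_sum, ← sm_mulVec, (mem_Vm.1 e.2).2, map_zero]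
  · simp only [pow_fix e.2]
    rw [← LinearMap.sum_apply, ← map_sum, ← sm_mulVec, (mem_Vm.1 e.1).2, map_zero,
      LinearMap.zero_apply]

end

end Pool.Agent.P.MP_f1a348_lc.LT2
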