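import Pool.Agent.P.MP_f1a348_lc.AF.Iface
import Pool.Agent.P.MP_f1a348_lc.LT.Tz

/-!
Lifting an element of order prime to `p` and a perfect group that commutes with it.
-/

namespace Pool.Agent.P.MP_f1a348_lc.UP.CU.AF

open Matrix Module Pool.Agent.P.MP_f1a348_lc.PG

/-- a coset of a normal `p`-subgroup that is stable under `τ` meets the centraliser of `τ` -/
theorem cen_lift {Γ : Type} [Group Γ] [Finite Γ] {p t : ℕ} [Fact p.Prime] (tp : t.Prime)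
    (tn : (t : ZMod p) ≠ 0) {N : Subgroup Γ} (hN : IsPGroup p N) {τ x : Γ} (h1 : τ ^ t = 1)
    (h : ∀ y ∈ N, x⁻¹ * (τ * (x * y) * τ⁻¹) ∈ N) : ∃ y ∈ N, x * y * τ = τ * (x * y) := by
  classical
  have := Fact.mk tp
  have := Fintype.ofFinite N
  let f : Function.End N := fun y => ⟨_, h y.1 y.2⟩
  have e : ∀ j : ℕ, ∀ y : N, ((f ^ j) y).1 = x⁻¹ * (τ ^ j * (x * y) * (τ ^ j)⁻¹) := fun j y => by
    induction j with
    | zero => simp; rfl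
    | succ j ih =>
      rw [pow_succ']
      show x⁻¹ * (τ * (x * ((f ^ j) y).1) * τ⁻¹) = _
      rw [ih, pow_succ']
      group
  have e1 := Equiv.Perm.card_fixedPoints_modEq (f := f) (p := t) (n := 1)
    (funext fun y => Subtype.ext (by rw [pow_one, e, h1]; simp; rfl))
  by_contra hc
  have : IsEmpty f.fixedPoints := ⟨fun ⟨y, hy⟩ => hc ⟨y, y.2, by
    have : x⁻¹ * (τ * (x * y) * τ⁻¹) = y := congrArg Subtype.val hy
    conv_lhs => rw [← this]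
    group⟩⟩
  obtain ⟨k, hk⟩ := hN.exists_card_eq
  rw [Fintype.card_eq_zero (α := f.fixedPoints), ← Nat.card_eq_fintype_card, hk,
    Nat.modEq_zero_iff_dvd] at e1
  rw [(Nat.prime_dvd_prime_iff_eq tp Fact.out).1 (tp.dvd_of_dvd_pow e1)] at tn
  exact tn (ZMod.natCast_self p)

theorem val_pow {p n : ℕ} (g : GG p n) (m : ℕ) : (g ^ m).1 = g.1 ^ m := by
  induction m with
  | zero => rfl
  | succ m ih => rw [pow_succ, pow_succ, val_mul, ih]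

theorem tz_grp {p n : ℕ} [Fact p.Prime] (b : TB p n) {W : SG p n} {f : GG p n} {ℓ : Ix n → ℕ}
    (hl : Lab ℓ) (ht : TriR (Env W) f ℓ) {τ0 : Mat p n} (h0 : τ0 ∈ gi f ℓ W) {t : ℕ}
    (tp : t.Prime) (tn : (t : ZMod p) ≠ 0) (h1 : τ0 ^ t = 1) {Zb : Set (Mat p n)} (zg : Grp Zb)
    (zp : PPs Zb) (zs : Zb ⊆ gi f ℓ W) (zc : ∀ z ∈ Zb, z * τ0 = τ0 * z)
    (zf : ∀ z ∈ Zb, ∀ u, τ0 *ᵥ u = u → z *ᵥ u = u) :
    ∃ τ ∈ W, ∃ Z ≤ W, gr ℓ (fr f τ.1) = τ0 ∧ τ ^ t = 1 ∧ (∀ z ∈ Z, z * τ = τ * z) ∧ PP p Z ∧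
      gi f ℓ Z = Zb ∧ (∀ z ∈ Z, ∀ u, τ.1 *ᵥ u = u → z.1 *ᵥ u = u) ∧
      gr ℓ (fr f (LT2.sm τ t)) = ∑ i ∈ Finset.range t, τ0 ^ i := by
  obtain ⟨-, -, -, -, g5, -, g7, -, g9, g10, -⟩ := b.gi W f ℓ hl ht
  have hR := (b.env.1 W).1
  have em := (b.env.1 W).2.1
  have mu : ∀ x ∈ W, ∀ y ∈ W, gr ℓ (fr f (x * y).1) = gr ℓ (fr f x.1) * gr ℓ (fr f y.1) :=
    fun x hx y hy => g5 _ (em x hx) _ (em y hy)
  have pw : ∀ x ∈ W, ∀ m : ℕ, gr ℓ (fr f (x ^ m).1) = gr ℓ (fr f x.1) ^ m := fun x hx m => by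
    induction m with
    | zero => exact g7
    | succ m ih => rw [pow_succ, pow_succ, mu _ (pow_mem hx m) _ hx, ih]
  obtain ⟨τ, hτ, e0, e1⟩ : ∃ τ ∈ W, gr ℓ (fr f τ.1) = τ0 ∧ τ ^ t = 1 := by
    obtain ⟨u, hu, e⟩ := h0
    obtain ⟨k, hk⟩ := g9 _ (pow_mem hu t) (by rw [pw u hu, e, h1])
    have c : Nat.Coprime (p ^ k) t := ((Nat.coprime_primes Fact.out tp).2 fun e =>
      tn (e ▸ ZMod.natCast_self p)).pow_left k
    obtain ⟨j, -, hj⟩ := Nat.exists_mul_mod_eq_one_of_coprime c tp.one_lt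
    refine ⟨u ^ (p ^ k * j), pow_mem hu _, ?_, ?_⟩
    · rw [pw u hu, e, ← Nat.div_add_mod (p ^ k * j) t, hj, pow_succ, pow_mul, h1, one_pow, one_mul]
    · rw [← pow_mul, mul_comm, ← mul_assoc, pow_mul, pow_mul, hk, one_pow]
  have es : gr ℓ (fr f (LT2.sm τ t)) = ∑ i ∈ Finset.range t, τ0 ^ i := by
    simp only [LT2.sm, map_sum, pw τ hτ, e0]
  let N : SG p n := sg (fun x => x ∈ W ∧ gr ℓ (fr f x.1) = 1) ⟨one_mem _, g7⟩ fun x y hx hy =>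
    ⟨mul_mem hx.1 hy.1, by rw [mu x hx.1 y hy.1, hx.2, hy.2, mul_one]⟩
  let C : SG p n := sg (fun x => x ∈ W ∧ x * τ = τ * x ∧ gr ℓ (fr f x.1) ∈ Zb)
    ⟨one_mem _, by simp, g7 ▸ zg.one⟩ fun x y hx hy => ⟨mul_mem hx.1 hy.1,
      by rw [mul_assoc, hy.2.1, ← mul_assoc, hx.2.1, mul_assoc],
      mu x hx.1 y hy.1 ▸ zg.mul _ hx.2.2 _ hy.2.2⟩
  have hC : Zb ⊆ gi f ℓ C := fun z hz => by
    obtain ⟨x, hx, rfl⟩ := zs hz
    obtain ⟨y, hy, e⟩ := cen_lift tp tn (N := N)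
      (fun y => (g9 y.1 y.2.1 y.2.2).imp fun k hk => Subtype.ext hk) (x := x) e1 fun y hy => by
        have a := mul_mem hx hy.1
        have a' := mul_mem hτ a
        refine ⟨mul_mem (inv_mem hx) (mul_mem a' (inv_mem hτ)), ?_⟩
        rw [mu _ (inv_mem hx) _ (mul_mem a' (inv_mem hτ)), mu _ a' _ (inv_mem hτ), mu _ hτ _ a,
          mu _ hx _ hy.1, hy.2, mul_one, e0, ← zc _ hz, ← e0, mul_assoc, ← mu _ hτ _ (inv_mem hτ),
          mul_inv_cancel, val_one, g7, mul_one, ← mu _ (inv_mem hx) _ hx, inv_mul_cancel, val_one, g7]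
    have e' : gr ℓ (fr f (x * y).1) = gr ℓ (fr f x.1) := by rw [mu _ hx _ hy.1, hy.2, mul_one]
    exact ⟨x * y, ⟨mul_mem hx hy.1, e, e' ▸ hz⟩, e'⟩
  obtain ⟨o1, o2, -⟩ := (b.op (GG p n)).1 C
  refine ⟨τ, hτ, Op p C, fun z hz => (o1 hz).1, e0, e1, fun z hz => (o1 hz).2.1, o2,
    Set.Subset.antisymm (fun _ ⟨z, hz, e⟩ => e ▸ (o1 hz).2.2)
      (g10 C (fun z hz => hz.1) Zb zg zp hC), fun z hz => ?_, es⟩
  let M : SG p n := sg (fun x => ∀ u, τ.1 *ᵥ u = u → x.1 *ᵥ u = u)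
    (fun u _ => Matrix.one_mulVec u) fun x y hx hy u hu => by
      rw [val_mul, ← Matrix.mulVec_mulVec, hy u hu, hx u hu]
  have fx : ∀ x ∈ C, ∀ u, τ.1 *ᵥ u = u → τ.1 *ᵥ (x.1 *ᵥ u) = x.1 *ᵥ u := fun x hx u hu => by
    rw [Matrix.mulVec_mulVec, ← val_mul, ← hx.2.1, val_mul, ← Matrix.mulVec_mulVec, hu]
  refine (b.op (GG p n)).2.2.1 _ M o2 (fun x hx y hy u hu => ?_) (fun x hx => ?_) hz
  · rw [val_mul, val_mul, ← Matrix.mulVec_mulVec, ← Matrix.mulVec_mulVec,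
      hy _ (fx _ (inv_mem (o1 hx)) u hu), val_inv, x.2.2.1.mulVec_st]
  have xc := o1 hx
  have a1 := sub_mem (em x xc.1) hR.one
  have a2 := LT2.sm_mem (le_refl (Env W)) hτ t
  obtain ⟨k, hk⟩ := ((b.rad _ f ℓ hR hl ht).2.1 _ (hR.mul _ a1 _ a2) (by
    rw [g5 _ a1 _ a2, es, map_sub, map_sub, g7]
    refine mat_ext fun v => ?_
    rw [← Matrix.mulVec_mulVec, Matrix.sub_mulVec, Matrix.one_mulVec, zf _ xc.2.2, sub_self,
      Matrix.zero_mulVec]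
    rw [Matrix.mulVec_mulVec]
    congr 1
    have := mul_neg_geom_sum τ0 t
    rw [h1, sub_self, sub_mul, one_mul, sub_eq_zero] at this
    exact this.symm)).2 1 hR.one
  refine ⟨k, fun u hu => ?_⟩
  have a3 : ∀ m : ℕ, τ.1 *ᵥ ((x.1 - 1) ^ m *ᵥ u) = (x.1 - 1) ^ m *ᵥ u ∧
      ((x.1 - 1) * LT2.sm τ t) ^ m *ᵥ u = (t : ZMod p) ^ m • (x.1 - 1) ^ m *ᵥ u := fun m => by
    induction m with
    | zero => simpa using hu
    | succ m ih =>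
      rw [pow_succ', pow_succ' (_ * _), ← Matrix.mulVec_mulVec, ← Matrix.mulVec_mulVec, ih.2,
        ← Matrix.mulVec_mulVec, Matrix.mulVec_smul, Matrix.mulVec_smul, LT2.sm_fix ih.1,
        Matrix.mulVec_smul, smul_smul, pow_succ]
      refine ⟨?_, rfl⟩
      rw [Matrix.sub_mulVec, Matrix.one_mulVec, Matrix.mulVec_sub, fx x xc _ ih.1, ih.1]
  have a4 := (a3 (p ^ k)).2
  rw [mul_one] at hk
  rw [pow_eq_zero_of_le (Nat.lt_pow_self (Fact.out : p.Prime).one_lt).le hk, Matrix.zero_mulVec,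
    eq_comm, smul_eq_zero_iff_right (pow_ne_zero _ tn),
    sub_pow_char_pow_of_commute p k (Commute.one_right x.1), one_pow, Matrix.sub_mulVec,
    Matrix.one_mulVec, sub_eq_zero] at a4
  rwa [val_pow]

end Pool.Agent.P.MP_f1a348_lc.UP.CU.AF
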