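import Pool.Agent.P.MP_f1a348_lc.LT.Un
import Pool.Agent.P.MP_f1a348_lc.LT.Tz
import Pool.Agent.P.MP_f1a348_lc.AF.Defs

/-!
There is no invariant trilinear form on the natural modules of the special linear group.
-/

namespace Pool.Agent.P.MP_f1a348_lc.LT2

open Matrix Module Pool.Agent.P.MP_f1a348_lc.PG Pool.Agent.P.MP_f1a348_lc.UP
  Pool.Agent.P.MP_f1a348_lc.CE Pool.Agent.P.MP_f1a348_lc.UP.LT

namespace Inv3

variable {p n : ℕ} [Fact p.Prime] {r : ℕ}

abbrev T3 (p n : ℕ) : Type := Vec p n →ₗ[ZMod p] Vec p n →ₗ[ZMod p] Vec p n →ₗ[ZMod p] ZMod p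

/-- `H a b` adds a multiple of `u a` to `u b` -/
def Up (r : ℕ) (H : ℕ → ℕ → Mat p n) (s : ZMod p) (u : ℕ → Vec p n) : Prop :=
  ∀ a < r, ∀ b < r, a ≠ b → H a b *ᵥ u b = u b + s • u a ∧ ∀ j < r, j ≠ b → H a b *ᵥ u j = u j

theorem core (hr : 4 ≤ r) (T : T3 p n) (H : ℕ → ℕ → Mat p n)
    (hT : ∀ a < r, ∀ b < r, a ≠ b → ∀ x y z, T (H a b *ᵥ x) (H a b *ᵥ y) (H a b *ᵥ z) = T x y z)
    {s s' : ZMod p} (hs : s ≠ 0) {u v w : ℕ → Vec p n} (hu : Up r H s u) (hv : Up r H s v)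
    (hw : Up r H s w ∨ Up r (fun a b => H b a) s' w) :
    ∀ i < r, ∀ j < r, ∀ k < r, T (u i) (v j) (w k) = 0 := by
  have fresh : ∀ i j k : ℕ, ∃ l < r, l ≠ i ∧ l ≠ j ∧ l ≠ k := fun i j k => by
    by_contra! c
    have h0 := c 0 (by omega)
    have h1 := c 1 (by omega)
    have h2 := c 2 (by omega)
    have h3 := c 3 (by omega)
    omega
  have one : ∀ (T : T3 p n) (u v : ℕ → Vec p n), (∀ a < r, ∀ b < r, a ≠ b → ∀ x y z,
      T (H a b *ᵥ x) (H a b *ᵥ y) (H a b *ᵥ z) = T x y z) → Up r H s u → Up r H s v →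
      ∀ i < r, ∀ j < r, ∀ k < r, (∀ l < r, l ≠ i → l ≠ k → H i l *ᵥ w k = w k) →
      T (u i) (v j) (w k) = 0 := fun T u v hT hu hv i hi j hj k hk e => by
    obtain ⟨l, hl, l1, l2, l3⟩ := fresh i j k
    have := hT i hi l hl l1.symm (u l) (v j) (w k)
    rw [(hu i hi l hl l1.symm).1, (hv i hi l hl l1.symm).2 j hj l2.symm, e l hl l1 l3, map_add,
      map_smul] at this
    simpa [hs] using this
  rcases hw with hw | hw
  · exact fun i hi j hj k hk => one T u v hT hu hv i hi j hj k hk fun l hl a b =>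
      (hw i hi l hl a.symm).2 k hk b.symm
  have o1 : ∀ i < r, ∀ j < r, ∀ k < r, k ≠ i → T (u i) (v j) (w k) = 0 :=
    fun i hi j hj k hk e => one T u v hT hu hv i hi j hj k hk fun l hl a _ =>
      (hw l hl i hi a).2 k hk e
  have o2 : ∀ i < r, ∀ j < r, ∀ k < r, k ≠ j → T (u i) (v j) (w k) = 0 :=
    fun i hi j hj k hk e => one T.flip v u (fun a ha b hb c x y z => hT a ha b hb c y x z) hv hu
      j hj i hi k hk fun l hl a _ => (hw l hl j hj a).2 k hk e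
  intro i hi j hj k hk
  by_cases e1 : k = i
  swap
  · exact o1 i hi j hj k hk e1
  by_cases e2 : k = j
  swap
  · exact o2 i hi j hj k hk e2
  subst e1 e2
  obtain ⟨l, hl, l1, -⟩ := fresh k k k
  have := hT k hk l hl l1.symm (u k) (v l) (w k)
  rw [(hu k hk l hl l1.symm).2 k hk l1.symm, (hv k hk l hl l1.symm).1, (hw l hl k hk l1).1] at this
  simpa [hs, o1 k hk l hl l hl l1, o1 k hk k hk l hl l1] using this

/-- families of both kinds -/
def Fam (r : ℕ) (G : ℕ → ℕ → Mat p n) (ε : Bool) (u : ℕ → Vec p n) : Prop :=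
  if ε then Up r G 1 u else Up r (fun a b => G b a) (-1) u

theorem core2 (hr : 4 ≤ r) (T : T3 p n) (G : ℕ → ℕ → Mat p n)
    (hT : ∀ a < r, ∀ b < r, a ≠ b → ∀ x y z, T (G a b *ᵥ x) (G a b *ᵥ y) (G a b *ᵥ z) = T x y z)
    {ε δ : Bool} {u v w : ℕ → Vec p n} (hu : Fam r G ε u) (hv : Fam r G ε v) (hw : Fam r G δ w) :
    ∀ i < r, ∀ j < r, ∀ k < r, T (u i) (v j) (w k) = 0 := by
  cases ε
  · refine core hr T (fun a b => G b a) (fun a ha b hb c => hT b hb a ha c.symm)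
      (neg_ne_zero.2 one_ne_zero) (s' := 1) hu hv ?_
    cases δ
    exacts [Or.inl hw, Or.inr hw]
  · refine core hr T G hT one_ne_zero (s' := -1) hu hv ?_
    cases δ
    exacts [Or.inr hw, Or.inl hw]

theorem core3 (hr : 4 ≤ r) (T : T3 p n) (G : ℕ → ℕ → Mat p n)
    (hT : ∀ a < r, ∀ b < r, a ≠ b → ∀ x y z, T (G a b *ᵥ x) (G a b *ᵥ y) (G a b *ᵥ z) = T x y z)
    {ε δ η : Bool} {u v w : ℕ → Vec p n} (hu : Fam r G ε u) (hv : Fam r G δ v) (hw : Fam r G η w)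
    {i j k : ℕ} (hi : i < r) (hj : j < r) (hk : k < r) : T (u i) (v j) (w k) = 0 := by
  let T' : T3 p n := (LinearMap.lflip.toLinearMap) ∘ₗ T
  let T'' : T3 p n := (LinearMap.lflip.toLinearMap) ∘ₗ T.flip
  by_cases e1 : ε = δ
  · subst e1; exact core2 hr T G hT hu hv hw i hi j hj k hk
  by_cases e2 : ε = η
  · subst e2
    exact core2 hr T' G (fun a ha b hb c x y z => hT a ha b hb c x z y) hu hw hv i hi k hk j hj
  have e3 : δ = η := by revert e1 e2; cases ε <;> cases δ <;> cases η <;> simp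
  subst e3
  exact core2 hr T'' G (fun a ha b hb c x y z => hT a ha b hb c z x y) hv hw hu j hj k hk i hi

variable {F : ℕ → ℕ → Mat p n} {Zb : Set (Mat p n)} {τ0 : Mat p n} {t : ℕ}

/-- the components of a vector -/
noncomputable def cp (F : ℕ → ℕ → Mat p n) (ε : Bool) (k : ℕ) (x : Vec p n) (j : ℕ) : Vec p n :=
  (if ε then F j k else st (F k j)) *ᵥ x

theorem fam (h : Un3 r F Zb τ0 t) (ε : Bool) {k : ℕ} (hk : k < r) (x : Vec p n) :
    Fam r (fun a b => sgl (F a b)) ε (cp F ε k x) := by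
  cases ε
  · refine fun a ha b hb _ => ⟨?_, fun j hj e => ?_⟩ <;> rw [sgl_mulVec] <;>
      simp only [cp, Bool.false_eq_true, if_false, Matrix.mulVec_mulVec, ← st_mul]
    · rw [h.ms0 b hb a ha k hk b hb, h.mul k hk b hb a ha]; simp [sub_eq_add_neg]
    · rw [h.ms0 b hb a ha k hk j hj, h.mul0 k hk j hj b hb a ha e.symm]; simp
  · refine fun a ha b hb _ => ⟨?_, fun j hj e => ?_⟩ <;> rw [sgl_mulVec] <;>
      simp only [cp, if_true, Matrix.mulVec_mulVec]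
    · rw [h.sm0 a ha b hb b hb k hk, h.mul a ha b hb k hk]; simp
    · rw [h.sm0 a ha b hb j hj k hk, h.mul0 a ha b hb j hj k hk e]; simp

theorem split (F : ℕ → ℕ → Mat p n) (r : ℕ) (x : Vec p n) :
    (dg F r 0 0 + st (dg F r 0 0)) *ᵥ x =
      ∑ q ∈ Finset.range r ×ˢ (Finset.univ : Finset Bool), cp F q.2 q.1 x q.1 := by
  have e : st (dg F r 0 0) = ∑ i ∈ Finset.range r, st (F (0 + i) (0 + i)) := map_sum stL _ _
  rw [e, dg, ← Finset.sum_add_distrib, Matrix.sum_mulVec, Finset.sum_product]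
  refine Finset.sum_congr rfl fun i _ => ?_
  simp [cp, Matrix.add_mulVec]

theorem graded (hr : 4 ≤ r) (h : Un3 r F Zb τ0 t) {w : Frm p n} (h1 : ∀ z ∈ Zb, pull1 z w = w)
    (h2 : pull1 (dg F r 0 0 + st (dg F r 0 0)) w = w) : w = 0 := by
  have e : ∀ (g : Mat p n) x y z, cur w (g *ᵥ x) (g *ᵥ y) (g *ᵥ z) = cur (pull1 g w) x y z :=
    fun g x y z => by
    rw [cur_apply, cur_apply, ev_pull1]
    congr 1
    funext j
    fin_cases j <;> rfl
  refine frm_ext fun x => ?_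
  have e1 : ev w x = cur w (x 1) (x 0) (x 2) := by
    rw [cur_apply]
    congr 1
    funext j
    fin_cases j <;> rfl
  rw [e1, ← h2, ← e, split, split, split]
  simp only [map_sum, LinearMap.sum_apply]
  rw [show ev (0 : Frm p n) x = 0 by simp [ev]]
  refine Finset.sum_eq_zero fun a ha => Finset.sum_eq_zero fun b hb =>
    Finset.sum_eq_zero fun c hc => ?_
  have ha' := Finset.mem_range.1 (Finset.mem_product.1 ha).1
  have hb' := Finset.mem_range.1 (Finset.mem_product.1 hb).1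
  have hc' := Finset.mem_range.1 (Finset.mem_product.1 hc).1
  exact core3 hr (cur w) (fun a b => sgl (F a b)) (fun a ha b hb c x y z => by
    rw [e, h1 _ (h.gen a ha b hb c)]) (fam h _ (by assumption) _) (fam h _ (by assumption) _)
    (fam h _ (by assumption) _) (by assumption) (by assumption) (by assumption)

end Inv3

open Inv3

/-- the field `inv3` of `Tz` -/
theorem inv3_of {p n : ℕ} [Fact p.Prime] {W Z : SG p n} {f τ : GG p n} {ℓ : Ix n → ℕ} {r t : ℕ}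
    {F : ℕ → ℕ → Mat p n} {Zb : Set (Mat p n)} {τ0 : Mat p n} (hl : Lab ℓ)
    (hT : TriR (Env W) f ℓ) (hZ : Z ≤ W) (hτ : τ ∈ W) (tn : (t : ZMod p) ≠ 0) (h1 : τ ^ t = 1)
    (hc : ∀ z ∈ Z, z * τ = τ * z) (hg : CU.AF.gi f ℓ Z = Zb)
    (hs : gr ℓ (fr f (sm τ t)) = ∑ i ∈ Finset.range t, τ0 ^ i) (h : Un3 r F Zb τ0 t) (hr : 4 ≤ r)
    (w : Frm p n) (hw : ∀ z ∈ Z, ∀ x : Fin 3 → Vec p n, (∀ j, x j ∈ Vm τ t ⊤) →
      ev w (fun j => z.1 *ᵥ x j) = ev w x) (x : Fin 3 → Vec p n) (hx : ∀ j, x j ∈ Vm τ t ⊤) :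
    ev w x = 0 := by
  have hf := f.2.2.1
  have fe : ∀ g : Mat p n, f.1 * fr f g = g * f.1 := fun g => by
    simp only [fr, cj_apply, st_st]
    rw [← mul_assoc, ← mul_assoc, hf.mul_st, one_mul]
  have hm : ∀ u, mp τ t *ᵥ u ∈ Vm τ t ⊤ := fun u => mem_Vm.2 ⟨trivial, sm_mp tn h1 u⟩
  have mW : mp τ t ∈ Env W := sub_mem (env_mem W.one_mem)
    (Submodule.smul_mem _ _ (sm_mem le_rfl hτ t))
  have e0 : gr ℓ (fr f (mp τ t)) = dg F r 0 0 + st (dg F r 0 0) := by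
    have : fr f (1 : Mat p n) = 1 := by simp only [fr, cj_apply, st_st, mul_one, hf.st_mul]
    rw [mp, map_sub, map_sub, map_smul, map_smul, hs, h.sum, this, gr_one, smul_smul,
      inv_mul_cancel₀ tn, one_smul]
    abel
  have a1 : ∀ z ∈ Z, pull1 (fr f z.1) (pull1 (mp τ t * f.1) w) = pull1 (mp τ t * f.1) w :=
    fun z hz => frm_ext fun y => by
    rw [← pull1_mul, mul_assoc, fe, ← mul_assoc, ← mp_comm (hc z hz), ev_pull1, ev_pull1]
    simp only [← Matrix.mulVec_mulVec]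
    exact hw z hz _ fun j => hm _
  have a2 : pull1 (fr f (mp τ t)) (pull1 (mp τ t * f.1) w) = pull1 (mp τ t * f.1) w :=
    frm_ext fun y => by
    rw [← pull1_mul, mul_assoc, fe, ev_pull1, ev_pull1]
    simp only [← Matrix.mulVec_mulVec, mp_of_vm (hm _)]
  have van : ∀ s, pull1 (mp τ t * f.1) w ∈ Van ℓ s := fun s => by
    induction s with
    | zero => rw [Van_zero]; trivial
    | succ s ih =>
      refine mem_Van_succ.2 ⟨ih, graded hr h (fun z hz => ?_) ?_⟩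
      · obtain ⟨y, hy, rfl⟩ : z ∈ CU.AF.gi f ℓ Z := hg ▸ hz
        rw [← cmp_pull1 hl (hT _ (env_mem (hZ hy))) ih, a1 y hy]
      · rw [← e0, ← cmp_pull1 hl (hT _ mW) ih, a2]
  have := congrArg (ev · fun j => st f.1 *ᵥ x j) (eq_zero_of_Van_top hl (van _))
  simp only [ev_pull1, ← Matrix.mulVec_mulVec, hf.mulVec_st, mp_of_vm (hx _)] at this
  rw [this]
  simp [ev]

end Pool.Agent.P.MP_f1a348_lc.LT2
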