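import Pool.Agent.P.MP_f1a348_lc.LT.Un

/-!
The graded data of Lemma T, with the corner field.
-/

namespace Pool.Agent.P.MP_f1a348_lc.LT2

open Matrix Module Pool.Agent.P.MP_f1a348_lc.PG Pool.Agent.P.MP_f1a348_lc.UP
  Pool.Agent.P.MP_f1a348_lc.CE

variable {p n : ℕ} [Fact p.Prime]

/-- the support is central and the corner of `F 0 0` is a large enough division algebra -/
structure Un4 (r : ℕ) (F : ℕ → ℕ → Mat p n) (Zb : Set (Mat p n)) (τ : Mat p n) (t : ℕ) : Prop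
    extends Un3 r F Zb τ t where
  cen : ∀ z ∈ Zb, z * dg F r 0 0 = dg F r 0 0 * z
  div : ∀ c ∈ Submodule.span (ZMod p) Zb, F 0 0 * c * F 0 0 ≠ 0 →
    ∃ d ∈ Submodule.span (ZMod p) Zb, d * (F 0 0 * c * F 0 0) = F 0 0
  dim : 200 * (2 * n + 1) ≤
    r * r * finrank (ZMod p) ((Submodule.span (ZMod p) Zb).map (lr (F 0 0) (F 0 0)))

end Pool.Agent.P.MP_f1a348_lc.LT2
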