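import Pool.Agent.P.MP_f1a348_lc.AF.Iface
import Pool.Agent.P.MP_f1a348_lc.LT.Tz
import Pool.Agent.P.MP_f1a348_lc.LT.Un4

/-!
The simple sections in Lemma T.
-/

namespace Pool.Agent.P.MP_f1a348_lc.LT2

open Matrix Module Pool.Agent.P.MP_f1a348_lc.PG Pool.Agent.P.MP_f1a348_lc.UP
  Pool.Agent.P.MP_f1a348_lc.UP.LT

variable {p n : ℕ} [Fact p.Prime]

/-- a simple module on which the support of the matrix units does not vanish -/
theorem units_dim {M : Type} [AddCommGroup M] [Module (ZMod p) M] [Module.Finite (ZMod p) M]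
    {A K : Sub p n} (ρ : Mat p n →ₗ[ZMod p] End (ZMod p) M) (am : ∀ a ∈ A, ∀ b ∈ A, a * b ∈ A)
    (rm : ∀ a ∈ A, ∀ b ∈ A, ρ (a * b) = ρ a * ρ b) (sim : ∀ s ≠ 0, ∀ m, ∃ a ∈ A, ρ a s = m)
    {r : ℕ} {F : ℕ → ℕ → Mat p n} (fa : ∀ i < r, ∀ j < r, F i j ∈ A)
    (m1 : ∀ i < r, ∀ j < r, ∀ l < r, F i j * F j l = F i l)
    (m0 : ∀ i < r, ∀ j < r, ∀ k < r, ∀ l < r, k ≠ j → F i j * F k l = 0)
    (cen : ∀ a ∈ A, a * ∑ i : Fin r, F i i = (∑ i : Fin r, F i i) * a)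
    (k1 : ∀ c ∈ K, c ∈ A ∧ F 0 0 * c = c ∧ c * F 0 0 = c ∧ (c ≠ 0 → ∃ d ∈ A, d * c = F 0 0))
    (k2 : ∀ a ∈ A, F 0 0 * a * F 0 0 ∈ K) (h : ρ (∑ i : Fin r, F i i) ≠ 0) :
    finrank (ZMod p) M = r * finrank (ZMod p) K ∧
      r * r * finrank (ZMod p) K ≤ finrank (ZMod p) (A.map ρ) := by
  obtain ⟨i0, h0⟩ : ∃ i : Fin r, ρ (F i i) ≠ 0 := by
    by_contra! e
    exact h (by simp [e])
  have z : 0 < r := i0.pos
  have a0 := fa 0 z 0 z
  obtain ⟨s, s0, s1⟩ : ∃ s ≠ 0, ρ (F 0 0) s = s := by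
    by_contra! e
    have : ρ (F 0 0) = 0 := LinearMap.ext fun m => by
      by_contra e'
      exact e _ e' (by rw [← End.mul_apply, ← rm _ a0 _ a0, m1 0 z 0 z 0 z])
    refine h0 ?_
    rw [← m1 _ i0.2 0 z _ i0.2, ← m1 _ i0.2 0 z 0 z, rm _ (am _ (fa _ i0.2 0 z) _ a0) _ (fa 0 z _ i0.2),
      rm _ (fa _ i0.2 0 z) _ a0, this, mul_zero, zero_mul]
  have inj : ∀ c ∈ K, ρ c s = 0 → c = 0 := fun c hc e => by
    by_contra e'
    obtain ⟨d, hd, e1⟩ := (k1 c hc).2.2.2 e'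
    exact s0 (by rw [← s1, ← e1, rm _ hd _ (k1 c hc).1, End.mul_apply, e, map_zero])
  have sl : ∀ (j : Fin r) (x : Fin r → Mat p n), F 0 j * ∑ i : Fin r, F i 0 * x i = F 0 0 * x j :=
    fun j x => by
    rw [Finset.mul_sum, Finset.sum_eq_single j, ← mul_assoc, m1 0 z _ j.2 0 z]
    · exact fun i _ e => by rw [← mul_assoc, m0 0 z _ j.2 _ i.2 0 z (Fin.val_ne_of_ne e), zero_mul]
    · simp
  have sr : ∀ (j : Fin r) (x : Fin r → Mat p n), (∑ i : Fin r, x i * F 0 i) * F j 0 = x j * F 0 0 :=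
    fun j x => by
    rw [Finset.sum_mul, Finset.sum_eq_single j, mul_assoc, m1 0 z _ j.2 0 z]
    · exact fun i _ e => by
        rw [mul_assoc, m0 0 z _ i.2 _ j.2 0 z (Fin.val_ne_of_ne e.symm), mul_zero]
    · simp
  have p0 : (∑ i : Fin r, F i i) * F 0 0 = F 0 0 := by
    have := sr ⟨0, z⟩ fun i => F i 0
    simp only [fun i : Fin r => m1 _ i.2 0 z _ i.2, m1 0 z 0 z 0 z] at this
    exact this
  let Ψ : (Fin r → K) →ₗ[ZMod p] Mat p n :=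
    ∑ i : Fin r, LinearMap.mulLeft _ (F i 0) ∘ₗ K.subtype ∘ₗ LinearMap.proj i
  have eΨ : ∀ c, Ψ c = ∑ i : Fin r, F i 0 * (c i).1 := fun c => by simp [Ψ]
  have aΨ : ∀ c, Ψ c ∈ A := fun c =>
    eΨ c ▸ A.sum_mem fun i _ => am _ (fa _ i.2 0 z) _ (k1 _ (c i).2).1
  have iΨ : ∀ c, ρ (Ψ c) s = 0 → c = 0 := fun c e => funext fun j => Subtype.ext (inj _ (c j).2 (by
    rw [← (k1 _ (c j).2).2.1, ← sl j fun i => (c i).1, ← eΨ, rm _ (fa 0 z _ j.2) _ (aΨ c),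
      End.mul_apply, e, map_zero]))
  let Θ : (Fin r → Fin r → K) →ₗ[ZMod p] Mat p n :=
    ∑ j : Fin r, LinearMap.mulRight _ (F 0 j) ∘ₗ Ψ ∘ₗ LinearMap.proj j
  have eΘ : ∀ c, Θ c = ∑ j : Fin r, Ψ (c j) * F 0 j := fun c => by simp [Θ]
  have aΘ : ∀ c, Θ c ∈ A := fun c => eΘ c ▸ A.sum_mem fun j _ => am _ (aΨ _) _ (fa 0 z _ j.2)
  constructor
  · have := (LinearEquiv.ofBijective (LinearMap.applyₗ s ∘ₗ ρ ∘ₗ Ψ)
      ⟨(injective_iff_map_eq_zero _).2 iΨ, fun m => ?_⟩).finrank_eq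
    · simpa [Module.finrank_pi_fintype] using this.symm
    obtain ⟨a, ha, rfl⟩ := sim s s0 m
    refine ⟨fun i => ⟨_, k2 _ (am _ (fa 0 z _ i.2) a ha)⟩, ?_⟩
    show ρ (Ψ _) s = _
    have : ∀ i : Fin r, F i 0 * (F 0 0 * (F 0 i * a) * F 0 0) = F i i * a * F 0 0 := fun i => by
      simp only [← mul_assoc, m1 _ i.2 0 z 0 z, m1 _ i.2 0 z _ i.2]
    simp only [eΨ, this]
    rw [← Finset.sum_mul, ← Finset.sum_mul, ← cen a ha, mul_assoc, p0, rm a ha _ a0, End.mul_apply,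
      s1]
  · have := LinearMap.finrank_le_finrank_of_injective
      (f := (ρ ∘ₗ Θ).codRestrict (A.map ρ) fun c => ⟨_, aΘ c, rfl⟩)
      ((injective_iff_map_eq_zero _).2 fun c e => funext fun j => iΨ _ ?_)
    · simpa [Module.finrank_pi_fintype, mul_assoc] using this
    have e' : ρ (Θ c) = 0 := congrArg Subtype.val e
    rw [← s1, ← End.mul_apply, ← rm _ (aΨ _) _ a0, ← sr j fun j => Ψ (c j), ← eΘ,
      rm _ (aΘ c) _ (fa _ j.2 0 z), e', zero_mul, LinearMap.zero_apply]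

/-- the action on a simple section, through a quotient with nilpotent kernel -/
theorem sec_rep {R : Sub p n} (hR : SA R) {L U : VS p n} (h : SS R L U)
    (φ : Mat p n →ₗ[ZMod p] Mat p n) (hm : ∀ x ∈ R, ∀ y ∈ R, φ (x * y) = φ x * φ y)
    (hJ : ∀ x ∈ R, φ x = 0 → IsNilpotent x) :
    ∃ (M : Submodule (ZMod p) (Vec p n ⧸ L)) (ρ : Mat p n →ₗ[ZMod p] End (ZMod p) M),
      (∀ a ∈ R.map φ, ∀ b ∈ R.map φ, ρ (a * b) = ρ a * ρ b) ∧
      (∀ s ≠ 0, ∀ m, ∃ a ∈ R.map φ, ρ a s = m) ∧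
      finrank (ZMod p) U = finrank (ZMod p) L + finrank (ZMod p) M ∧
      finrank (ZMod p) ((R.map φ).map ρ) + finrank (ZMod p) (ann R L U) = finrank (ZMod p) R ∧
      ∀ x ∈ R, ρ (φ x) = ρ (φ 1) → ∀ m : ℕ, ∃ u ∈ U, x ^ m *ᵥ u ≠ 0 := by
  have cyc : ∀ s ∈ U, s ∉ L → ∀ u ∈ U, ∃ y ∈ R, u - y *ᵥ s ∈ L := fun s hs hn u hu => by
    rcases h.max (L ⊔ orb R s) (fun x hx v hv => by
      obtain ⟨a, ha, _, ⟨y, hy, rfl⟩, rfl⟩ := Submodule.mem_sup.1 hv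
      rw [Matrix.mulVec_add]
      exact Submodule.add_mem_sup (h.invL x hx a ha)
        ⟨x * y, hR.mul x hx y hy, (Matrix.mulVec_mulVec s x y).symm⟩) le_sup_left
      (sup_le h.lt.le (by rintro _ ⟨y, hy, rfl⟩; exact h.invU y hy s hs)) with e | e
    · exact absurd (e.le (Submodule.mem_sup_right ⟨1, hR.one, Matrix.one_mulVec s⟩)) hn
    · obtain ⟨a, ha, _, ⟨y, hy, rfl⟩, rfl⟩ := Submodule.mem_sup.1 (e.ge hu)
      exact ⟨y, hy, by simpa [evx] using ha⟩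
  have pw : ∀ x ∈ R, ∀ u, u - x *ᵥ u ∈ L → ∀ m : ℕ, u - x ^ m *ᵥ u ∈ L := fun x hx u e m => by
    induction m with
    | zero => simp
    | succ m ih =>
      have := add_mem e (h.invL x hx _ ih)
      rwa [Matrix.mulVec_sub, sub_add_sub_cancel, Matrix.mulVec_mulVec, ← pow_succ'] at this
  have kJ : ∀ x ∈ R, φ x = 0 → ∀ u ∈ U, x *ᵥ u ∈ L := fun x hx e u hu => by
    by_contra hn
    obtain ⟨y, hy, e1⟩ := cyc _ (h.invU x hx u hu) hn u hu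
    obtain ⟨m, e2⟩ := hJ _ (hR.mul y hy x hx) (by rw [hm y hy x hx, e, mul_zero])
    have := pw _ (hR.mul y hy x hx) u (by rwa [← Matrix.mulVec_mulVec]) m
    rw [e2, Matrix.zero_mulVec, sub_zero] at this
    exact hn (h.invL x hx u this)
  obtain ⟨g, hg⟩ := (U.map L.mkQ).subtype.exists_leftInverse_of_injective (Submodule.ker_subtype _)
  obtain ⟨i, hi⟩ := (L.mkQ.submoduleMap U).exists_rightInverse_of_surjective
    (LinearMap.range_eq_top.2 (LinearMap.submoduleMap_surjective _ _))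
  obtain ⟨σ, hσ⟩ := (φ.submoduleMap R).exists_rightInverse_of_surjective
    (LinearMap.range_eq_top.2 (LinearMap.submoduleMap_surjective _ _))
  obtain ⟨σ', hσ'⟩ := LinearMap.exists_extend (R.subtype ∘ₗ σ)
  have g1 : ∀ u ∈ U, (g (L.mkQ u)).1 = L.mkQ u := fun u hu =>
    congrArg Subtype.val (LinearMap.congr_fun hg ⟨_, u, hu, rfl⟩)
  have i1 : ∀ m, L.mkQ (i m).1 = m.1 := fun m => congrArg Subtype.val (LinearMap.congr_fun hi m)
  have σ1 : ∀ x ∈ R, σ' (φ x) ∈ R ∧ φ (σ' (φ x)) = φ x := fun x hx => by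
    have : σ' (φ x) = (σ ⟨_, x, hx, rfl⟩).1 := LinearMap.congr_fun hσ' ⟨_, x, hx, rfl⟩
    exact this ▸ ⟨Subtype.prop _, congrArg Subtype.val (LinearMap.congr_fun hσ ⟨_, x, hx, rfl⟩)⟩
  let ρ0 : Mat p n →ₗ[ZMod p] End (ZMod p) (U.map L.mkQ) :=
    (mv.compl₂ (U.subtype ∘ₗ i)).compr₂ (g ∘ₗ L.mkQ)
  have q0 : ∀ u v, L.mkQ u = L.mkQ v ↔ u - v ∈ L := fun u v => Submodule.Quotient.eq L
  have r1 : ∀ x ∈ R, ∀ m, (ρ0 x m).1 = L.mkQ (x *ᵥ (i m).1) := fun x hx m => by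
    rw [← g1 _ (h.invU x hx _ (i m).2)]
    simp [ρ0]
  have r2 : ∀ x ∈ R, ∀ m, ∀ u, L.mkQ u = m.1 → (ρ0 x m).1 = L.mkQ (x *ᵥ u) := fun x hx m u e => by
    rw [r1 x hx, q0, ← Matrix.mulVec_sub]
    exact h.invL x hx _ ((q0 _ _).1 ((i1 m).trans e.symm))
  have r3 : ∀ x ∈ R, (ρ0 ∘ₗ σ') (φ x) = ρ0 x := fun x hx => LinearMap.ext fun m => Subtype.ext (by
    rw [LinearMap.comp_apply, r1 _ (σ1 x hx).1, r1 x hx, q0, ← Matrix.sub_mulVec]
    exact kJ _ (sub_mem (σ1 x hx).1 hx) (by rw [map_sub, (σ1 x hx).2, sub_self]) _ (i m).2)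
  refine ⟨U.map L.mkQ, ρ0 ∘ₗ σ', ?_, fun s s0 m => ?_, ?_, ?_, fun x hx e m => ?_⟩
  · rintro _ ⟨x, hx, rfl⟩ _ ⟨y, hy, rfl⟩
    rw [← hm x hx y hy, r3 _ (hR.mul x hx y hy), r3 x hx, r3 y hy]
    exact LinearMap.ext fun m => Subtype.ext (by
      rw [End.mul_apply, r2 x hx _ _ (r1 y hy m).symm, r1 _ (hR.mul x hx y hy), Matrix.mulVec_mulVec])
  · obtain ⟨y, hy, e⟩ := cyc _ (i s).2 (fun e => s0 (Subtype.ext
      ((i1 s).symm.trans ((Submodule.Quotient.mk_eq_zero L).2 e)))) _ (i m).2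
    exact ⟨_, ⟨y, hy, rfl⟩, Subtype.ext (by rw [r3 y hy, r1 y hy, ← (q0 _ _).2 e, i1])⟩
  · have := KT.rk L.mkQ U
    rw [Submodule.ker_mkQ, inf_eq_right.2 h.lt.le] at this
    omega
  · have e1 : (R.map φ).map (ρ0 ∘ₗ σ') = R.map ρ0 := le_antisymm
      (by rintro _ ⟨_, ⟨x, hx, rfl⟩, rfl⟩; exact ⟨x, hx, (r3 x hx).symm⟩)
      (by rintro _ ⟨x, hx, rfl⟩; exact ⟨_, ⟨x, hx, rfl⟩, r3 x hx⟩)
    have e2 : ann R L U = R ⊓ LinearMap.ker ρ0 := Submodule.ext fun x => and_congr_right fun hx =>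
      ⟨fun e => LinearMap.ext fun m => Subtype.ext
        ((r1 x hx m).trans ((Submodule.Quotient.mk_eq_zero L).2 (e _ (i m).2))), fun e u hu =>
        (Submodule.Quotient.mk_eq_zero L).1 ((r2 x hx ⟨_, u, hu, rfl⟩ u rfl).symm.trans (by
          rw [LinearMap.mem_ker.1 e]; rfl))⟩
    rw [e1, e2, KT.rk]
  · obtain ⟨u, hu, hn⟩ := SetLike.exists_of_lt h.lt
    refine ⟨u, hu, fun e' => hn ?_⟩
    rw [r3 x hx, r3 1 hR.one] at e
    have := (r2 1 hR.one ⟨_, u, hu, rfl⟩ u rfl).symm.trans (e ▸ r2 x hx ⟨_, u, hu, rfl⟩ u rfl)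
    rw [Matrix.one_mulVec, q0] at this
    simpa [e'] using pw x hx u this m

theorem sec (b : CU.AF.TB p n) {W Z : SG p n} {f : GG p n} {ℓ : Ix n → ℕ} (hl : Lab ℓ)
    (ht : TriR (Env W) f ℓ) (hZ : Z ≤ W) {τ : GG p n} (hτ : τ ∈ W) {t : ℕ} (tn : (t : ZMod p) ≠ 0)
    {Zb : Set (Mat p n)} (eZ : CU.AF.gi f ℓ Z = Zb) {τ0 : Mat p n}
    (es : gr ℓ (fr f (sm τ t)) = ∑ i ∈ Finset.range t, τ0 ^ i) {r : ℕ} {F : ℕ → ℕ → Mat p n}
    (h : Un4 r F Zb τ0 t) (z : 0 < r) {L U : VS p n} (hs : SS (Env Z) L U) (hU : U ≤ Vm τ t ⊤) :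
    finrank (ZMod p) U = finrank (ZMod p) L +
      r * finrank (ZMod p) ((Submodule.span (ZMod p) Zb).map (lr (F 0 0) (F 0 0))) ∧
    200 * (2 * n + 1) + finrank (ZMod p) (ann (Env Z) L U) ≤ finrank (ZMod p) (Env Z) := by
  have le : Env Z ≤ Env W := env_mono hZ
  have hR := (b.env.1 Z).1
  have hW := (b.env.1 W).1
  have tz : TriR (Env Z) f ℓ := fun x hx => ht x (le hx)
  obtain ⟨-, -, g3, -, g5, -, g7, -⟩ := b.gi Z f ℓ hl tz
  obtain ⟨hA, hJ, -⟩ := b.rad _ f ℓ hR hl tz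
  obtain ⟨M, ρ, r1, r2, r3, r4, r5⟩ := sec_rep hR hs (gr ℓ ∘ₗ fr f) g5 fun x hx e => by
    simpa using (hJ x hx e).2 1 hR.one
  have hd := h.dim
  have hv := h.div
  have sp := h.spn
  have cen : ∀ a ∈ Submodule.span (ZMod p) Zb, a * ∑ i : Fin r, F i i = (∑ i : Fin r, F i i) * a := by
    have : dg F r 0 0 = ∑ i : Fin r, F i i := by simp only [dg, zero_add, Finset.sum_range]
    exact fun a ha => sub_eq_zero.1 (Submodule.span_le.2 (fun a ha => sub_eq_zero.2 (this ▸ h.cen a ha)) ha :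
      a ∈ LinearMap.ker (LinearMap.mulRight (ZMod p) _ - LinearMap.mulLeft (ZMod p) _))
  have su := h.sum
  simp only [dg, zero_add, Finset.sum_range (fun i => F i i)] at su
  rw [eZ] at g3
  rw [g3] at hd hv sp cen ⊢
  change ∀ a ∈ gB _ f ℓ, ∀ b ∈ gB _ f ℓ, _ at r1
  change ∀ s ≠ 0, ∀ m, ∃ a ∈ gB _ f ℓ, _ at r2
  change finrank _ ((gB _ f ℓ).map ρ) + _ = _ at r4
  have pa : ∑ i : Fin r, F i i ∈ gB (Env Z) f ℓ := sum_mem fun i _ => (sp _ i.2 _ i.2).1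
  have key : ρ (∑ i : Fin r, F i i) ≠ 0 ∨ ρ (st (∑ i : Fin r, F i i)) ≠ 0 := by
    by_contra! e
    obtain ⟨x, hx, e1⟩ := sub_mem (sub_mem hA.one pa) (hA.star _ pa)
    obtain ⟨m, e2⟩ := ((b.rad _ f ℓ hW hl ht).2.1 _ (sub_mem (le hx)
      (Submodule.smul_mem _ (t : ZMod p)⁻¹ (sm_mem le_rfl hτ t))) (by
        simp only [map_sub, map_smul]
        rw [es, su, smul_smul, inv_mul_cancel₀ tn, one_smul]
        exact sub_eq_zero.2 e1)).2 1 hW.one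
    obtain ⟨u, hu, e3⟩ := r5 x hx (by
      rw [e1, map_sub, map_sub, e.1, e.2, sub_zero, sub_zero, LinearMap.comp_apply, g7]) m
    have : ∀ k : ℕ, x ^ k *ᵥ u ∈ U ∧ (x - (t : ZMod p)⁻¹ • sm τ t) ^ k *ᵥ u = x ^ k *ᵥ u := fun k => by
      induction k with
      | zero => simpa using hu
      | succ k ih =>
        rw [pow_succ', pow_succ', ← Matrix.mulVec_mulVec, ← Matrix.mulVec_mulVec, ih.2,
          Matrix.sub_mulVec, Matrix.smul_mulVec, (mem_Vm.1 (hU ih.1)).2, smul_zero, sub_zero]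
        exact ⟨hs.invU x hx _ ih.1, rfl⟩
    rw [mul_one] at e2
    exact e3 (by rw [← (this m).2, e2, Matrix.zero_mulVec])
  set A := gB (Env Z) f ℓ
  have a0 := (sp 0 z 0 z).1
  have f0 := h.mul 0 z 0 z 0 z
  have k1 : ∀ c ∈ A.map (lr (F 0 0) (F 0 0)), c ∈ A ∧ F 0 0 * c = c ∧ c * F 0 0 = c ∧
      (c ≠ 0 → ∃ d ∈ A, d * c = F 0 0) := by
    rintro _ ⟨a, ha, rfl⟩
    exact ⟨hA.mul _ (hA.mul _ a0 a ha) _ a0, by simp only [lr, LinearMap.coe_mk, AddHom.coe_mk,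
      ← mul_assoc, f0], by simp only [lr, LinearMap.coe_mk, AddHom.coe_mk, mul_assoc, f0], hv a ha⟩
  rcases key with e | e
  · obtain ⟨u1, u2⟩ := units_dim ρ hA.mul r1 r2 (fun i a j b => (sp i a j b).1) h.mul h.mul0 cen k1
      (fun a ha => ⟨a, ha, rfl⟩) e
    exact ⟨u1 ▸ r3, (Nat.add_le_add_right (hd.trans u2) _).trans r4.le⟩
  have e0 : st (∑ i : Fin r, F i i) = ∑ i : Fin r, st (F i i) := map_sum stL _ _
  obtain ⟨u1, u2⟩ := units_dim (K := (A.map (lr (F 0 0) (F 0 0))).map stL) (F := fun i j => st (F j i))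
    ρ hA.mul r1 r2 (fun i a j b => (sp j b i a).2)
    (fun i a j b l c => by rw [← st_mul, h.mul l c j b i a])
    (fun i a j b k c l d e => by rw [← st_mul, h.mul0 l d k c j b i a e.symm]; exact map_zero stL)
    (fun a ha => by rw [← e0, ← st_st a, ← st_mul, ← st_mul, cen _ (hA.star a ha)]) (by
      rintro _ ⟨c, hc, rfl⟩
      obtain ⟨c1, c2, c3, c4⟩ := k1 c hc
      refine ⟨hA.star c c1, by rw [stL_apply, ← st_mul, c3], by rw [stL_apply, ← st_mul, c2],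
        fun e => ?_⟩
      obtain ⟨d, hd, e1⟩ := c4 fun e' => e (by rw [e', map_zero])
      have e2 : F 0 0 * d * F 0 0 * c = F 0 0 := by rw [mul_assoc, c2, mul_assoc, e1, f0]
      obtain ⟨d', hd', e3⟩ := hv d hd fun e' => e (by
        rw [← c2, ← e2, e', zero_mul, zero_mul, map_zero])
      refine ⟨st (F 0 0 * d * F 0 0), hA.star _ (hA.mul _ (hA.mul _ a0 d hd) _ a0), ?_⟩
      have e4 : c = d' * F 0 0 := by rw [← c2, ← e3, mul_assoc, e2, e3]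
      rw [stL_apply, ← st_mul, e4, mul_assoc, ← mul_assoc (F 0 0), ← mul_assoc (F 0 0), f0, e3])
    (fun a ha => ⟨_, ⟨st a, hA.star a ha, rfl⟩, by simp [lr, st_mul, mul_assoc]⟩) (e0 ▸ e)
  rw [← (Submodule.equivMapOfInjective stL (fun a b e => by
    rw [← st_st a, ← st_st b]; exact congrArg st e) _).finrank_eq] at u1 u2
  exact ⟨u1 ▸ r3, (Nat.add_le_add_right (hd.trans u2) _).trans r4.le⟩

end Pool.Agent.P.MP_f1a348_lc.LT2
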