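import Pool.Agent.P.MP_f1a348_lc.LT.Fr

/-!
The graded data of Lemma T.
-/

namespace Pool.Agent.P.MP_f1a348_lc.LT2

open Matrix Module Pool.Agent.P.MP_f1a348_lc.PG Pool.Agent.P.MP_f1a348_lc.UP
  Pool.Agent.P.MP_f1a348_lc.CE

variable {p n : ℕ} [Fact p.Prime]

/-- matrix units `F` inside the span of the group `Zb`; the powers of `τ` sum up to a multiple of
the projection onto the complement of their support -/
structure Un3 (r : ℕ) (F : ℕ → ℕ → Mat p n) (Zb : Set (Mat p n)) (τ : Mat p n) (t : ℕ) : Prop where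
  mul : ∀ i < r, ∀ j < r, ∀ l < r, F i j * F j l = F i l
  mul0 : ∀ i < r, ∀ j < r, ∀ k < r, ∀ l < r, k ≠ j → F i j * F k l = 0
  sm0 : ∀ i < r, ∀ j < r, ∀ k < r, ∀ l < r, st (F i j) * F k l = 0
  ms0 : ∀ i < r, ∀ j < r, ∀ k < r, ∀ l < r, F i j * st (F k l) = 0
  grp : Grp Zb
  gen : ∀ i < r, ∀ j < r, i ≠ j → sgl (F i j) ∈ Zb
  spn : ∀ i < r, ∀ j < r, F i j ∈ Submodule.span (ZMod p) Zb ∧
    st (F i j) ∈ Submodule.span (ZMod p) Zb
  sum : ∑ i ∈ Finset.range t, τ ^ i = (t : ZMod p) • (1 - dg F r 0 0 - st (dg F r 0 0))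

end Pool.Agent.P.MP_f1a348_lc.LT2
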